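import Pool.Agent.Lib_MP_4369f4_m.Defs

/-! H22 E: elements of even order; soundness of the rules. -/

namespace MP4369f4

open Polynomial

variable {k : Type} [Field k] {a : k}

private theorem evSound_map_ne {P : k[X]} (hP : P ≠ 0) : algebraMap k[X] (RatFunc k) P ≠ 0 :=
  fun h0 => hP ((map_eq_zero_iff _ (IsFractionRing.injective k[X] (RatFunc k))).1 h0)

private theorem evSound_num (x : RatFunc k) : algebraMap k[X] (RatFunc k) x.num =
    x * algebraMap k[X] (RatFunc k) x.denom :=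
  (div_eq_iff (evSound_map_ne x.denom_ne_zero)).1 (RatFunc.num_div_denom x)

private theorem evSound_ne {G : k[X]} (hG : G.eval a ≠ 0) : G ≠ 0 := by
  rintro rfl
  exact hG eval_zero

private theorem evSound_mult {G : k[X]} (hG : G.eval a ≠ 0) : G.rootMultiplicity a = 0 :=
  rootMultiplicity_eq_zero hG

private theorem evSound_sq {P : k[X]} (hP : P ≠ 0) :
    (P ^ 2).rootMultiplicity a = 2 * P.rootMultiplicity a := by
  rw [pow_two, rootMultiplicity_mul (mul_ne_zero hP hP), two_mul]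

/-- the multiplicity of `a` in `P ^ 2 - Y * Q ^ 2` is even if `Y(a)` is not a square -/
private theorem evSound_even {Y : k[X]} (hY : ¬ IsSquare (Y.eval a)) :
    ∀ (n : ℕ) (P Q : k[X]), P ^ 2 - Y * Q ^ 2 ≠ 0 →
      (P ^ 2 - Y * Q ^ 2).rootMultiplicity a = n → Even n := by
  intro n
  induction n using Nat.strong_induction_on with
  | _ n ih =>
    intro P Q hne hn
    rcases Nat.eq_zero_or_pos n with h0 | h0
    · rw [h0]
      exact ⟨0, rfl⟩
    · have hroot : (P ^ 2 - Y * Q ^ 2).IsRoot a := (rootMultiplicity_pos hne).1 (by omega)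
      have hev : P.eval a ^ 2 - Y.eval a * Q.eval a ^ 2 = 0 := by
        have h1 : (P ^ 2 - Y * Q ^ 2).eval a = 0 := hroot
        rw [eval_sub, eval_mul, eval_pow, eval_pow] at h1
        exact h1
      have hQ : Q.eval a = 0 := by
        by_contra hQ
        apply hY
        refine ⟨P.eval a / Q.eval a, ?_⟩
        field_simp
        linear_combination -hev
      have hP : P.eval a = 0 := by
        rw [hQ] at hev
        have h1 : P.eval a ^ 2 = 0 := by linear_combination hev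
        exact pow_eq_zero_iff two_ne_zero |>.1 h1
      obtain ⟨P1, rfl⟩ := dvd_iff_isRoot.2 hP
      obtain ⟨Q1, rfl⟩ := dvd_iff_isRoot.2 hQ
      have hfac : ((X - C a) * P1) ^ 2 - Y * ((X - C a) * Q1) ^ 2 =
          (X - C a) ^ 2 * (P1 ^ 2 - Y * Q1 ^ 2) := by ring
      rw [hfac] at hne hn
      have hne1 : P1 ^ 2 - Y * Q1 ^ 2 ≠ 0 := right_ne_zero_of_mul hne
      rw [rootMultiplicity_mul hne, rootMultiplicity_X_sub_C_pow] at hn
      obtain ⟨m, hm⟩ := ih (n - 2) (by omega) P1 Q1 hne1 (by omega)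
      exact ⟨m + 1, by omega⟩

theorem EvOrd.ne_zero {g : RatFunc k} (h : EvOrd a g) : g ≠ 0 := by
  obtain ⟨G, s, hG, hs, rfl⟩ := h
  exact mul_ne_zero (evSound_map_ne (evSound_ne hG)) (pow_ne_zero 2 hs)

theorem EvOrd.mul {g g' : RatFunc k} (h : EvOrd a g) (h' : EvOrd a g') : EvOrd a (g * g') := by
  obtain ⟨G, s, hG, hs, rfl⟩ := h
  obtain ⟨G', s', hG', hs', rfl⟩ := h'
  refine ⟨G * G', s * s', ?_, mul_ne_zero hs hs', ?_⟩
  · rw [eval_mul]
    exact mul_ne_zero hG hG'
  · rw [map_mul]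
    ring

theorem EvOrd.const {b : k} (hb : b ≠ 0) : EvOrd a (RatFunc.C b) := by
  refine ⟨C b, 1, ?_, one_ne_zero, ?_⟩
  · rwa [eval_C]
  · rw [RatFunc.algebraMap_C]
    ring

theorem EvOrd.lin {b : k} (hb : b ≠ a) : EvOrd a (RatFunc.X - RatFunc.C b) := by
  refine ⟨X - C b, 1, ?_, one_ne_zero, ?_⟩
  · rw [eval_sub, eval_X, eval_C]
    exact sub_ne_zero.2 (Ne.symm hb)
  · rw [map_sub, RatFunc.algebraMap_X, RatFunc.algebraMap_C]
    ring

/-- g = h (s/h)^2. -/
theorem EvOrd.of_isSquare {g h : RatFunc k} (hg : g ≠ 0) (hh : EvOrd a h)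
    (hs : IsSquare (h * g)) : EvOrd a g := by
  have hh0 := hh.ne_zero
  obtain ⟨r, hr⟩ := hs
  have hr0 : r ≠ 0 := by
    rintro rfl
    rw [mul_zero] at hr
    exact mul_ne_zero hh0 hg hr
  obtain ⟨G, s, hG, hs, hGs⟩ := hh
  refine ⟨G, s * (r / h), hG, mul_ne_zero hs (div_ne_zero hr0 hh0), ?_⟩
  have h1 : algebraMap k[X] (RatFunc k) G * (s * (r / h)) ^ 2 =
      (algebraMap k[X] (RatFunc k) G * s ^ 2) * (r / h) ^ 2 := by ring
  rw [h1, ← hGs]
  field_simp
  linear_combination hr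

/-- Root multiplicities: g and (X - a) g do not both have even order. -/
theorem EvOrd.not_lin_mul {g : RatFunc k} (h : EvOrd a g) :
    ¬ EvOrd a ((RatFunc.X - RatFunc.C a) * g) := by
  rintro ⟨G', s', hG', hs', h'⟩
  obtain ⟨G, s, hG, hs, rfl⟩ := h
  have hsn : s.num ≠ 0 := (RatFunc.num_eq_zero_iff.not).2 hs
  have hsn' : s'.num ≠ 0 := (RatFunc.num_eq_zero_iff.not).2 hs'
  have hpol : (X - C a) * G * (s.num * s'.denom) ^ 2 = G' * (s'.num * s.denom) ^ 2 := by
    apply IsFractionRing.injective k[X] (RatFunc k)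
    simp only [map_sub, map_mul, map_pow, evSound_num, RatFunc.algebraMap_C, RatFunc.algebraMap_X]
    linear_combination (algebraMap k[X] (RatFunc k) s.denom *
      algebraMap k[X] (RatFunc k) s'.denom) ^ 2 * h'
  have h1 : (X - C a) * G * (s.num * s'.denom) ^ 2 ≠ 0 :=
    mul_ne_zero (mul_ne_zero (X_sub_C_ne_zero a) (evSound_ne hG))
      (pow_ne_zero 2 (mul_ne_zero hsn s'.denom_ne_zero))
  have h2 : G' * (s'.num * s.denom) ^ 2 ≠ 0 := hpol ▸ h1
  have h3 : ((X - C a) * G * (s.num * s'.denom) ^ 2).rootMultiplicity a =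
      (G' * (s'.num * s.denom) ^ 2).rootMultiplicity a := by rw [hpol]
  rw [rootMultiplicity_mul h1, rootMultiplicity_mul (left_ne_zero_of_mul h1),
    rootMultiplicity_mul h2, evSound_mult hG, evSound_mult hG', rootMultiplicity_X_sub_C_self,
    evSound_sq (mul_ne_zero hsn s'.denom_ne_zero),
    evSound_sq (mul_ne_zero hsn' s.denom_ne_zero)] at h3
  omega

/-- If Y(a) is a nonsquare then all nonzero norms p^2 - Y q^2 have even order at a: compare `res_even`
of RES (there Y is a constant): for polynomials P, Q the multiplicity of a in P^2 - Y Q^2 is even. -/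
theorem EvOrd.of_nrm {Y : k[X]} (hY : ¬ IsSquare (Y.eval a)) {g : RatFunc k} (hg : g ≠ 0)
    (h : Nrm (algebraMap k[X] (RatFunc k) Y) g) : EvOrd a g := by
  obtain ⟨p, q, hpq⟩ := h
  set P : k[X] := p.num * q.denom with hP
  set Q : k[X] := q.num * p.denom with hQ
  set R : k[X] := p.denom * q.denom with hR
  have hR0 : R ≠ 0 := mul_ne_zero p.denom_ne_zero q.denom_ne_zero
  have hR' := evSound_map_ne hR0
  have hN : algebraMap k[X] (RatFunc k) (P ^ 2 - Y * Q ^ 2) =
      g * (algebraMap k[X] (RatFunc k) R) ^ 2 := by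
    rw [hP, hQ, hR]
    simp only [map_sub, map_mul, map_pow, evSound_num]
    rw [← hpq]
    ring
  have hN0 : P ^ 2 - Y * Q ^ 2 ≠ 0 := by
    intro h0
    rw [h0, map_zero] at hN
    exact mul_ne_zero hg (pow_ne_zero 2 hR') hN.symm
  obtain ⟨m, hm⟩ := evSound_even hY _ P Q hN0 rfl
  obtain ⟨N₁, hN₁, hdvd⟩ := exists_eq_pow_rootMultiplicity_mul_and_not_dvd _ hN0 a
  refine ⟨N₁, algebraMap k[X] (RatFunc k) (X - C a) ^ m / algebraMap k[X] (RatFunc k) R, ?_, ?_, ?_⟩
  · intro h0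
    exact hdvd (dvd_iff_isRoot.2 h0)
  · exact div_ne_zero (pow_ne_zero m (evSound_map_ne (X_sub_C_ne_zero a))) hR'
  · have h1 : algebraMap k[X] (RatFunc k) N₁ * (algebraMap k[X] (RatFunc k) (X - C a) ^ m /
        algebraMap k[X] (RatFunc k) R) ^ 2 =
        (algebraMap k[X] (RatFunc k) (X - C a) ^ (m + m) * algebraMap k[X] (RatFunc k) N₁) /
          algebraMap k[X] (RatFunc k) R ^ 2 := by
      rw [pow_add]; ring
    rw [h1, ← map_pow, ← map_mul, ← hm, ← hN₁, hN, mul_div_assoc, div_self (pow_ne_zero 2 hR'),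
      mul_one]

/-- Soundness of the last rule. y = Y s^2, Y(a) not 0. If l Y(a) were a nonsquare then (X - a) e would
have even order by `EvOrd.of_nrm`, contradiction; so l Y(a) is a nonzero square, hence Y(a) is a nonsquare;
g is a norm for Y (`Nrm.symm`), so it has even order. -/
theorem EvOrd.rule (h2 : (2 : k) ≠ 0) {l : k} {y e g : RatFunc k} (hl : ¬ IsSquare l)
    (hg : g ≠ 0) (hy : EvOrd a y) (he : EvOrd a e)
    (h1 : Nrm (RatFunc.C l * y) ((RatFunc.X - RatFunc.C a) * e)) (h : Nrm g y) :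
    EvOrd a g := by
  have h2K : (2 : RatFunc k) ≠ 0 := by
    intro h0
    apply h2
    have h3 : (RatFunc.C (2 : k) : RatFunc k) = 0 := by
      rw [← h0]
      exact map_ofNat RatFunc.C 2
    exact (map_eq_zero_iff _ RatFunc.C_injective).1 h3
  have hy0 := hy.ne_zero
  have he0 := he.ne_zero
  obtain ⟨Y, s, hYa, hs, hYs⟩ := hy
  have hX0 : (RatFunc.X - RatFunc.C a : RatFunc k) ≠ 0 := by
    have h3 := evSound_map_ne (X_sub_C_ne_zero a)
    rwa [map_sub, RatFunc.algebraMap_X, RatFunc.algebraMap_C] at h3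
  have hsq : IsSquare (l * Y.eval a) := by
    by_contra hn
    have hn' : ¬ IsSquare ((C l * Y).eval a) := by rwa [eval_mul, eval_C]
    have h3 : Nrm (algebraMap k[X] (RatFunc k) (C l * Y)) ((RatFunc.X - RatFunc.C a) * e) := by
      rw [← Nrm.sq_mul_left_iff hs, map_mul, RatFunc.algebraMap_C, mul_assoc, ← hYs]
      exact h1
    exact he.not_lin_mul (EvOrd.of_nrm hn' (mul_ne_zero hX0 he0) h3)
  have hYn : ¬ IsSquare (Y.eval a) := by
    rintro ⟨r, hr⟩
    obtain ⟨t, ht⟩ := hsq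
    apply hl
    have hr0 : r ≠ 0 := by
      rintro rfl
      rw [mul_zero] at hr
      exact hYa hr
    refine ⟨t / r, ?_⟩
    rw [hr] at ht
    field_simp
    linear_combination ht
  have h4 : Nrm y g := h.symm h2K hg hy0
  rw [hYs, Nrm.sq_mul_left_iff hs] at h4
  exact EvOrd.of_nrm hYn hg h4

end MP4369f4
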