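import Pool.Agent.Lib_MP_4369f4_m.Towers

/-! H22 P: finitely many constant translates of a nonconstant element lie in one square class. -/

namespace MP4369f4

open Polynomial

/-- A polynomial which is a square in the field of rational functions is a square. -/
private theorem PencilN_sq {E : Type*} [Field E] {P : E[X]}
    (h : IsSquare (algebraMap E[X] (RatFunc E) P)) : ∃ V : E[X], P = V ^ 2 := by
  obtain ⟨x, hx⟩ := h
  obtain ⟨y, hy⟩ := IsIntegrallyClosed.exists_algebraMap_eq_of_isIntegral_pow (R := E[X])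
    (K := RatFunc E) (x := x) (n := 2) two_pos (by
      rw [pow_two, ← hx]
      exact isIntegral_algebraMap)
  refine ⟨y, IsFractionRing.injective E[X] (RatFunc E) ?_⟩
  rw [map_pow, hy, hx, pow_two]

private theorem PencilN_prod {E : Type*} [Field E] {D P Q V W : E[X]} (hD : D ≠ 0)
    (h1 : D * P = V ^ 2) (h2 : D * Q = W ^ 2) : ∃ T : E[X], P * Q = T ^ 2 := by
  have h : D ^ 2 * (P * Q) = (V * W) ^ 2 := by
    rw [mul_pow, ← h1, ← h2]
    ring
  have hd : D ∣ V * W := (IsIntegrallyClosed.pow_dvd_pow_iff two_ne_zero).1 ⟨P * Q, h.symm⟩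
  obtain ⟨T, hT⟩ := hd
  refine ⟨T, ?_⟩
  rw [hT, mul_pow] at h
  exact mul_left_cancel₀ (pow_ne_zero 2 hD) h

/-- Five translates of an element outside E are not in one square class of E(X). -/
private theorem PencilN_core {E : Type} [Field E] [CharZero E] (c : ℂ →+* E) (a : RatFunc E)
    (ha : ∀ a0 : E, a ≠ RatFunc.C a0) (b : RatFunc E) (hb : b ≠ 0) (S : Finset ℂ)
    (hS : 5 ≤ S.card) (hsq : ∀ z ∈ S, IsSquare (b * (a - RatFunc.C (c z)))) : False := by
  classical
  have hB0 : a.denom ≠ 0 := RatFunc.denom_ne_zero a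
  have hnc : ¬ (a.num.natDegree = 0 ∧ a.denom.natDegree = 0) := by
    rintro ⟨hA, hB⟩
    have hB1 : a.denom = 1 := (Polynomial.Monic.natDegree_eq_zero (RatFunc.monic_denom a)).1 hB
    apply ha (a.num.coeff 0)
    conv_lhs => rw [← RatFunc.num_div_denom a]
    rw [hB1, map_one, div_one]
    conv_lhs => rw [Polynomial.eq_C_of_natDegree_eq_zero hA]
    exact RatFunc.algebraMap_C _
  have hbn : b.num ≠ 0 := RatFunc.num_ne_zero hb
  have hbd : b.denom ≠ 0 := RatFunc.denom_ne_zero b
  have hD0 : b.num * b.denom * a.denom ≠ 0 := mul_ne_zero (mul_ne_zero hbn hbd) hB0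
  have hpoly : ∀ z ∈ S, ∃ V : E[X],
      b.num * b.denom * a.denom * (a.num - C (c z) * a.denom) = V ^ 2 := by
    intro z hz
    apply PencilN_sq
    obtain ⟨x, hx⟩ := hsq z hz
    have hd1 : algebraMap E[X] (RatFunc E) a.denom ≠ 0 := RatFunc.algebraMap_ne_zero hB0
    have hd2 : algebraMap E[X] (RatFunc E) b.denom ≠ 0 := RatFunc.algebraMap_ne_zero hbd
    refine ⟨algebraMap E[X] (RatFunc E) b.denom * algebraMap E[X] (RatFunc E) a.denom * x, ?_⟩
    have e1 : algebraMap E[X] (RatFunc E) b.num = b * algebraMap E[X] (RatFunc E) b.denom :=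
      (div_eq_iff hd2).1 (RatFunc.num_div_denom b)
    have e2 : algebraMap E[X] (RatFunc E) a.num = a * algebraMap E[X] (RatFunc E) a.denom :=
      (div_eq_iff hd1).1 (RatFunc.num_div_denom a)
    rw [map_mul, map_mul, map_mul, map_sub, map_mul, RatFunc.algebraMap_C, e1, e2]
    linear_combination (algebraMap E[X] (RatFunc E) b.denom *
      algebraMap E[X] (RatFunc E) a.denom) ^ 2 * hx
  have hfac : ∀ z ∈ S, ∃ (d : E) (U : E[X]), a.num - C (c z) * a.denom = C d * U ^ 2 := by
    intro z hz
    obtain ⟨z', hz', hne⟩ := Finset.exists_mem_ne (s := S) (by omega) z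
    obtain ⟨V, hV⟩ := hpoly z hz
    obtain ⟨W, hW⟩ := hpoly z' hz'
    obtain ⟨T, hT⟩ := PencilN_prod hD0 hV hW
    have hcop : IsCoprime (a.num - C (c z) * a.denom) (a.num - C (c z') * a.denom) := by
      obtain ⟨u, v, huv⟩ := RatFunc.isCoprime_num_denom a
      have hd : (c z' - c z) ≠ 0 := sub_ne_zero.2 (fun h => hne (c.injective h))
      have hCd : C (c z' - c z)⁻¹ * (C (c z') - C (c z)) = (1 : E[X]) := by
        rw [← C_sub, ← C_mul, inv_mul_cancel₀ hd, C_1]
      refine ⟨C (c z' - c z)⁻¹ * (u * C (c z') + v),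
        C (c z' - c z)⁻¹ * (-(u * C (c z)) - v), ?_⟩
      calc C (c z' - c z)⁻¹ * (u * C (c z') + v) * (a.num - C (c z) * a.denom) +
            C (c z' - c z)⁻¹ * (-(u * C (c z)) - v) * (a.num - C (c z') * a.denom)
          = C (c z' - c z)⁻¹ * (C (c z') - C (c z)) * (u * a.num + v * a.denom) := by ring
        _ = 1 := by rw [hCd, huv, one_mul]
    obtain ⟨d, hd⟩ := exists_associated_pow_of_mul_eq_pow' hcop hT
    obtain ⟨u, hu⟩ := hd
    obtain ⟨e, he, heu⟩ := Polynomial.isUnit_iff.1 u.isUnit
    refine ⟨e, d, ?_⟩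
    rw [← hu, ← heu, mul_comm]
  obtain ⟨b', hb', hb''⟩ := pencil (RatFunc.isCoprime_num_denom a) hnc (S.image c) (by
    rw [Finset.card_image_of_injective _ c.injective]
    exact hS)
  obtain ⟨z, hz, rfl⟩ := Finset.mem_image.1 hb'
  exact hb'' (hfac z hz)

/-- Property of the finite sets, also at level 0 (where it is empty). Induction on the level,
F = RatFunc E. Let a be nonconstant and b not 0; suppose that b (a - z) is a square for 5 values z (or
that the set is infinite). If a = C a0 with a0 in E: fix one such z0; for every other z the product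
(a0 - z0)(a0 - z) is a square in E(X) (divide by b^2 ...), so in E (`isSquare_of_isSquare_C`);
induction hypothesis for E, a0, b := a0 - z0. Otherwise a = A/B coprime, not both constant; for two
values z, z' the product (A - z B)(A - z' B) is a square in E(X) and in E[X]
(up to a constant), the factors are coprime, so A - z B = c U^2 for all five z, contradiction to
`pencil` (PEN). See the proof of `Tower.exists_not_nrm` for the argument with coprime factors. -/
theorem Lv.finite_isSquare {m : ℕ} {F : Type} [Field F] {c : ℂ →+* F} {t : ℕ → F}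
    (h : Lv m F c t) (a : F) (ha : ∀ z : ℂ, a ≠ c z) (b : F) (hb : b ≠ 0) :
    {z : ℂ | IsSquare (b * (a - c z))}.Finite := by
  induction h with
  | zero t => exact absurd rfl (ha a)
  | succ m F c t t' hL ht hX ih =>
    have := hL.charZero
    by_contra hinf
    have hinf' : {z : ℂ | IsSquare (b * (a - ((RatFunc.C : F →+* RatFunc F).comp c) z))}.Infinite :=
      hinf
    by_cases haC : ∃ a0 : F, a = RatFunc.C a0
    · obtain ⟨a0, rfl⟩ := haC
      obtain ⟨z0, hz0⟩ := hinf'.nonempty
      have ha0 : ∀ z : ℂ, a0 ≠ c z := by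
        intro z hz
        exact ha z (by rw [hz]; rfl)
      have hfin := ih a0 ha0 (a0 - c z0) (sub_ne_zero.2 (ha0 z0))
      apply hinf
      refine hfin.subset fun z hz => ?_
      show IsSquare ((a0 - c z0) * (a0 - c z))
      apply isSquare_of_isSquare_C
      obtain ⟨x, hx⟩ := hz0
      obtain ⟨y, hy⟩ := hz
      refine ⟨x * y / b, ?_⟩
      have e1 : ((RatFunc.C : F →+* RatFunc F).comp c) z0 = RatFunc.C (c z0) := rfl
      have e2 : ((RatFunc.C : F →+* RatFunc F).comp c) z = RatFunc.C (c z) := rfl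
      rw [e1] at hx
      rw [e2] at hy
      rw [map_mul, map_sub, map_sub]
      field_simp
      linear_combination (b * (RatFunc.C a0 - RatFunc.C (c z))) * hx + x * x * hy
    · push Not at haC
      obtain ⟨S, hS1, hS2⟩ := hinf'.exists_subset_card_eq 5
      exact PencilN_core c a haC b hb S (by omega) (fun z hz => hS1 hz)

theorem Lv.pn {m : ℕ} {F : Type} [Field F] {c : ℂ →+* F} {t : ℕ → F}
    (h : Lv (m + 1) F c t) : PN F c := by
  refine ⟨?_, fun a ha b hb => h.finite_isSquare a ha b hb⟩
  cases h with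
  | succ m F c t t' hL ht hX =>
    refine ⟨RatFunc.X, fun z hz => ?_⟩
    have h1 : algebraMap F[X] (RatFunc F) X = algebraMap F[X] (RatFunc F) (C (c z)) := by
      rw [RatFunc.algebraMap_X, RatFunc.algebraMap_C]
      exact hz
    have h2 := IsFractionRing.injective F[X] (RatFunc F) h1
    exact X_ne_C _ h2

end MP4369f4
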