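import Pool.Agent.Lib_MP_4369f4_m.GenPoly
import Pool.Agent.Lib_MP_4369f4_m.EvSound
import Pool.Agent.Lib_MP_4369f4_m.PencilN

/-! H22 G2: derivations as finite sequences. -/

namespace MP4369f4

open Polynomial

/-- The rules in RatFunc k (c gives the constants, place X = c z). -/
def RuleF {k : Type} [Field k] (c : ℂ →+* k) (z : ℂ) (P : RatFunc k → Prop) (e : RatFunc k) :
    Prop :=
  (∃ κ : k, κ ≠ 0 ∧ IsSquare (RatFunc.C κ * e)) ∨
  (∃ y y', P y ∧ P y' ∧ IsSquare (y * y' * e)) ∨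
  (∃ b : ℂ, b ≠ z ∧ IsSquare ((RatFunc.X - RatFunc.C (c b)) * e)) ∨
  (∃ (l : k) (y e' : RatFunc k), ¬ IsSquare l ∧ P y ∧ P e' ∧
    Nrm (RatFunc.C l * y) ((RatFunc.X - RatFunc.C (c z)) * e') ∧ Nrm e y)

private theorem deriv_sq {F : Type} [Field F] {a e e' : F} (he : e ≠ 0) (h : IsSquare (a * e))
    (hs : IsSquare (e' * e)) : IsSquare (a * e') := by
  obtain ⟨r, hr⟩ := h
  obtain ⟨s, hs⟩ := hs
  refine ⟨r * s / e, ?_⟩
  field_simp
  calc a * e' * e ^ 2 = (a * e) * (e' * e) := by ring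
    _ = (r * r) * (s * s) := by rw [hr, hs]
    _ = r ^ 2 * s ^ 2 := by ring

private theorem deriv_nrm {F : Type} [Field F] {e e' y : F} (he' : e' ≠ 0)
    (hs : IsSquare (e' * e)) (h : Nrm e y) : Nrm e' y := by
  obtain ⟨p, q, hpq⟩ := h
  obtain ⟨s, hs⟩ := hs
  refine ⟨p, s / e' * q, ?_⟩
  rw [← hpq]
  have h1 : e = s * s / e' := by
    rw [← hs]; field_simp
  rw [h1]
  field_simp

/-- Monotone, and invariant under change of e by a square. -/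
theorem RuleF.mono {k : Type} [Field k] {c : ℂ →+* k} {z : ℂ} {P P' : RatFunc k → Prop}
    (hP : ∀ y, P y → P' y) {e e' : RatFunc k} (he : e ≠ 0) (he' : e' ≠ 0)
    (hs : IsSquare (e' * e)) (h : RuleF c z P e) : RuleF c z P' e' := by
  rcases h with ⟨κ, hκ, h⟩ | ⟨y, y', hy, hy', h⟩ | ⟨b, hb, h⟩ | ⟨l, y, f, hl, hy, hf, h1, h2⟩
  · exact Or.inl ⟨κ, hκ, deriv_sq he h hs⟩
  · exact Or.inr (Or.inl ⟨y, y', hP y hy, hP y' hy', deriv_sq he h hs⟩)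
  · exact Or.inr (Or.inr (Or.inl ⟨b, hb, deriv_sq he h hs⟩))
  · exact Or.inr (Or.inr (Or.inr ⟨l, y, f, hl, hP y hy, hP f hf, h1, deriv_nrm he' hs h2⟩))

/-- Soundness: `EvOrd.const`, `EvOrd.mul`, `EvOrd.lin`, `EvOrd.of_isSquare`, `EvOrd.rule`. -/
theorem RuleF.sound {k : Type} [Field k] [CharZero k] {c : ℂ →+* k} {z : ℂ}
    {P : RatFunc k → Prop} (hP : ∀ y, P y → EvOrd (c z) y) {e : RatFunc k} (he : e ≠ 0)
    (h : RuleF c z P e) : EvOrd (c z) e := by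
  rcases h with ⟨κ, hκ, h⟩ | ⟨y, y', hy, hy', h⟩ | ⟨b, hb, h⟩ | ⟨l, y, f, hl, hy, hf, h1, h2⟩
  · exact EvOrd.of_isSquare he (EvOrd.const hκ) h
  · exact EvOrd.of_isSquare he ((hP y hy).mul (hP y' hy')) h
  · exact EvOrd.of_isSquare he (EvOrd.lin fun h' => hb (c.injective h')) h
  · exact EvOrd.rule two_ne_zero hl he (hP y hy) (hP f hf) h1 h2

/-- concatenation of two sequences -/
private theorem deriv_concat {k : Type} [Field k] {c : ℂ →+* k} {z : ℂ} {N₁ N₂ : ℕ}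
    {e₁ e₂ : ℕ → RatFunc k} (h₁ : ∀ j, e₁ j ≠ 0) (h₂ : ∀ j, e₂ j ≠ 0)
    (H₁ : ∀ j ≤ N₁, RuleF c z (fun y => ∃ i < j, y = e₁ i) (e₁ j))
    (H₂ : ∀ j ≤ N₂, RuleF c z (fun y => ∃ i < j, y = e₂ i) (e₂ j)) :
    ∃ e : ℕ → RatFunc k, (∀ j, e j ≠ 0) ∧ e N₁ = e₁ N₁ ∧ e (N₁ + 1 + N₂) = e₂ N₂ ∧
      ∀ j ≤ N₁ + 1 + N₂, RuleF c z (fun y => ∃ i < j, y = e i) (e j) := by
  have e1 : ∀ j, j ≤ N₁ → (fun j => if j ≤ N₁ then e₁ j else e₂ (j - (N₁ + 1))) j = e₁ j :=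
    fun j hj => if_pos hj
  have e2 : ∀ j, (fun j => if j ≤ N₁ then e₁ j else e₂ (j - (N₁ + 1))) (N₁ + 1 + j) = e₂ j := by
    intro j
    have h : ¬ N₁ + 1 + j ≤ N₁ := by omega
    have h' : N₁ + 1 + j - (N₁ + 1) = j := by omega
    show (if N₁ + 1 + j ≤ N₁ then _ else _) = _
    rw [if_neg h, h']
  refine ⟨fun j => if j ≤ N₁ then e₁ j else e₂ (j - (N₁ + 1)), ?_, e1 _ le_rfl, e2 _, ?_⟩
  · intro j
    show (if j ≤ N₁ then _ else _) ≠ _
    split_ifs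
    · exact h₁ _
    · exact h₂ _
  · intro j hj
    rcases le_or_gt j N₁ with h | h
    · rw [e1 j h]
      refine RuleF.mono ?_ (h₁ j) (h₁ j) ⟨_, rfl⟩ (H₁ j h)
      rintro y ⟨i, hi, rfl⟩
      exact ⟨i, hi, (e1 i (by omega)).symm⟩
    · obtain ⟨i, rfl⟩ : ∃ i, j = N₁ + 1 + i := ⟨j - (N₁ + 1), by omega⟩
      rw [e2 i]
      refine RuleF.mono ?_ (h₂ i) (h₂ i) ⟨_, rfl⟩ (H₂ i (by omega))
      rintro y ⟨m, hm, rfl⟩
      exact ⟨N₁ + 1 + m, by omega, (e2 m).symm⟩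

/-- extension of a sequence by one element -/
private theorem deriv_extend {k : Type} [Field k] {c : ℂ →+* k} {z : ℂ} {N : ℕ}
    {e : ℕ → RatFunc k} (h : ∀ j, e j ≠ 0)
    (H : ∀ j ≤ N, RuleF c z (fun y => ∃ i < j, y = e i) (e j)) {g : RatFunc k} (hg : g ≠ 0)
    (hr : RuleF c z (fun y => ∃ i ≤ N, y = e i) g) :
    ∃ (N : ℕ) (e : ℕ → RatFunc k), (∀ j, e j ≠ 0) ∧ e N = g ∧
      ∀ j ≤ N, RuleF c z (fun y => ∃ i < j, y = e i) (e j) := by
  have e1 : ∀ j, j ≤ N → (fun j => if j ≤ N then e j else g) j = e j := fun j hj => if_pos hj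
  have e2 : (fun j => if j ≤ N then e j else g) (N + 1) = g := if_neg (by omega)
  refine ⟨N + 1, fun j => if j ≤ N then e j else g, ?_, e2, ?_⟩
  · intro j
    show (if j ≤ N then _ else _) ≠ _
    split_ifs
    · exact h _
    · exact hg
  · intro j hj
    rcases le_or_gt j N with h' | h'
    · rw [e1 j h']
      refine RuleF.mono ?_ (h j) (h j) ⟨_, rfl⟩ (H j h')
      rintro y ⟨i, hi, rfl⟩
      exact ⟨i, hi, (e1 i (by omega)).symm⟩
    · obtain rfl : j = N + 1 := by omega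
      rw [e2]
      refine RuleF.mono ?_ hg hg ⟨_, rfl⟩ hr
      rintro y ⟨i, hi, rfl⟩
      exact ⟨i, by omega, (e1 i hi).symm⟩

/-- Every element of `Gen` is the last element of a finite sequence in which every element is obtained
by a rule from earlier ones (induction on `Gen`; for two premises concatenate the sequences; the
elements after N are 1). -/
theorem Gen.exists_seq {k : Type} [Field k] [CharZero k] {c : ℂ →+* k} {z : ℂ} {g : RatFunc k}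
    (h : Gen c (RatFunc.C : k →+* RatFunc k) (RatFunc.X - RatFunc.C (c z)) g) :
    ∃ (N : ℕ) (e : ℕ → RatFunc k), (∀ j, e j ≠ 0) ∧ e N = g ∧
      ∀ j ≤ N, RuleF c z (fun y => ∃ i < j, y = e i) (e j) := by
  have hXC : ∀ b : k, (RatFunc.X : RatFunc k) - RatFunc.C b ≠ 0 := by
    intro b h'
    have h1 : algebraMap k[X] (RatFunc k) (X - C b) = 0 := by
      rw [map_sub, RatFunc.algebraMap_X, RatFunc.algebraMap_C]
      exact h'
    have h2 : (X - C b : k[X]) = 0 := by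
      apply RatFunc.algebraMap_injective k
      rw [h1, map_zero]
    exact X_sub_C_ne_zero b h2
  have hg0 : ∀ g, Gen c (RatFunc.C : k →+* RatFunc k) (RatFunc.X - RatFunc.C (c z)) g → g ≠ 0 := by
    intro g hg
    refine Gen.ne_zero ?_ hg
    intro z' h'
    apply hXC (c z + c z')
    rw [map_add, ← h']
    ring
  induction h with
  | const a ha =>
    refine ⟨0, fun _ => RatFunc.C a, fun _ => ?_, rfl, fun j _ => Or.inl ⟨a, ha, ⟨_, rfl⟩⟩⟩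
    exact (_root_.map_ne_zero _).2 ha
  | lin z' hz =>
    have h1 : (RatFunc.X : RatFunc k) - RatFunc.C (c z) - RatFunc.C (c z') =
        RatFunc.X - RatFunc.C (c (z + z')) := by
      rw [map_add, map_add]; ring
    refine ⟨0, fun _ => RatFunc.X - RatFunc.C (c (z + z')), fun _ => hXC _, h1.symm,
      fun j _ => Or.inr (Or.inr (Or.inl ⟨z + z', ?_, ⟨_, rfl⟩⟩))⟩
    intro h'
    exact hz (by simpa using h')
  | mul f g hf hg ihf ihg =>
    obtain ⟨N₁, e₁, h₁, he₁, H₁⟩ := ihf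
    obtain ⟨N₂, e₂, h₂, he₂, H₂⟩ := ihg
    obtain ⟨e, he, hN1, hN2, H⟩ := deriv_concat h₁ h₂ H₁ H₂
    refine deriv_extend he H (mul_ne_zero (hg0 f hf) (hg0 g hg)) (Or.inr (Or.inl
      ⟨f, g, ⟨N₁, by omega, ?_⟩, ⟨N₁ + 1 + N₂, le_rfl, ?_⟩, ⟨_, rfl⟩⟩))
    · rw [hN1, he₁]
    · rw [hN2, he₂]
  | sq s hs =>
    refine ⟨0, fun _ => s ^ 2, fun _ => pow_ne_zero _ hs, rfl,
      fun j _ => Or.inl ⟨1, one_ne_zero, ⟨s, ?_⟩⟩⟩
    rw [map_one, one_mul, pow_two]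
  | rule l y f g hl hg hy hf h1 h2 ihy ihf =>
    obtain ⟨N₁, e₁, h₁, he₁, H₁⟩ := ihy
    obtain ⟨N₂, e₂, h₂, he₂, H₂⟩ := ihf
    obtain ⟨e, he, hN1, hN2, H⟩ := deriv_concat h₁ h₂ H₁ H₂
    refine deriv_extend he H hg (Or.inr (Or.inr (Or.inr
      ⟨l, y, f, hl, ⟨N₁, by omega, ?_⟩, ⟨N₁ + 1 + N₂, le_rfl, ?_⟩, h1, h2⟩)))
    · rw [hN1, he₁]
    · rw [hN2, he₂]

end MP4369f4
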