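import Pool.Agent.Lib_MP_4369f4_m.InKSem
import Pool.Agent.Lib_MP_4369f4_m.Deriv

/-! H22 H1: the ambient field. Here F0 has level m + 1, F = RatFunc F0 (level m + 2), K a tower over F,
the ambient field is RatFunc K. -/

namespace MP4369f4

open Polynomial

/-- The data of the ambient field: tK are the images of t_0, ..., t_m and of X. -/
structure Amb (m : ℕ) (F0 K : Type) [Field F0] [Field K] (c0 : ℂ →+* F0) (t0 : ℕ → F0)
    (φ : RatFunc F0 →+* K) (tK : ℕ → RatFunc K) : Prop where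
  lv : Lv (m + 1) F0 c0 t0
  tw : Tw (RatFunc F0) K φ
  ht : ∀ i < m + 1, tK i = RatFunc.C (φ (RatFunc.C (t0 i)))
  htm : tK (m + 1) = RatFunc.C (φ RatFunc.X)

variable {m : ℕ} {F0 K : Type} [Field F0] [Field K] {c0 : ℂ →+* F0} {t0 : ℕ → F0}
  {φ : RatFunc F0 →+* K} {tK : ℕ → RatFunc K}

private theorem AmbBasic_tw0 (A : Amb m F0 K c0 t0 φ tK) :
    Tw F0 K (φ.comp ((RatFunc.C : F0 →+* RatFunc F0).comp (RingHom.id F0))) :=
  (Tw.step F0 (RingHom.id F0) Tw.base).trans A.tw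

private theorem AmbBasic_tw1 (A : Amb m F0 K c0 t0 φ tK) :
    Tw F0 (RatFunc K) ((RatFunc.C : K →+* RatFunc K).comp
      (φ.comp ((RatFunc.C : F0 →+* RatFunc F0).comp (RingHom.id F0)))) :=
  Tw.step K _ (AmbBasic_tw0 A)

private theorem AmbBasic_tw2 (A : Amb m F0 K c0 t0 φ tK) :
    Tw (RatFunc F0) (RatFunc K) ((RatFunc.C : K →+* RatFunc K).comp φ) :=
  Tw.step K φ A.tw

/-- `Lv.cst_iff` for F0 and the tower RatFunc K over F0 (`Tw.trans`, `Tw.step`). -/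
theorem Amb.cst_iff (A : Amb m F0 K c0 t0 φ tK) (x : RatFunc K) :
    Cst x ↔ ∃ z : ℂ, x = RatFunc.C (φ (RatFunc.C (c0 z))) :=
  A.lv.cst_iff (AmbBasic_tw1 A) x

theorem Amb.natP_iff (A : Amb m F0 K c0 t0 φ tK) (x : RatFunc K) :
    NatP (tK 0) x ↔ ∃ j : ℕ, x = (j : RatFunc K) := by
  rw [A.ht 0 (Nat.succ_pos m)]
  exact A.lv.natP_iff (AmbBasic_tw0 A) x

theorem Amb.inK_iff (A : Amb m F0 K c0 t0 φ tK) (x : RatFunc K) :
    InK (m + 1) tK x ↔ ∃ y : F0, x = RatFunc.C (φ (RatFunc.C y)) :=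
  A.lv.inK_iff (AmbBasic_tw1 A) (fun i hi => A.ht i hi) x

theorem Amb.inK_iff' (A : Amb m F0 K c0 t0 φ tK) (x : RatFunc K) :
    InK (m + 2) tK x ↔ ∃ y : RatFunc F0, x = RatFunc.C (φ y) := by
  have h : Lv (m + 1 + 1) (RatFunc F0) ((RatFunc.C : F0 →+* RatFunc F0).comp c0)
      (fun i => if i < m + 1 then RatFunc.C (t0 i) else RatFunc.X) := by
    refine Lv.succ (m + 1) F0 c0 t0 _ A.lv ?_ ?_
    · intro i hi
      exact if_pos hi
    · exact if_neg (lt_irrefl _)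
  refine h.inK_iff (AmbBasic_tw2 A) ?_ x
  intro i hi
  rcases Nat.lt_succ_iff_lt_or_eq.1 hi with h1 | h1
  · rw [A.ht i h1, if_pos h1]
    rfl
  · rw [h1, A.htm, if_neg (lt_irrefl _)]
    rfl

/-- `Rule` over RatFunc K is `RuleF` over RatFunc F0: squares and norms descend
(`Tw.isSquare_of`, `Tw.nrm_of`, and `Nrm.map`). -/
theorem Amb.rule_iff (A : Amb m F0 K c0 t0 φ tK) (z : ℂ) (P : RatFunc K → Prop)
    (hP : ∀ x, P x → ∃ y : RatFunc F0, y ≠ 0 ∧ x = RatFunc.C (φ y)) (e : RatFunc F0)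
    (he : e ≠ 0) :
    Rule (m + 1) tK (RatFunc.C (φ (RatFunc.C (c0 z)))) P (RatFunc.C (φ e)) ↔
      RuleF c0 z (fun y => P (RatFunc.C (φ y))) e := by
  have hF : CharZero F0 := A.lv.charZero
  have hF' : CharZero (RatFunc F0) :=
    charZero_of_injective_ringHom ((RatFunc.C : F0 →+* RatFunc F0).injective)
  have h2 : (2 : RatFunc F0) ≠ 0 := two_ne_zero
  set Φ : RatFunc F0 →+* RatFunc K := (RatFunc.C : K →+* RatFunc K).comp φ with hΦ
  have hΦe : ∀ x, (RatFunc.C (φ x) : RatFunc K) = Φ x := fun _ => rfl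
  have hsq : ∀ x, IsSquare (Φ x) ↔ IsSquare x :=
    fun x => ⟨(AmbBasic_tw2 A).isSquare_of, fun h => h.map Φ⟩
  have hnrm : ∀ f g, f ≠ 0 → g ≠ 0 → (Nrm (Φ f) (Φ g) ↔ Nrm f g) :=
    fun f g hf hg => ⟨(AmbBasic_tw2 A).nrm_of h2 hf hg, fun h => h.map Φ⟩
  have hXC : ∀ b : F0, (RatFunc.X : RatFunc F0) - RatFunc.C b ≠ 0 := by
    intro b h'
    have h1 : algebraMap F0[X] (RatFunc F0) (X - C b) = 0 := by
      rw [map_sub, RatFunc.algebraMap_X, RatFunc.algebraMap_C]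
      exact h'
    have h3 : (X - C b : F0[X]) = 0 := by
      apply RatFunc.algebraMap_injective F0
      rw [h1, map_zero]
    exact X_sub_C_ne_zero b h3
  have hsqC : ∀ l : F0, IsSquare (Φ (RatFunc.C l)) ↔ IsSquare l := by
    intro l
    constructor
    · intro h
      exact (AmbBasic_tw1 A).isSquare_of h
    · intro h
      exact (h.map (RatFunc.C : F0 →+* RatFunc F0)).map Φ
  have htm : tK (m + 1) = Φ RatFunc.X := A.htm
  unfold Rule RuleF
  simp only [hΦe]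
  simp only [htm]
  constructor
  · rintro (⟨κ, hκ, hκ0, h⟩ | ⟨y, y', hy, hy', h⟩ | ⟨b, hb, hbc, h⟩ |
      ⟨l, y, e', hl, hls, hy, he', h, h'⟩)
    · obtain ⟨k, rfl⟩ := (A.inK_iff κ).1 hκ
      rw [hΦe] at h hκ0
      refine Or.inl ⟨k, ?_, ?_⟩
      · rintro rfl
        exact hκ0 (by rw [map_zero, map_zero])
      · rw [← map_mul, hsq] at h
        exact h
    · obtain ⟨y1, hy1, rfl⟩ := hP y hy
      obtain ⟨y2, hy2, rfl⟩ := hP y' hy'
      rw [hΦe, hΦe, ← map_mul, ← map_mul, hsq] at h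
      exact Or.inr (Or.inl ⟨y1, y2, hy, hy', h⟩)
    · obtain ⟨w, rfl⟩ := (A.cst_iff b).1 hb
      rw [hΦe] at h hbc
      refine Or.inr (Or.inr (Or.inl ⟨w, ?_, ?_⟩))
      · rintro rfl
        exact hbc rfl
      · rw [← map_sub, ← map_mul, hsq] at h
        exact h
    · obtain ⟨k, rfl⟩ := (A.inK_iff l).1 hl
      obtain ⟨y1, hy1, rfl⟩ := hP y hy
      obtain ⟨e1, he1, rfl⟩ := hP e' he'
      rw [hΦe, hsqC] at hls
      have hk0 : k ≠ 0 := by
        rintro rfl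
        exact hls ⟨0, by simp⟩
      have hk0' : (RatFunc.C k : RatFunc F0) ≠ 0 := (_root_.map_ne_zero _).2 hk0
      rw [hΦe, hΦe, hΦe, ← map_mul, ← map_sub, ← map_mul,
        hnrm _ _ (mul_ne_zero hk0' hy1) (mul_ne_zero (hXC _) he1)] at h
      rw [hΦe, hnrm _ _ he hy1] at h'
      exact Or.inr (Or.inr (Or.inr ⟨k, y1, e1, hls, hy, he', h, h'⟩))
  · rintro (⟨κ, hκ0, h⟩ | ⟨y, y', hy, hy', h⟩ | ⟨b, hbc, h⟩ |
      ⟨l, y, e', hls, hy, he', h, h'⟩)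
    · refine Or.inl ⟨Φ (RatFunc.C κ), (A.inK_iff _).2 ⟨κ, rfl⟩, ?_, ?_⟩
      · exact (_root_.map_ne_zero Φ).2 ((_root_.map_ne_zero _).2 hκ0)
      · rw [← map_mul, hsq]
        exact h
    · refine Or.inr (Or.inl ⟨Φ y, Φ y', hy, hy', ?_⟩)
      rw [← map_mul, ← map_mul, hsq]
      exact h
    · refine Or.inr (Or.inr (Or.inl ⟨Φ (RatFunc.C (c0 b)), (A.cst_iff _).2 ⟨b, rfl⟩, ?_, ?_⟩))
      · intro h3
        exact hbc (c0.injective ((RatFunc.C : F0 →+* RatFunc F0).injective (Φ.injective h3)))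
      · rw [← map_sub, ← map_mul, hsq]
        exact h
    · refine Or.inr (Or.inr (Or.inr ⟨Φ (RatFunc.C l), Φ y, Φ e', (A.inK_iff _).2 ⟨l, rfl⟩, ?_,
        hy, he', ?_, h'.map Φ⟩))
      · rw [hsqC]
        exact hls
      · rw [← map_mul, ← map_sub, ← map_mul]
        exact h.map Φ

end MP4369f4
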