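import Pool.Agent.Lib_MP_4369f4_m.Lead

/-! H22 C3: unramified places of a finite extension of K0(X). -/

namespace MP4369f4

open Polynomial

/-- The expansion at α. -/
private noncomputable def Place1_phi {K0 : Type} [Field K0] (L' : Type) [Field L'] [Algebra K0 L']
    (α : K0) : K0[X] →+* PowerSeries L' :=
  (Polynomial.coeToPowerSeries.ringHom.comp (mapRingHom (algebraMap K0 L'))).comp
    (taylorAlgHom α).toRingHom

private theorem Place1_phi_apply {K0 : Type} [Field K0] (L' : Type) [Field L'] [Algebra K0 L']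
    (α : K0) (p : K0[X]) :
    Place1_phi L' α p = (((taylor α p).map (algebraMap K0 L') : L'[X]) : PowerSeries L') := rfl

private theorem Place1_phi_C {K0 : Type} [Field K0] (L' : Type) [Field L'] [Algebra K0 L']
    (α a : K0) : Place1_phi L' α (C a) = PowerSeries.C (algebraMap K0 L' a) := by
  rw [Place1_phi_apply, taylor_C, Polynomial.map_C, Polynomial.coe_C]

private theorem Place1_phi_X {K0 : Type} [Field K0] (L' : Type) [Field L'] [Algebra K0 L']
    (α : K0) : Place1_phi L' α (X - C α) = PowerSeries.X := by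
  rw [Place1_phi_apply]
  simp

private theorem Place1_phi_inj {K0 : Type} [Field K0] (L' : Type) [Field L'] [Algebra K0 L']
    (α : K0) : Function.Injective (Place1_phi L' α) := by
  intro p q h
  rw [Place1_phi_apply, Place1_phi_apply] at h
  have h1 := Polynomial.coe_injective L' h
  have h2 := Polynomial.map_injective _ (algebraMap K0 L').injective h1
  exact taylor_injective α h2

private theorem Place1_phi_cc {K0 : Type} [Field K0] (L' : Type) [Field L'] [Algebra K0 L']
    (α : K0) (p : K0[X]) :
    PowerSeries.constantCoeff (Place1_phi L' α p) = algebraMap K0 L' (p.eval α) := by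
  rw [Place1_phi_apply, Polynomial.constantCoeff_coe, Polynomial.coeff_map, taylor_coeff_zero]

/-- Hensel. -/
private theorem Place1_hensel {L' : Type} [Field L'] (f : Polynomial (PowerSeries L'))
    (hf : f.Monic) (y0 : L')
    (h0 : (f.map (PowerSeries.constantCoeff (R := L'))).eval y0 = 0)
    (h1 : (f.map (PowerSeries.constantCoeff (R := L'))).derivative.eval y0 ≠ 0) :
    ∃ y : PowerSeries L', f.eval y = 0 := by
  have hcc : ∀ g : Polynomial (PowerSeries L'),
      PowerSeries.constantCoeff (g.eval (PowerSeries.C y0)) =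
        (g.map (PowerSeries.constantCoeff (R := L'))).eval y0 := by
    intro g
    rw [Polynomial.eval_map, Polynomial.eval, Polynomial.hom_eval₂]
    simp
  obtain ⟨y, hy, -⟩ := HenselianRing.is_henselian (I := Ideal.span {(PowerSeries.X : PowerSeries L')})
    f hf (PowerSeries.C y0) (by
      rw [Ideal.mem_span_singleton, PowerSeries.X_dvd_iff, hcc, h0])
    (by
      refine IsUnit.map _ ?_
      rw [PowerSeries.isUnit_iff_constantCoeff, hcc, ← Polynomial.derivative_map]
      exact isUnit_iff_ne_zero.2 h1)
  exact ⟨y, hy⟩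

/-- An integral primitive element. -/
private theorem Place1_prim {K0 L : Type} [Field K0] [CharZero K0] [Field L]
    [Algebra (RatFunc K0) L] [FiniteDimensional (RatFunc K0) L] :
    ∃ (pb : PowerBasis (RatFunc K0) L) (f0 : K0[X][X]), f0.Monic ∧
      minpoly (RatFunc K0) pb.gen = f0.map (algebraMap K0[X] (RatFunc K0)) := by
  let : Algebra K0[X] L :=
    ((algebraMap (RatFunc K0) L).comp (algebraMap K0[X] (RatFunc K0))).toAlgebra
  have : IsScalarTower K0[X] (RatFunc K0) L := IsScalarTower.of_algebraMap_eq (fun _ => rfl)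
  have : CharZero (RatFunc K0) :=
    charZero_of_injective_algebraMap (algebraMap K0 (RatFunc K0)).injective
  let pb := Field.powerBasisOfFiniteOfSeparable (RatFunc K0) L
  have halg : IsAlgebraic K0[X] pb.gen :=
    (IsFractionRing.isAlgebraic_iff K0[X] (RatFunc K0) L).2
      (Algebra.IsAlgebraic.isAlgebraic pb.gen)
  obtain ⟨D, hD, hx⟩ := halg.exists_integral_multiple
  set x : L := D • pb.gen with hxdef
  have hDF : algebraMap K0[X] (RatFunc K0) D ≠ 0 := RatFunc.algebraMap_ne_zero hD
  have hxF : x = (algebraMap K0[X] (RatFunc K0) D) • pb.gen := by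
    rw [hxdef, algebraMap_smul]
  have hmem : pb.gen ∈ Algebra.adjoin (RatFunc K0) {x} := by
    have h1 : pb.gen = (algebraMap K0[X] (RatFunc K0) D)⁻¹ • x := by
      rw [hxF, smul_smul, inv_mul_cancel₀ hDF, one_smul]
    rw [h1]
    exact Subalgebra.smul_mem _ (Algebra.self_mem_adjoin_singleton _ x) _
  have htop := PowerBasis.adjoin_eq_top_of_gen_mem_adjoin hmem
  have hxi : IsIntegral (RatFunc K0) x := hx.tower_top
  refine ⟨PowerBasis.ofAdjoinEqTop' hxi htop, minpoly K0[X] x, minpoly.monic hx, ?_⟩
  rw [PowerBasis.ofAdjoinEqTop'_gen]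
  exact minpoly.isIntegrallyClosed_eq_field_fractions' (RatFunc K0) hx

/-- Bezout with cleared denominators. -/
private theorem Place1_bez {K0 : Type} [Field K0] (f0 : K0[X][X])
    (hs : (f0.map (algebraMap K0[X] (RatFunc K0))).Separable) :
    ∃ (b : K0[X]) (U V : K0[X][X]), b ≠ 0 ∧ U * f0 + V * derivative f0 = C b := by
  obtain ⟨u, v, huv⟩ := hs
  obtain ⟨b1, hb1, h1⟩ := IsLocalization.integerNormalization_spec (nonZeroDivisors K0[X]) u
  obtain ⟨b2, hb2, h2⟩ := IsLocalization.integerNormalization_spec (nonZeroDivisors K0[X]) v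
  set U0 := IsLocalization.integerNormalization (nonZeroDivisors K0[X]) u
  set V0 := IsLocalization.integerNormalization (nonZeroDivisors K0[X]) v
  refine ⟨b2 * b1, C b2 * U0, C b1 * V0, mul_ne_zero (nonZeroDivisors.ne_zero hb2)
    (nonZeroDivisors.ne_zero hb1), ?_⟩
  apply Polynomial.map_injective (algebraMap K0[X] (RatFunc K0)) (IsFractionRing.injective _ _)
  have e1 : U0.map (algebraMap K0[X] (RatFunc K0)) =
      C (algebraMap K0[X] (RatFunc K0) b1) * u := by
    rw [h1, ← Polynomial.smul_eq_C_mul, algebraMap_smul]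
  have e2 : V0.map (algebraMap K0[X] (RatFunc K0)) =
      C (algebraMap K0[X] (RatFunc K0) b2) * v := by
    rw [h2, ← Polynomial.smul_eq_C_mul, algebraMap_smul]
  rw [Polynomial.derivative_map] at huv
  simp only [Polynomial.map_add, Polynomial.map_mul, Polynomial.map_C, e1, e2, map_mul]
  linear_combination (C (algebraMap K0[X] (RatFunc K0) b2) *
    C (algebraMap K0[X] (RatFunc K0) b1)) * huv

/-- The embedding at a good α. -/
private theorem Place1_emb {K0 L : Type} [Field K0] [Field L]
    [Algebra (RatFunc K0) L] (pb : PowerBasis (RatFunc K0) L) (f0 : K0[X][X])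
    (hmin : minpoly (RatFunc K0) pb.gen = f0.map (algebraMap K0[X] (RatFunc K0)))
    (L' : Type) [Field L'] [Algebra K0 L'] (α : K0) (y : PowerSeries L')
    (hy : (f0.map (Place1_phi L' α)).eval y = 0) :
    ∃ j : L →+* LaurentSeries L',
        (∀ a : K0, j (algebraMap (RatFunc K0) L (RatFunc.C a)) =
          HahnSeries.C (algebraMap K0 L' a)) ∧
        j (algebraMap (RatFunc K0) L (RatFunc.X - RatFunc.C α)) = tau L' := by
  set ψ : K0[X] →+* LaurentSeries L' := (HahnSeries.ofPowerSeries ℤ L').comp (Place1_phi L' α)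
    with hψ
  have hψi : Function.Injective ψ :=
    HahnSeries.ofPowerSeries_injective.comp (Place1_phi_inj L' α)
  let σ : RatFunc K0 →+* LaurentSeries L' := IsFractionRing.lift hψi
  have hσ : ∀ p : K0[X], σ (algebraMap K0[X] (RatFunc K0) p) = ψ p :=
    fun p => IsFractionRing.lift_algebraMap hψi p
  let algσ : Algebra (RatFunc K0) (LaurentSeries L') := σ.toAlgebra
  have hroot : aeval (HahnSeries.ofPowerSeries ℤ L' y) (minpoly (RatFunc K0) pb.gen) = 0 := by
    have e1 : aeval (HahnSeries.ofPowerSeries ℤ L' y) (minpoly (RatFunc K0) pb.gen) =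
        (minpoly (RatFunc K0) pb.gen).eval₂ σ (HahnSeries.ofPowerSeries ℤ L' y) := rfl
    have e2 : σ.comp (algebraMap K0[X] (RatFunc K0)) = ψ := RingHom.ext hσ
    rw [e1, hmin, Polynomial.eval₂_map, e2, hψ, ← Polynomial.hom_eval₂, ← Polynomial.eval_map, hy,
      map_zero]
  let j := pb.lift (HahnSeries.ofPowerSeries ℤ L' y) hroot
  have hj : ∀ r : RatFunc K0, j (algebraMap (RatFunc K0) L r) = σ r := fun r => j.commutes r
  refine ⟨j.toRingHom, fun a => ?_, ?_⟩
  · show j (algebraMap (RatFunc K0) L (RatFunc.C a)) = _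
    rw [hj, ← RatFunc.algebraMap_C, hσ, hψ, RingHom.comp_apply, Place1_phi_C,
      HahnSeries.ofPowerSeries_C]
  · show j (algebraMap (RatFunc K0) L (RatFunc.X - RatFunc.C α)) = _
    rw [hj, ← RatFunc.algebraMap_C, ← RatFunc.algebraMap_X, ← map_sub, hσ, hψ, RingHom.comp_apply,
      Place1_phi_X]
    rfl

/-- For all but finitely many α in K0 the field L embeds into L'((tau)), L' finite over K0, with
X mapped to α + tau. Proof: L = K0(X)(θ) (primitive element); multiplying θ by a polynomial we may
assume that θ is integral over K0[X], so its minimal polynomial f over K0(X) is the image of a monic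
f0 in K0[X][Y] (K0[X] is integrally closed; `minpoly.isIntegrallyClosed_eq_field_fractions`). f is
separable (char 0): u f + v f' = 1 over K0(X); clear denominators: U f0 + V f0' = δ in K0[X], δ not 0.
If δ(α) is not 0 then f0(α, Y) in K0[Y] (degree at least 1) has only simple roots in every extension; let
L' = AdjoinRoot of an irreducible factor, y0 a root. Over L'[[tau]] the polynomial f0(α + tau, Y) is
monic with the simple root y0 modulo tau: Hensel (`IsAdicComplete.henselianRing`,
L'[[tau]] is (X)-adically complete by an instance in Mathlib) gives a root y in L'[[tau]]. K0(X) embeds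
into L'((tau)) by X -> α + tau (`exists_place` or directly) and L = K0(X)[Y]/(f) by θ -> y. -/
theorem exists_place_ext {K0 L : Type} [Field K0] [CharZero K0] [Field L]
    [Algebra (RatFunc K0) L] [FiniteDimensional (RatFunc K0) L] :
    ∃ S : Set K0, S.Finite ∧ ∀ α : K0, α ∉ S →
      ∃ (L' : Type) (_ : Field L') (_ : Algebra K0 L') (_ : FiniteDimensional K0 L')
        (j : L →+* LaurentSeries L'),
        (∀ a : K0, j (algebraMap (RatFunc K0) L (RatFunc.C a)) =
          HahnSeries.C (algebraMap K0 L' a)) ∧
        j (algebraMap (RatFunc K0) L (RatFunc.X - RatFunc.C α)) = tau L' := by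
  obtain ⟨pb, f0, hf0, hmin⟩ := Place1_prim (K0 := K0) (L := L)
  have hCZ : CharZero (RatFunc K0) :=
    charZero_of_injective_algebraMap (algebraMap K0 (RatFunc K0)).injective
  have hint : IsIntegral (RatFunc K0) pb.gen := Algebra.IsIntegral.isIntegral pb.gen
  have hsep : (f0.map (algebraMap K0[X] (RatFunc K0))).Separable := by
    rw [← hmin]
    exact (minpoly.irreducible hint).separable
  obtain ⟨b, U, V, hb, hUV⟩ := Place1_bez f0 hsep
  have hdeg : 0 < f0.natDegree := by
    have h1 := minpoly.natDegree_pos hint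
    rw [hmin, hf0.natDegree_map] at h1
    exact h1
  refine ⟨{α | b.IsRoot α}, Polynomial.finite_setOfPred_isRoot hb, fun α hα => ?_⟩
  have hbα : b.eval α ≠ 0 := hα
  set fa : K0[X] := f0.map (evalRingHom α) with hfa
  have hfam : fa.Monic := hf0.map _
  have hfad : 0 < fa.natDegree := by rw [hfa, hf0.natDegree_map]; exact hdeg
  obtain ⟨g, hg, hgd⟩ := Polynomial.exists_irreducible_of_natDegree_pos hfad
  have : Fact (Irreducible g) := ⟨hg⟩
  have : FiniteDimensional K0 (AdjoinRoot g) := (AdjoinRoot.powerBasis hg.ne_zero).finite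
  have hcomp : (PowerSeries.constantCoeff (R := AdjoinRoot g)).comp
      (Place1_phi (AdjoinRoot g) α) =
      (algebraMap K0 (AdjoinRoot g)).comp (evalRingHom α) := by
    refine RingHom.ext fun p => ?_
    rw [RingHom.comp_apply, Place1_phi_cc]
    rfl
  have hmap : (f0.map (Place1_phi (AdjoinRoot g) α)).map
      (PowerSeries.constantCoeff (R := AdjoinRoot g)) = fa.map (algebraMap K0 (AdjoinRoot g)) := by
    rw [Polynomial.map_map, hcomp, hfa, Polynomial.map_map]
  have hroot0 : (fa.map (algebraMap K0 (AdjoinRoot g))).eval (AdjoinRoot.root g) = 0 := by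
    obtain ⟨q, hq⟩ := hgd
    rw [hq, Polynomial.map_mul, Polynomial.eval_mul]
    have : (g.map (algebraMap K0 (AdjoinRoot g))).eval (AdjoinRoot.root g) = 0 :=
      AdjoinRoot.isRoot_root g
    rw [this, zero_mul]
  have hderiv : (fa.map (algebraMap K0 (AdjoinRoot g))).derivative.eval (AdjoinRoot.root g) ≠ 0 := by
    intro h0
    have h1 : (U.map (evalRingHom α)) * fa + (V.map (evalRingHom α)) * derivative fa =
        C (b.eval α) := by
      have := congrArg (Polynomial.map (evalRingHom α)) hUV
      rw [Polynomial.map_add, Polynomial.map_mul, Polynomial.map_mul, Polynomial.map_C,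
        ← Polynomial.derivative_map] at this
      exact this
    have h2 := congrArg (fun p : K0[X] => (p.map (algebraMap K0 (AdjoinRoot g))).eval
      (AdjoinRoot.root g)) h1
    simp only [Polynomial.map_add, Polynomial.map_mul, Polynomial.eval_add, Polynomial.eval_mul,
      Polynomial.map_C, Polynomial.eval_C, hroot0, ← Polynomial.derivative_map, h0, mul_zero,
      add_zero] at h2
    exact hbα ((map_eq_zero (algebraMap K0 (AdjoinRoot g))).1 h2.symm)
  obtain ⟨y, hy⟩ := Place1_hensel (f0.map (Place1_phi (AdjoinRoot g) α)) (hf0.map _)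
    (AdjoinRoot.root g) (by rw [hmap]; exact hroot0) (by rw [hmap]; exact hderiv)
  obtain ⟨j, hj1, hj2⟩ := Place1_emb pb f0 hmin (AdjoinRoot g) α y hy
  exact ⟨AdjoinRoot g, inferInstance, inferInstance, inferInstance, j, hj1, hj2⟩

end MP4369f4
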