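import Pool.Agent.Lib_MP_4369f4_m.Swap
import Pool.Agent.Lib_MP_4369f4_m.Place1

/-! H22 C4: generic Pfister forms are anisotropic over finite extensions of towers. -/

namespace MP4369f4

open Polynomial

/-- The step: a place of the finite extension L and a generic point of level m. -/
private theorem AnisoEx_step {m : ℕ} {F K0 L : Type} [Field F] [Field K0] [Field L]
    {c : ℂ →+* F} {t : ℕ → F} {φ0 : F →+* K0} (ψ : RatFunc K0 →+* L) (hψ : ψ.Finite)
    (ih : ∀ (L' : Type) [Field L'] [Algebra K0 L'] [FiniteDimensional K0 L'],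
      ∃ a : ℕ → ℂ, Aniso m (fun j => algebraMap K0 L' (φ0 (t j - c (a j))))) :
    ∃ (a : ℕ → ℂ) (z : ℂ), ∀ d : ℕ → L,
      (∀ i < m, d i = ψ (RatFunc.C (φ0 (t i - c (a i))))) →
      d m = ψ (RatFunc.X - RatFunc.C (φ0 (c z))) → Aniso (m + 1) d := by
  letI : Algebra (RatFunc K0) L := ψ.toAlgebra
  haveI : FiniteDimensional (RatFunc K0) L := hψ
  haveI : CharZero K0 := charZero_of_injective_ringHom (φ0.comp c).injective
  obtain ⟨S, hS, hα⟩ := exists_place_ext (K0 := K0) (L := L)
  have hfin : ((fun z : ℂ => φ0 (c z)) ⁻¹' S).Finite :=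
    hS.preimage (fun x _ y _ hxy => (φ0.comp c).injective hxy)
  obtain ⟨z, hz⟩ := hfin.infinite_compl.nonempty
  obtain ⟨L', _, _, _, j, hj1, hj2⟩ := hα (φ0 (c z)) hz
  obtain ⟨a, ha⟩ := ih L'
  refine ⟨a, z, fun d hd hdm => Aniso.of_map j (aniso_laurent_succ ha _ ?_ ?_)⟩
  · intro i hi
    rw [hd i hi]
    exact hj1 _
  · rw [hdm]
    exact hj2

/-- Induction on the level. Level 0: nothing to do. Level m + 1: F = RatFunc F0; `Tw.reorder` gives
K0, φ0, e : K ≃ RatFunc K0; L is a finite extension of RatFunc K0 through e. `exists_place_ext` for L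
and α = φ0 (c z), z in ℂ outside a finite set, gives L' and j. The induction hypothesis for the finite
extension L' of the tower K0 over F0 gives a 0, ..., a (m - 1); a m = z (`Function.update`).
`aniso_laurent_succ` and `Aniso.of_map` for j (the elements of index < m become constants, the last
one becomes tau). -/
theorem Lv.exists_aniso {m : ℕ} {F : Type} [Field F] {c : ℂ →+* F} {t : ℕ → F}
    (h : Lv m F c t) {K : Type} [Field K] {φ : F →+* K} (hT : Tw F K φ) (L : Type) [Field L]
    [Algebra K L] [FiniteDimensional K L] :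
    ∃ a : ℕ → ℂ, Aniso m (fun j => algebraMap K L (φ (t j - c (a j)))) := by
  revert K φ L
  induction h with
  | zero t =>
    intro K _ φ _ L _ _ _
    exact ⟨fun _ => 0, trivial⟩
  | succ m F c t t' hLv ht htm ih =>
    intro K _ φ hT L _ _ _
    obtain ⟨K0, _, φ0, hT0, e, he1, he2⟩ := hT.reorder
    have he1' : ∀ y : F, φ (RatFunc.C y) = e.symm (RatFunc.C (φ0 y)) := fun y => by
      rw [← he1, RingEquiv.symm_apply_apply]
    have he2' : φ RatFunc.X = e.symm RatFunc.X := by
      rw [← he2, RingEquiv.symm_apply_apply]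
    obtain ⟨a, z, haz⟩ := AnisoEx_step (m := m) (c := c) (t := t) (φ0 := φ0)
      ((algebraMap K L).comp (e.symm : RatFunc K0 →+* K))
      (RingHom.Finite.comp (RingHom.finite_algebraMap.2 inferInstance)
        (RingHom.Finite.of_surjective _ e.symm.surjective))
      (fun L' _ _ _ => ih hT0 L')
    refine ⟨Function.update a m z, haz _ ?_ ?_⟩
    · intro i hi
      rw [Function.update_of_ne (by omega), ht i hi]
      simp only [RingHom.coe_comp, Function.comp_apply, ← map_sub, he1', RingHom.coe_coe]
    · rw [Function.update_self, htm]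
      simp only [RingHom.coe_comp, Function.comp_apply, map_sub, he1', he2', RingHom.coe_coe]

end MP4369f4
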