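import Pool.Agent.Lib_MP_4369f4_m.Towers

/-! H22 F: codes of finite subgroups of F*/F*^2 in K(X), K a tower over F. -/

namespace MP4369f4

open Polynomial

private theorem Code_nrm_of_prod {F K : Type} [Field F] [Field K] [CharZero F] {φ : F →+* K}
    {ι : Type} (B : Finset ι) (d : ι → F) (hd : ∀ b ∈ B, d b ≠ 0)
    {h : F} (hh : h ≠ 0) {g : RatFunc K} (hg : g ≠ 0)
    (hsq : IsSquare (h * ∏ b ∈ B, d b)) (hb : ∀ b ∈ B, Nrm (RatFunc.C (φ (d b))) g) :
    Nrm (RatFunc.C (φ h)) g := by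
  classical
  have : CharZero K := charZero_of_injective_ringHom φ.injective
  have : CharZero (RatFunc K) :=
    charZero_of_injective_ringHom (RatFunc.C : K →+* RatFunc K).injective
  have h2 : (2 : RatFunc K) ≠ 0 := two_ne_zero
  have hP0 : ∏ b ∈ B, d b ≠ 0 := Finset.prod_ne_zero_iff.2 hd
  have hN : Nrm (RatFunc.C (φ (∏ b ∈ B, d b))) g := by
    clear hsq hP0
    induction B using Finset.induction_on with
    | empty =>
      rw [Finset.prod_empty, map_one, map_one]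
      exact Nrm.of_isSquare_left h2 one_ne_zero ⟨1, by rw [mul_one]⟩
    | insert c B hc ih =>
      have hdc : d c ≠ 0 := hd c (Finset.mem_insert_self c B)
      have hdB : ∀ b ∈ B, d b ≠ 0 := fun b hb' => hd b (Finset.mem_insert_of_mem hb')
      rw [Finset.prod_insert hc, map_mul, map_mul]
      refine Nrm.mul_left h2 ?_ ?_ hg (hb c (Finset.mem_insert_self c B))
        (ih hdB fun b hb' => hb b (Finset.mem_insert_of_mem hb'))
      · exact (_root_.map_ne_zero RatFunc.C).2 ((_root_.map_ne_zero φ).2 hdc)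
      · exact (_root_.map_ne_zero RatFunc.C).2
          ((_root_.map_ne_zero φ).2 (Finset.prod_ne_zero_iff.2 hdB))
  obtain ⟨s, hs⟩ := hsq
  have hs0 : s ≠ 0 := by
    rintro rfl
    rw [mul_zero] at hs
    exact mul_ne_zero hh hP0 hs
  have h3 : h = (∏ b ∈ B, d b) * (s / ∏ b ∈ B, d b) ^ 2 := by
    field_simp
    rw [hs]
    ring
  rw [h3, map_mul, map_mul, map_pow, map_pow, Nrm.sq_mul_left_iff]
  · exact hN
  · exact (_root_.map_ne_zero RatFunc.C).2 ((_root_.map_ne_zero φ).2 (div_ne_zero hs0 hP0))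

/-- Same proof as `nrm_of_prod` and `Tower.exists_code` of COD. -/
theorem Tw.exists_code {F K : Type} [Field F] [Field K] [CharZero F] {φ : F →+* K}
    (hT : Tw F K φ) {ι : Type} [DecidableEq ι] (B : Finset ι) (d : ι → F)
    (hd : ∀ b ∈ B, d b ≠ 0) :
    ∃ g : RatFunc K, g ≠ 0 ∧ ∀ h : F, h ≠ 0 →
      (Nrm (RatFunc.C (φ h)) g ↔ ∃ B' ⊆ B, IsSquare (h * ∏ b ∈ B', d b)) := by
  have : CharZero K := charZero_of_injective_ringHom φ.injective
  have h2 : (2 : K) ≠ 0 := two_ne_zero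
  obtain ⟨L, _, _, s, θ, P, hs, htop, hP, hθ, hS⟩ :=
    exists_primitive (E := K) (fun b : ι => φ (d b)) B
  have hP0 : algebraMap K[X] (RatFunc K) P ≠ 0 := RatFunc.algebraMap_ne_zero hP.ne_zero
  refine ⟨algebraMap K[X] (RatFunc K) P, hP0, fun h hh => ⟨fun hN => ?_, ?_⟩⟩
  · have h1 := isSquare_of_nrm ((_root_.map_ne_zero φ).2 hh) hP.ne_zero (θ := θ)
      (by rw [hθ]; exact odd_one) hN
    obtain ⟨u, hu⟩ := h1
    obtain ⟨B', hB', hsq⟩ := kummer h2 s (fun b : ι => φ (d b)) B hs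
      (fun b hb => (_root_.map_ne_zero φ).2 (hd b hb)) (φ h)
      ⟨u, by rw [htop]; trivial, by rw [hu, pow_two]⟩
    refine ⟨B', hB', hT.isSquare_of ?_⟩
    rw [map_mul, map_prod]
    exact hsq
  · rintro ⟨B', hB', hsq⟩
    refine Code_nrm_of_prod B' d (fun b hb => hd b (hB' hb)) hh hP0 hsq fun b hb => ?_
    obtain ⟨S, hS'⟩ := hS b (hB' hb)
    exact nrm_of_dvd h2 ((_root_.map_ne_zero φ).2 (hd b (hB' hb))) P S hP hS'

end MP4369f4
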