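import Pool.Agent.Lib_MP_4369f4.MAIN

/-!
MP_4369f4_lc, squad H22: for all n > m >= 1 the ring C[t_1,...,t_m] is first-order definable in
C(t_1,...,t_n), with one formula for each m. Definitions.

Tuples are indexed by natural numbers: `t : Nat -> K`, only the entries `t 0, ..., t (m - 1)` count
at level `m`.
-/

namespace MP4369f4

open Polynomial

/-! ### Towers -/

/-- `Tw F K φ`: the pair (K, φ : F -> K) is obtained from (F, id) by adjoining finitely many
indeterminates one after the other. -/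
inductive Tw (F : Type) [Field F] : (K : Type) → [Field K] → (F →+* K) → Prop
  | base : Tw F F (RingHom.id F)
  | step (K : Type) [Field K] (φ : F →+* K) :
      Tw F K φ → Tw F (RatFunc K) ((RatFunc.C : K →+* RatFunc K).comp φ)

/-- `Lv m F c t`: F = C(t_0,...,t_(m-1)) with constants given by c. -/
inductive Lv : ℕ → (F : Type) → [Field F] → (ℂ →+* F) → (ℕ → F) → Prop
  | zero (t : ℕ → ℂ) : Lv 0 ℂ (RingHom.id ℂ) t
  | succ (m : ℕ) (F : Type) [Field F] (c : ℂ →+* F) (t : ℕ → F) (t' : ℕ → RatFunc F) :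
      Lv m F c t → (∀ i < m, t' i = RatFunc.C (t i)) → t' m = RatFunc.X →
      Lv (m + 1) (RatFunc F) ((RatFunc.C : F →+* RatFunc F).comp c) t'

/-! ### Pfister forms -/

section

variable {K : Type*} [Field K]

/-- `Rep m d x`: the Pfister form of d_0, ..., d_(m-1) takes the value x. -/
def Rep : ℕ → (ℕ → K) → K → Prop
  | 0, _, x => ∃ u, x = u ^ 2
  | (m + 1), d, x => ∃ v w, Rep m d v ∧ Rep m d w ∧ x = v - d m * w

/-- The Pfister form of d_0, ..., d_(m-1) is anisotropic. -/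
def Aniso : ℕ → (ℕ → K) → Prop
  | 0, _ => True
  | (m + 1), d => Aniso m d ∧ ∀ v w, Rep m d v → Rep m d w → v = d m * w → w = 0

/-- Property C_i for systems of quadratic forms: a system of r quadratic forms in more than
mu * r variables has a nontrivial common zero. -/
def TL (k : Type) [Field k] (mu : ℕ) : Prop :=
  ∀ (ι κ : Type) [Fintype ι] [Fintype κ] (A : κ → ι → ι → k),
    mu * Fintype.card κ < Fintype.card ι →
      ∃ v : ι → k, v ≠ 0 ∧ ∀ i : κ, ∑ a, ∑ b, A i a b * v a * v b = 0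

/-! ### The predicates over a field with distinguished elements t_0, t_1, ... -/

/-- x lies in K_m = C(t_0,...,t_(m-1)). -/
def InK (m : ℕ) (t : ℕ → K) (x : K) : Prop :=
  ∀ a : ℕ → K, (∀ j, Cst (a j)) → ∀ b : K, Cst b → Rep m (fun j => t j - a j) (x - b)

/-- The class number j of the sequence of square classes of K_m coded by (a, g1, g2). -/
def Sq (m : ℕ) (t : ℕ → K) (a g1 g2 j e : K) : Prop :=
  InK m t e ∧ e ≠ 0 ∧ Nrm e g2 ∧ Nrm ((t 0 - a - j) * e) g1

/-- e (in K_(m+1)) is obtained by one rule from elements of P; place t_m = c of K_(m+1) over K_m. -/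
def Rule (m : ℕ) (t : ℕ → K) (c : K) (P : K → Prop) (e : K) : Prop :=
  (∃ κ, InK m t κ ∧ κ ≠ 0 ∧ IsSquare (κ * e)) ∨
  (∃ y y', P y ∧ P y' ∧ IsSquare (y * y' * e)) ∨
  (∃ b, Cst b ∧ b ≠ c ∧ IsSquare ((t m - b) * e)) ∨
  (∃ l y e', InK m t l ∧ ¬ IsSquare l ∧ P y ∧ P e' ∧ Nrm (l * y) ((t m - c) * e') ∧ Nrm e y)

/-- g (in K_(m+1)) has even order at t_m = c. -/
def EvD (m : ℕ) (t : ℕ → K) (c g : K) : Prop :=
  ∃ a g1 g2 N, Cst a ∧ NatP (t 0) N ∧ g1 ≠ 0 ∧ g2 ≠ 0 ∧ Sq (m + 1) t a g1 g2 N g ∧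
    ∀ i, NatP (t 0) i → (∃ k, NatP (t 0) k ∧ N = i + k) →
      ∀ e, Sq (m + 1) t a g1 g2 i e →
        Rule m t c (fun y => ∃ j k, NatP (t 0) j ∧ NatP (t 0) k ∧ i = j + k + 1 ∧
          Sq (m + 1) t a g1 g2 j y) e

/-- u (in K_(m+1)) is regular at t_m = c. -/
def InO (m : ℕ) (t : ℕ → K) (c u : K) : Prop :=
  InK (m + 1) t u ∧ EvD m t c (1 + (t m - c) * u ^ 2)

/-- f lies in C[t_0,...,t_m]. -/
def PolD : ℕ → (ℕ → K) → K → Prop
  | 0, t, f => PolyP (t 0) f
  | (m + 1), t, f => InK (m + 2) t f ∧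
      ∀ c, Cst c → ∃ r u, PolD m t r ∧ InO (m + 1) t c u ∧ f = r + (t (m + 1) - c) * u

/-! ### The inductive description of even order -/

/-- The closure, for a field F over k and x in F, of the rules; `c` gives the constants. In the
application F = k(x) and `Gen c ι x` is the set of elements of even order at x = 0. -/
inductive Gen {k F : Type*} [Field k] [Field F] (c : ℂ →+* k) (ι : k →+* F) (x : F) : F → Prop
  | const (a : k) (ha : a ≠ 0) : Gen c ι x (ι a)
  | lin (z : ℂ) (hz : z ≠ 0) : Gen c ι x (x - ι (c z))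
  | mul (f g : F) : Gen c ι x f → Gen c ι x g → Gen c ι x (f * g)
  | sq (s : F) (hs : s ≠ 0) : Gen c ι x (s ^ 2)
  | rule (l : k) (y e g : F) (hl : ¬ IsSquare l) (hg : g ≠ 0) : Gen c ι x y → Gen c ι x e →
      Nrm (ι l * y) (x * e) → Nrm g y → Gen c ι x g

/-- Nonconstant elements a of k: b * (a - z) is a square for finitely many constants z only. -/
def PN (k : Type) [Field k] (c : ℂ →+* k) : Prop :=
  (∃ a : k, ∀ z : ℂ, a ≠ c z) ∧
    ∀ a : k, (∀ z : ℂ, a ≠ c z) → ∀ b : k, b ≠ 0 → {z : ℂ | IsSquare (b * (a - c z))}.Finite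

end

/-- g in k(X) has even order at X = a. -/
def EvOrd {k : Type} [Field k] (a : k) (g : RatFunc k) : Prop :=
  ∃ (G : k[X]) (s : RatFunc k), G.eval a ≠ 0 ∧ s ≠ 0 ∧ g = algebraMap k[X] (RatFunc k) G * s ^ 2

/-- Evaluation of polynomials in m variables. -/
noncomputable def pev {F : Type*} [Field F] (m : ℕ) (c : ℂ →+* F) (t : ℕ → F)
    (p : MvPolynomial (Fin m) ℂ) : F := MvPolynomial.eval₂ c (fun i : Fin m => t i) p

end MP4369f4
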