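import Pool.Agent.Lib_MP_4369f4_m.EvSound

/-! H22 E2: regular elements. -/

namespace MP4369f4

open Polynomial

variable {k : Type} [Field k] {a : k}

private theorem evReg_map_ne {P : k[X]} (hP : P ≠ 0) : algebraMap k[X] (RatFunc k) P ≠ 0 :=
  fun h0 => hP ((map_eq_zero_iff _ (IsFractionRing.injective k[X] (RatFunc k))).1 h0)

private theorem evReg_num (x : RatFunc k) : x = algebraMap k[X] (RatFunc k) x.num /
    algebraMap k[X] (RatFunc k) x.denom :=
  (RatFunc.num_div_denom x).symm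

private theorem evReg_X_sub : (RatFunc.X - RatFunc.C a : RatFunc k) =
    algebraMap k[X] (RatFunc k) (X - C a) := by
  rw [map_sub, RatFunc.algebraMap_X, RatFunc.algebraMap_C]

private theorem evReg_form (w : RatFunc k) : 1 + (RatFunc.X - RatFunc.C a) * w ^ 2 =
    algebraMap k[X] (RatFunc k) (w.denom ^ 2 + (X - C a) * w.num ^ 2) *
      ((algebraMap k[X] (RatFunc k) w.denom)⁻¹) ^ 2 := by
  have hd := evReg_map_ne w.denom_ne_zero
  rw [map_add, map_mul, map_pow, map_pow, ← evReg_X_sub]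
  conv_lhs => rw [evReg_num w]
  field_simp

private theorem evReg_cop (w : RatFunc k) (h0 : w.denom.eval a = 0) : w.num.eval a ≠ 0 := by
  intro hp
  obtain ⟨u, v, huv⟩ := RatFunc.isCoprime_num_denom w
  have h2 := congrArg (Polynomial.eval a) huv
  rw [Polynomial.eval_add, Polynomial.eval_mul, Polynomial.eval_mul, hp, h0,
    Polynomial.eval_one] at h2
  simp at h2

private theorem evReg_pole (w : RatFunc k) (h0 : w.denom.eval a = 0) :
    ∃ M : k[X], M.eval a ≠ 0 ∧ w.denom ^ 2 + (X - C a) * w.num ^ 2 = (X - C a) * M := by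
  obtain ⟨q, hq⟩ := Polynomial.dvd_iff_isRoot.2 h0
  refine ⟨(X - C a) * q ^ 2 + w.num ^ 2, ?_, ?_⟩
  · simp only [eval_add, eval_mul, eval_sub, eval_X, eval_C, sub_self, zero_mul, eval_pow, zero_add]
    exact pow_ne_zero 2 (evReg_cop w h0)
  · rw [hq]
    ring

private theorem evReg_reg (w : RatFunc k) (h0 : w.denom.eval a ≠ 0) :
    (w.denom ^ 2 + (X - C a) * w.num ^ 2).eval a ≠ 0 := by
  simp only [eval_add, eval_mul, eval_sub, eval_X, eval_C, sub_self, zero_mul, eval_pow, add_zero]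
  exact pow_ne_zero 2 h0

private theorem evReg_num_ne (w : RatFunc k) : w.denom ^ 2 + (X - C a) * w.num ^ 2 ≠ 0 := by
  by_cases h0 : w.denom.eval a = 0
  · obtain ⟨M, hM, h1⟩ := evReg_pole w h0
    rw [h1]
    refine mul_ne_zero (X_sub_C_ne_zero a) ?_
    rintro rfl
    exact hM eval_zero
  · intro h
    have h1 := evReg_reg w h0
    rw [h] at h1
    exact h1 eval_zero

theorem one_add_lin_mul_sq_ne_zero (w : RatFunc k) :
    1 + (RatFunc.X - RatFunc.C a) * w ^ 2 ≠ 0 := by
  rw [evReg_form]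
  exact mul_ne_zero (evReg_map_ne (evReg_num_ne w))
    (pow_ne_zero 2 (inv_ne_zero (evReg_map_ne w.denom_ne_zero)))

/-- As `evenAt_iff_regular` of BAS. -/
theorem evOrd_one_add_iff (w : RatFunc k) :
    EvOrd a (1 + (RatFunc.X - RatFunc.C a) * w ^ 2) ↔
      ∃ P Q : k[X], Q.eval a ≠ 0 ∧
        w = algebraMap k[X] (RatFunc k) P / algebraMap k[X] (RatFunc k) Q := by
  have hd := evReg_map_ne w.denom_ne_zero
  constructor
  · intro h
    refine ⟨w.num, w.denom, ?_, evReg_num w⟩
    intro h0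
    obtain ⟨M, hM, h1⟩ := evReg_pole w h0
    have hM' : EvOrd a (algebraMap k[X] (RatFunc k) M *
        ((algebraMap k[X] (RatFunc k) w.denom)⁻¹) ^ 2) :=
      ⟨M, (algebraMap k[X] (RatFunc k) w.denom)⁻¹, hM, inv_ne_zero hd, rfl⟩
    apply hM'.not_lin_mul
    rw [evReg_form, h1, map_mul, ← evReg_X_sub] at h
    rw [← mul_assoc]
    exact h
  · rintro ⟨P, Q, hQ, hw⟩
    have hQ0 : Q ≠ 0 := by
      rintro rfl
      exact hQ eval_zero
    have hden : w.denom.eval a ≠ 0 := by
      intro h0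
      have h1 : w.denom ∣ Q := by
        rw [hw]
        exact RatFunc.denom_div_dvd P Q
      obtain ⟨q, hq⟩ := h1
      apply hQ
      rw [hq, eval_mul, h0, zero_mul]
    exact ⟨w.denom ^ 2 + (X - C a) * w.num ^ 2, (algebraMap k[X] (RatFunc k) w.denom)⁻¹,
      evReg_reg w hden, inv_ne_zero hd, evReg_form w⟩

end MP4369f4
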