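import Pool.Agent.Lib_MP_4369f4_m.Code

/-! H22 G1: codes of finite sequences of square classes of F. -/

namespace MP4369f4

open Polynomial

private theorem Seq_sq_iff {F : Type} [Field F] {x s : F} (hs : s ≠ 0) :
    IsSquare (x * s ^ 2) ↔ IsSquare x := by
  constructor
  · rintro ⟨r, hr⟩
    refine ⟨r / s, ?_⟩
    field_simp
    rw [hr]
    ring
  · rintro ⟨r, rfl⟩
    exact ⟨r * s, by ring⟩

private theorem Seq_prod_symmDiff {F : Type} [Field F] {ι : Type} [DecidableEq ι] (f : ι → F)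
    (A B : Finset ι) :
    (∏ i ∈ A, f i) * ∏ i ∈ B, f i = (∏ i ∈ symmDiff A B, f i) * (∏ i ∈ A ∩ B, f i) ^ 2 := by
  have h1 : ∏ i ∈ A, f i = (∏ i ∈ A \ B, f i) * ∏ i ∈ A ∩ B, f i := by
    rw [← Finset.prod_union (Finset.disjoint_sdiff_inter A B), Finset.sdiff_union_inter]
  have h2 : ∏ i ∈ B, f i = (∏ i ∈ B \ A, f i) * ∏ i ∈ A ∩ B, f i := by
    rw [Finset.inter_comm A B, ← Finset.prod_union (Finset.disjoint_sdiff_inter B A),
      Finset.sdiff_union_inter]
  have h3 : ∏ i ∈ symmDiff A B, f i = (∏ i ∈ A \ B, f i) * ∏ i ∈ B \ A, f i := by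
    rw [symmDiff_def, Finset.sup_eq_union, Finset.prod_union]
    exact disjoint_sdiff_sdiff
  rw [h1, h2, h3]
  ring

private theorem Seq_bad_finite {m : ℕ} {F : Type} [Field F] {c : ℂ →+* F} {t : ℕ → F}
    (h : Lv (m + 1) F c t) (N : ℕ) (J : Finset ℕ) (hJ : J ⊆ Finset.range (N + 1))
    (hJn : J.Nonempty) (y : F) (hy : y ≠ 0) :
    {a : ℂ | IsSquare ((∏ j ∈ J, (t 0 - c a - (j : F))) * y)}.Finite := by
  classical
  by_cases hne : {a : ℂ | IsSquare ((∏ j ∈ J, (t 0 - c a - (j : F))) * y)}.Nonempty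
  · obtain ⟨a0, ha0⟩ := hne
    refine Set.Finite.subset (Finset.finite_toSet
      ((Finset.range (N + 1) ×ˢ Finset.range (N + 1)).image
        (fun p : ℕ × ℕ => a0 + (p.1 : ℂ) - (p.2 : ℂ)))) ?_
    intro a ha
    by_contra hcon
    rw [Finset.mem_coe, Finset.mem_image] at hcon
    push Not at hcon
    have hinj : ∀ z : ℂ, Function.Injective (fun j : ℕ => z + (j : ℂ)) := by
      intro z i j hij
      have : (i : ℂ) = j := add_left_cancel hij
      exact_mod_cast this
    have hprod : ∀ z : ℂ, ∏ j ∈ J, (t 0 - c z - (j : F)) =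
        ∏ b ∈ J.image (fun j : ℕ => z + (j : ℂ)), (t 0 - c b) := by
      intro z
      rw [Finset.prod_image (fun i _ j _ hij => hinj z hij)]
      refine Finset.prod_congr rfl fun j _ => ?_
      rw [map_add, map_natCast]
      ring
    have hdisj : Disjoint (J.image (fun j : ℕ => a0 + (j : ℂ)))
        (J.image (fun j : ℕ => a + (j : ℂ))) := by
      rw [Finset.disjoint_left]
      intro b hb hb'
      obtain ⟨i, hi, rfl⟩ := Finset.mem_image.1 hb
      obtain ⟨j, hj, hij⟩ := Finset.mem_image.1 hb'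
      refine hcon (i, j) (Finset.mem_product.2 ⟨hJ hi, hJ hj⟩) ?_
      show a0 + (i : ℂ) - (j : ℂ) = a
      rw [← hij]
      ring
    have hsq : IsSquare ((∏ b ∈ J.image (fun j : ℕ => a0 + (j : ℂ)) ∪
        J.image (fun j : ℕ => a + (j : ℂ)), (t 0 - c b)) * y ^ 2) := by
      rw [Finset.prod_union hdisj, ← hprod, ← hprod]
      obtain ⟨r1, hr1⟩ := ha0
      obtain ⟨r2, hr2⟩ := ha
      exact ⟨r1 * r2, by linear_combination (∏ j ∈ J, (t 0 - c a - (j : F))) * y * hr1 +
        r1 * r1 * hr2⟩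
    rw [Seq_sq_iff hy] at hsq
    exact h.prod_not_isSquare
      (Finset.Nonempty.mono Finset.subset_union_left (hJn.image _)) hsq
  · rw [Set.not_nonempty_iff_eq_empty] at hne
    rw [hne]
    exact Set.finite_empty

/-- Choice of a: for all nonempty J and all J' the element ∏_J (t_0 - a - j) ∏_J' e_j is not a square.
For fixed J, J' ⊆ range (N + 1) two bad values a, a' satisfy a' - a in {-N, ..., N} (otherwise the
product of the two elements ∏_J (t_0 - a - j) ∏_J (t_0 - a' - j) is a product of distinct factors and a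
square, `Lv.prod_not_isSquare`), so there are finitely many bad values. -/
theorem exists_good {m : ℕ} {F : Type} [Field F] {c : ℂ →+* F} {t : ℕ → F}
    (h : Lv (m + 1) F c t) (N : ℕ) (e : ℕ → F) (he : ∀ j, e j ≠ 0) :
    ∃ a : ℂ, ∀ J ⊆ Finset.range (N + 1), J.Nonempty → ∀ J' ⊆ Finset.range (N + 1),
      ¬ IsSquare ((∏ j ∈ J, (t 0 - c a - (j : F))) * ∏ j ∈ J', e j) := by
  classical
  have hfin : (⋃ p ∈ ((Finset.range (N + 1)).powerset.filter (fun J => J.Nonempty)) ×ˢ
      (Finset.range (N + 1)).powerset,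
      {a : ℂ | IsSquare ((∏ j ∈ p.1, (t 0 - c a - (j : F))) * ∏ j ∈ p.2, e j)}).Finite := by
    refine Set.Finite.biUnion (Finset.finite_toSet _) fun p hp => ?_
    rw [Finset.mem_coe, Finset.mem_product, Finset.mem_filter, Finset.mem_powerset] at hp
    exact Seq_bad_finite h N p.1 hp.1.1 hp.1.2 _ (Finset.prod_ne_zero_iff.2 fun j _ => he j)
  obtain ⟨a, ha⟩ := hfin.infinite_compl.nonempty
  refine ⟨a, fun J hJ hJn J' hJ' hsq => ha ?_⟩
  rw [Set.mem_iUnion₂]
  exact ⟨(J, J'), Finset.mem_product.2 ⟨Finset.mem_filter.2 ⟨Finset.mem_powerset.2 hJ, hJn⟩,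
    Finset.mem_powerset.2 hJ'⟩, hsq⟩

/-- g2 = code of the e_j, g1 = code of the (t_0 - a - j) e_j (j <= N). <-: clear. ->: f ∏_{J'} e_j
and (t_0 - a - j) f ∏_J (t_0 - a - i) e_i are squares; multiply: if J is not {j} then a nonempty
product of factors t_0 - a - i times a product of elements e_i (symmetric differences) is a square,
contradiction to `exists_good`; so J = {j} and f e_j is a square. -/
theorem exists_seq_code {m : ℕ} {F K : Type} [Field F] [Field K] {c : ℂ →+* F} {t : ℕ → F}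
    {φ : F →+* K} (h : Lv (m + 1) F c t) (hT : Tw F K φ) (N : ℕ) (e : ℕ → F)
    (he : ∀ j, e j ≠ 0) :
    ∃ (a : ℂ) (g1 g2 : RatFunc K), g1 ≠ 0 ∧ g2 ≠ 0 ∧ ∀ j ≤ N, ∀ f : F, f ≠ 0 →
      ((Nrm (RatFunc.C (φ f)) g2 ∧ Nrm (RatFunc.C (φ ((t 0 - c a - (j : F)) * f))) g1) ↔
        IsSquare (f * e j)) := by
  classical
  haveI := h.charZero
  obtain ⟨a, ha⟩ := exists_good h N e he
  have hl : ∀ j ≤ N, t 0 - c a - (j : F) ≠ 0 := by
    intro j hj h0
    refine ha {j} (by
      rw [Finset.singleton_subset_iff, Finset.mem_range]; omega) (Finset.singleton_nonempty j) ∅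
      (Finset.empty_subset _) ?_
    rw [Finset.prod_singleton, h0, zero_mul]
    exact ⟨0, by ring⟩
  obtain ⟨g2, hg2, hg2c⟩ := hT.exists_code (Finset.range (N + 1)) e (fun b _ => he b)
  obtain ⟨g1, hg1, hg1c⟩ := hT.exists_code (Finset.range (N + 1))
    (fun j => (t 0 - c a - (j : F)) * e j) (fun b hb => mul_ne_zero (hl b (by
      rw [Finset.mem_range] at hb; omega)) (he b))
  refine ⟨a, g1, g2, hg1, hg2, ?_⟩
  intro j hj f hf
  have hjr : j ∈ Finset.range (N + 1) := by
    rw [Finset.mem_range]; omega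
  rw [hg2c f hf, hg1c _ (mul_ne_zero (hl j hj) hf)]
  constructor
  · rintro ⟨⟨J', hJ', hsq'⟩, ⟨J, hJ, hsq⟩⟩
    by_cases hJj : J = {j}
    · subst hJj
      rw [Finset.prod_singleton] at hsq
      rw [← Seq_sq_iff (hl j hj)]
      convert hsq using 1
      ring
    · exfalso
      have hne : (symmDiff J {j}).Nonempty := by
        rw [Finset.nonempty_iff_ne_empty]
        intro h0
        exact hJj (symmDiff_eq_bot.1 h0)
      have hsub : symmDiff J {j} ⊆ Finset.range (N + 1) := by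
        intro i hi
        rw [Finset.mem_symmDiff, Finset.mem_singleton] at hi
        rcases hi with hi | hi
        · exact hJ hi.1
        · rw [hi.1]; exact hjr
      have hsub' : symmDiff J J' ⊆ Finset.range (N + 1) := by
        intro i hi
        rw [Finset.mem_symmDiff] at hi
        rcases hi with hi | hi
        · exact hJ hi.1
        · exact hJ' hi.1
      refine ha _ hsub hne _ hsub' ?_
      have e1 := Seq_prod_symmDiff (fun i : ℕ => t 0 - c a - (i : F)) J {j}
      have e2 := Seq_prod_symmDiff e J J'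
      rw [Finset.prod_singleton] at e1
      have hn1 : ∏ i ∈ J ∩ {j}, (t 0 - c a - (i : F)) ≠ 0 := by
        refine Finset.prod_ne_zero_iff.2 fun i hi => ?_
        rw [Finset.mem_inter, Finset.mem_singleton] at hi
        rw [hi.2]
        exact hl j hj
      have hn2 : ∏ i ∈ J ∩ J', e i ≠ 0 := Finset.prod_ne_zero_iff.2 fun i _ => he i
      rw [← Seq_sq_iff (mul_ne_zero (mul_ne_zero hn1 hn2) hf)]
      rw [Finset.prod_mul_distrib] at hsq
      obtain ⟨r1, hr1⟩ := hsq
      obtain ⟨r2, hr2⟩ := hsq'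
      refine ⟨r1 * r2, ?_⟩
      linear_combination f * (∏ i ∈ J', e i) * hr1 + r1 * r1 * hr2 -
        f ^ 2 * (∏ i ∈ J, e i) * (∏ i ∈ J', e i) * e1 -
        f ^ 2 * (∏ i ∈ symmDiff J {j}, (t 0 - c a - (i : F))) *
          (∏ i ∈ J ∩ {j}, (t 0 - c a - (i : F))) ^ 2 * e2
  · intro hsq
    refine ⟨⟨{j}, Finset.singleton_subset_iff.2 hjr, ?_⟩,
      ⟨{j}, Finset.singleton_subset_iff.2 hjr, ?_⟩⟩
    · rw [Finset.prod_singleton]
      exact hsq
    · rw [Finset.prod_singleton]
      obtain ⟨r, hr⟩ := hsq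
      exact ⟨r * (t 0 - c a - (j : F)), by linear_combination (t 0 - c a - (j : F)) ^ 2 * hr⟩

end MP4369f4
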