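import Pool.Agent.Lib_MP_4369f4_m.AmbBasic
import Pool.Agent.Lib_MP_4369f4_m.Seq
import Pool.Agent.Lib_MP_4369f4_m.EvReg

/-! H22 H2: meaning of EvD and InO. -/

namespace MP4369f4

open Polynomial

variable {m : ℕ} {F0 K : Type} [Field F0] [Field K] {c0 : ℂ →+* F0} {t0 : ℕ → F0}
  {φ : RatFunc F0 →+* K} {tK : ℕ → RatFunc K}

private theorem evSem_inj (φ : RatFunc F0 →+* K) {f g : RatFunc F0}
    (h : (RatFunc.C (φ f) : RatFunc K) = RatFunc.C (φ g)) : f = g :=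
  φ.injective (RatFunc.C.injective h)

private theorem evSem_ne (φ : RatFunc F0 →+* K) {f : RatFunc F0} (h : f ≠ 0) :
    (RatFunc.C (φ f) : RatFunc K) ≠ 0 := by
  intro h0
  apply h
  apply evSem_inj φ
  rw [h0, map_zero, map_zero]

private theorem evSem_charZero (A : Amb m F0 K c0 t0 φ tK) : CharZero F0 :=
  A.lv.charZero

private theorem evSem_charZeroK (A : Amb m F0 K c0 t0 φ tK) : CharZero (RatFunc K) := by
  have := (A.lv.charZero)
  exact charZero_of_injective_ringHom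
    ((RatFunc.C : K →+* RatFunc K).comp (φ.comp ((RatFunc.C : F0 →+* RatFunc F0).comp c0))).injective

private theorem evSem_sq_pull (A : Amb m F0 K c0 t0 φ tK) {a g1 g2 j y : RatFunc K}
    (h : Sq (m + 2) tK a g1 g2 j y) : ∃ w : RatFunc F0, w ≠ 0 ∧ y = RatFunc.C (φ w) := by
  obtain ⟨h1, h2, -, -⟩ := h
  obtain ⟨w, rfl⟩ := (A.inK_iff' y).1 h1
  refine ⟨w, ?_, rfl⟩
  rintro rfl
  exact h2 (by rw [map_zero, map_zero])

/-- Soundness: by strong induction on j <= N all elements of class number j have even order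
(`Amb.rule_iff`, `RuleF.sound`). -/
theorem Amb.evOrd_of_evD (A : Amb m F0 K c0 t0 φ tK) (z : ℂ) (g : RatFunc F0)
    (h : EvD (m + 1) tK (RatFunc.C (φ (RatFunc.C (c0 z)))) (RatFunc.C (φ g))) :
    EvOrd (c0 z) g := by
  have := evSem_charZero A
  have := evSem_charZeroK A
  obtain ⟨a, g1, g2, N, -, hN, -, -, hg, hr⟩ := h
  obtain ⟨n, rfl⟩ := (A.natP_iff N).1 hN
  have key : ∀ j : ℕ, j ≤ n → ∀ e : RatFunc F0,
      Sq (m + 2) tK a g1 g2 (j : RatFunc K) (RatFunc.C (φ e)) → EvOrd (c0 z) e := by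
    intro j
    induction j using Nat.strong_induction_on with
    | _ j ih =>
      intro hj e he
      have he0 : e ≠ 0 := by
        rintro rfl
        exact he.2.1 (by rw [map_zero, map_zero])
      have h1 := hr (j : RatFunc K) ((A.natP_iff _).2 ⟨j, rfl⟩)
        ⟨((n - j : ℕ) : RatFunc K), (A.natP_iff _).2 ⟨_, rfl⟩, by
          rw [← Nat.cast_add, Nat.add_sub_cancel' hj]⟩ _ he
      rw [A.rule_iff z _ ?_ e he0] at h1
      · refine RuleF.sound ?_ he0 h1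
        rintro y ⟨j', k, hj', hk, hjk, hs⟩
        obtain ⟨j', rfl⟩ := (A.natP_iff _).1 hj'
        obtain ⟨k, rfl⟩ := (A.natP_iff _).1 hk
        have hjk' : j = j' + k + 1 := by exact_mod_cast hjk
        exact ih j' (by omega) (by omega) y hs
      · rintro x ⟨j', k, -, -, -, hs⟩
        exact evSem_sq_pull A hs
  exact key n le_rfl g hg

/-- Completeness: `Lv.pn`, `gen_of_evOrd`, `Gen.exists_seq`, `exists_seq_code` (for F = RatFunc F0, level
m + 2), `RuleF.mono`, `Amb.rule_iff`. -/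
theorem Amb.evD_of_evOrd (A : Amb m F0 K c0 t0 φ tK) (z : ℂ) (g : RatFunc F0)
    (h : EvOrd (c0 z) g) :
    EvD (m + 1) tK (RatFunc.C (φ (RatFunc.C (c0 z)))) (RatFunc.C (φ g)) := by
  have := evSem_charZero A
  have := evSem_charZeroK A
  obtain ⟨N, e, he0, heN, hrule⟩ := (gen_of_evOrd A.lv.pn z h).exists_seq
  have hg0 : g ≠ 0 := h.ne_zero
  have hlv : Lv (m + 1 + 1) (RatFunc F0) ((RatFunc.C : F0 →+* RatFunc F0).comp c0)
      (fun i => if i = m + 1 then RatFunc.X else RatFunc.C (t0 i)) := by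
    refine Lv.succ (m + 1) F0 c0 t0 _ A.lv ?_ ?_
    · intro i hi
      rw [if_neg (by omega)]
    · rw [if_pos rfl]
  obtain ⟨a, g1, g2, hg1, hg2, hcode⟩ := exists_seq_code hlv A.tw N e he0
  have hsq : ∀ j ≤ N, ∀ f : RatFunc F0, f ≠ 0 →
      (Sq (m + 2) tK (RatFunc.C (φ (RatFunc.C (c0 a)))) g1 g2 (j : RatFunc K)
        (RatFunc.C (φ f)) ↔ IsSquare (f * e j)) := by
    intro j hj f hf
    rw [← hcode j hj f hf]
    have hrew : (RatFunc.C (φ (((fun i => if i = m + 1 then (RatFunc.X : RatFunc F0)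
        else RatFunc.C (t0 i)) 0 - ((RatFunc.C : F0 →+* RatFunc F0).comp c0) a
          - (j : RatFunc F0)) * f)) : RatFunc K) =
        (tK 0 - RatFunc.C (φ (RatFunc.C (c0 a))) - (j : RatFunc K)) * RatFunc.C (φ f) := by
      have h0 : ¬ (0 = m + 1) := by omega
      simp only [h0, if_false]
      rw [A.ht 0 (by omega)]
      simp only [map_mul, map_sub, map_natCast, RingHom.comp_apply]
    rw [hrew]
    constructor
    · rintro ⟨-, -, h3, h4⟩
      exact ⟨h3, h4⟩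
    · rintro ⟨h3, h4⟩
      exact ⟨(A.inK_iff' _).2 ⟨f, rfl⟩, evSem_ne φ hf, h3, h4⟩
  refine ⟨RatFunc.C (φ (RatFunc.C (c0 a))), g1, g2, (N : RatFunc K), (A.cst_iff _).2 ⟨a, rfl⟩,
    (A.natP_iff _).2 ⟨N, rfl⟩, hg1, hg2, ?_, ?_⟩
  · rw [show m + 1 + 1 = m + 2 from rfl, hsq N le_rfl g hg0, heN]
    exact ⟨g, rfl⟩
  · intro i hi hk e' he'
    obtain ⟨i0, rfl⟩ := (A.natP_iff _).1 hi
    obtain ⟨k, hk, hNk⟩ := hk
    obtain ⟨k0, rfl⟩ := (A.natP_iff _).1 hk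
    have hNk' : N = i0 + k0 := by exact_mod_cast hNk
    have hiN : i0 ≤ N := by omega
    obtain ⟨f, hf0, rfl⟩ := evSem_sq_pull A he'
    have hfs : IsSquare (f * e i0) := (hsq i0 hiN f hf0).1 he'
    rw [A.rule_iff z _ ?_ f hf0]
    · refine (hrule i0 hiN).mono ?_ (he0 i0) hf0 hfs
      rintro y ⟨i, hi, rfl⟩
      refine ⟨(i : RatFunc K), ((i0 - i - 1 : ℕ) : RatFunc K), (A.natP_iff _).2 ⟨_, rfl⟩,
        (A.natP_iff _).2 ⟨_, rfl⟩, ?_, ?_⟩
      · have h3 : i0 = i + (i0 - i - 1) + 1 := by omega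
        exact_mod_cast congrArg (Nat.cast : ℕ → RatFunc K) h3
      · exact (hsq i (by omega) (e i) (he0 i)).2 ⟨e i, rfl⟩
    · rintro x ⟨j', k, -, -, -, hs⟩
      exact evSem_sq_pull A hs

/-- `evOrd_one_add_iff`. -/
theorem Amb.inO_iff (A : Amb m F0 K c0 t0 φ tK) (z : ℂ) (u : RatFunc K) :
    InO (m + 1) tK (RatFunc.C (φ (RatFunc.C (c0 z)))) u ↔
      ∃ P Q : F0[X], Q.eval (c0 z) ≠ 0 ∧
        u = RatFunc.C (φ (algebraMap F0[X] (RatFunc F0) P / algebraMap F0[X] (RatFunc F0) Q)) := by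
  have key : ∀ w : RatFunc F0,
      (1 + (tK (m + 1) - RatFunc.C (φ (RatFunc.C (c0 z)))) * (RatFunc.C (φ w) : RatFunc K) ^ 2) =
        RatFunc.C (φ (1 + (RatFunc.X - RatFunc.C (c0 z)) * w ^ 2)) := by
    intro w
    rw [A.htm]
    simp only [map_add, map_one, map_mul, map_sub, map_pow]
  constructor
  · rintro ⟨h1, h2⟩
    obtain ⟨w, rfl⟩ := (A.inK_iff' u).1 h1
    rw [key w] at h2
    obtain ⟨P, Q, hQ, hw⟩ := (evOrd_one_add_iff w).1 (A.evOrd_of_evD z _ h2)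
    exact ⟨P, Q, hQ, by rw [hw]⟩
  · rintro ⟨P, Q, hQ, rfl⟩
    refine ⟨(A.inK_iff' _).2 ⟨_, rfl⟩, ?_⟩
    rw [key]
    exact A.evD_of_evOrd z _ ((evOrd_one_add_iff _).2 ⟨P, Q, hQ, rfl⟩)

end MP4369f4
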