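import Pool.Agent.Lib_MP_4369f4_m.FoKit

/-! H22 I2: the basic predicates are first-order, with terms as arguments. Only FoKit is used. -/

namespace MP4369f4

variable {α : Type}

theorem FoA.nrm {f g : ∀ (K : Type) [Field K], (α → K) → K} (h : TmA α f) (h' : TmA α g) :
    FoA α (fun K _ v => Nrm (f K v) (g K v)) := by
  unfold Nrm
  refine FoA.ex (FoA.ex ?_)
  exact FoA.eq (((TmA.var (some none)).pow 2).sub (h.lift.lift.mul ((TmA.var none).pow 2)))
    h'.lift.lift

theorem FoA.cst {f : ∀ (K : Type) [Field K], (α → K) → K} (h : TmA α f) :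
    FoA α (fun K _ v => Cst (f K v)) := by
  unfold Cst
  refine FoA.ex ?_
  exact FoA.eq ((h.lift.pow 4).add ((TmA.var none).pow 4)) TmA.one

theorem FoA.isSquare {f : ∀ (K : Type) [Field K], (α → K) → K} (h : TmA α f) :
    FoA α (fun K _ v => IsSquare (f K v)) := by
  unfold IsSquare
  refine FoA.ex ?_
  exact FoA.eq h.lift ((TmA.var none).mul (TmA.var none))

/-- Substitution of two terms in a relation between two elements. -/
private theorem foA_comp_two {R : ∀ (K : Type) [Field K], K → K → Prop}
    (hR : Fo 2 (fun K _ v => R K (v 1) (v 0)))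
    {f g : ∀ (K : Type) [Field K], (α → K) → K} (h : TmA α f) (h' : TmA α g) :
    FoA α (fun K _ v => R K (f K v) (g K v)) := by
  have h1 : FoA (Fin 2) (fun K _ v => R K (v 1) (v 0)) := hR
  have h2 : ∀ i : Fin 2, TmA α ((![g, f] : Fin 2 → ∀ (K : Type) [Field K], (α → K) → K) i) := by
    intro i
    fin_cases i
    · exact h'
    · exact h
  exact FoA.comp h1 h2

/-- Existing: `fo_PolyP : Fo 2 ...` (FORM); `FoA.comp` with Fin 2. -/
theorem FoA.polyP {f g : ∀ (K : Type) [Field K], (α → K) → K} (h : TmA α f) (h' : TmA α g) :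
    FoA α (fun K _ v => PolyP (f K v) (g K v)) :=
  foA_comp_two (R := fun _ _ x y => PolyP x y) fo_PolyP h h'

/-- Existing: `fo_NatP` (FORM). -/
theorem FoA.natP {f g : ∀ (K : Type) [Field K], (α → K) → K} (h : TmA α f) (h' : TmA α g) :
    FoA α (fun K _ v => NatP (f K v) (g K v)) :=
  foA_comp_two (R := fun _ _ x y => NatP x y) fo_NatP h h'

private theorem foA_rep (m : ℕ) : ∀ (α : Type) (d : ℕ → ∀ (K : Type) [Field K], (α → K) → K)
    (x : ∀ (K : Type) [Field K], (α → K) → K), (∀ i, TmA α (d i)) → TmA α x →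
    FoA α (fun K _ v => Rep m (fun i => d i K v) (x K v)) := by
  induction m with
  | zero =>
    intro α d x hd hx
    simp only [Rep]
    refine FoA.ex ?_
    exact FoA.eq hx.lift ((TmA.var none).pow 2)
  | succ m ih =>
    intro α d x hd hx
    simp only [Rep]
    refine FoA.ex (FoA.ex ?_)
    refine FoA.and ?_ (FoA.and ?_ ?_)
    · exact ih (Option (Option α))
        (fun i => fun K _ w => d i K (fun a => w (some (some a)))) (fun K _ w => w (some none))
        (fun i => (hd i).lift.lift) (TmA.var (some none))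
    · exact ih (Option (Option α))
        (fun i => fun K _ w => d i K (fun a => w (some (some a)))) (fun K _ w => w none)
        (fun i => (hd i).lift.lift) (TmA.var none)
    · exact FoA.eq hx.lift.lift ((TmA.var (some none)).sub ((hd m).lift.lift.mul (TmA.var none)))

/-- Induction on m. -/
theorem FoA.rep (m : ℕ) {d : ℕ → ∀ (K : Type) [Field K], (α → K) → K}
    {x : ∀ (K : Type) [Field K], (α → K) → K} (hd : ∀ i, TmA α (d i)) (hx : TmA α x) :
    FoA α (fun K _ v => Rep m (fun i => d i K v) (x K v)) :=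
  foA_rep m α d x hd hx

private theorem cst_zero {K : Type} [Field K] : Cst (0 : K) := ⟨1, by ring⟩

private theorem inK_iff (m : ℕ) {K : Type} [Field K] (t : ℕ → K) (x : K) :
    InK m t x ↔ ∀ a : ℕ → K, (∀ j < m, Cst (a j)) → ∀ b : K, Cst b →
      Rep m (fun j => t j - a j) (x - b) := by
  constructor
  · intro h a ha b hb
    have h1 := h (fun j => if j < m then a j else 0) (fun j => by
      by_cases hj : j < m
      · simpa [hj] using ha j hj
      · simpa [hj] using (cst_zero : Cst (0 : K))) b hb
    exact h1.congr (fun j hj => by simp [hj])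
  · intro h a ha b hb
    exact h a (fun j _ => ha j) b hb

/-- A relation which holds for all natural numbers below m. -/
private theorem foA_all_lt (m : ℕ) {R : ℕ → ∀ (K : Type) [Field K], (α → K) → Prop}
    (h : ∀ j, FoA α (R j)) : FoA α (fun K _ v => ∀ j < m, R j K v) := by
  induction m with
  | zero =>
    have h1 : FoA α (fun K _ v => (0 : K) = 0) := FoA.eq TmA.zero TmA.zero
    obtain ⟨Φ, hΦ⟩ := h1
    refine ⟨Φ, fun K _ _ v => ?_⟩
    rw [hΦ K v]
    simp
  | succ m ih =>
    obtain ⟨Φ, hΦ⟩ := FoA.and ih (h m)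
    refine ⟨Φ, fun K _ _ v => ?_⟩
    rw [hΦ K v]
    constructor
    · rintro ⟨h1, h2⟩ j hj
      rcases Nat.lt_succ_iff_lt_or_eq.1 hj with h3 | h3
      · exact h1 j h3
      · subst h3
        exact h2
    · intro h1
      exact ⟨fun j hj => h1 j (by omega), h1 m (by omega)⟩

/-- The tuple a may be cut off at m (the other entries 0): `Cst 0` holds, `Rep.congr`;
`FoA.all_tuple`. -/
theorem FoA.inK (m : ℕ) {t : ℕ → ∀ (K : Type) [Field K], (α → K) → K}
    {x : ∀ (K : Type) [Field K], (α → K) → K} (ht : ∀ i, TmA α (t i)) (hx : TmA α x) :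
    FoA α (fun K _ v => InK m (fun i => t i K v) (x K v)) := by
  have key : FoA α (fun K _ v => ∀ a : ℕ → K, (∀ j < m, Cst (a j)) → ∀ b : K, Cst b →
      Rep m (fun j => t j K v - a j) (x K v - b)) := by
    refine FoA.all_tuple m (R := fun K _ v a => (∀ j < m, Cst (a j)) → ∀ b : K, Cst b →
      Rep m (fun j => t j K v - a j) (x K v - b)) ?_ ?_
    · refine FoA.imp (foA_all_lt m (fun j => FoA.cst (TmA.var (Sum.inr j)))) ?_
      have htl : ∀ i, TmA (α ⊕ ℕ) (fun K _ w => t i K (fun a => w (Sum.inl a))) := fun i =>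
        TmA.comp (ht i) (s := fun a => fun K _ w => w (Sum.inl a)) (fun a => TmA.var (Sum.inl a))
      have hxl : TmA (α ⊕ ℕ) (fun K _ w => x K (fun a => w (Sum.inl a))) :=
        TmA.comp hx (s := fun a => fun K _ w => w (Sum.inl a)) (fun a => TmA.var (Sum.inl a))
      refine FoA.all (FoA.imp (FoA.cst (TmA.var none)) ?_)
      exact FoA.rep m (fun i => (htl i).lift.sub (TmA.var (some (Sum.inr i))))
        (hxl.lift.sub (TmA.var none))
    · intro K _ v a a' haa
      have h1 : (∀ j < m, Cst (a j)) ↔ (∀ j < m, Cst (a' j)) := by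
        constructor
        · intro h j hj
          rw [← haa j hj]
          exact h j hj
        · intro h j hj
          rw [haa j hj]
          exact h j hj
      rw [h1]
      refine imp_congr_right fun _ => forall_congr' fun b => imp_congr_right fun _ => ?_
      constructor
      · intro h
        exact h.congr (fun j hj => by simp [haa j hj])
      · intro h
        exact h.congr (fun j hj => by simp [haa j hj])
  obtain ⟨Φ, hΦ⟩ := key
  refine ⟨Φ, fun K _ _ v => ?_⟩
  rw [hΦ K v]
  exact (inK_iff m (fun i => t i K v) (x K v)).symm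

end MP4369f4
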