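import Pool.Agent.Lib_MP_4369f4_m.RepBasic

/-! H22 I1: closure properties of first-order definable relations (compare FORM of the old
library, where everything is private and variables are Fin n). -/

namespace MP4369f4

open FirstOrder

/-- A relation with variables α which is defined, uniformly in all fields, by one formula. -/
def FoA (α : Type) (R : ∀ (K : Type) [Field K], (α → K) → Prop) : Prop :=
  ∃ Φ : Language.ring.Formula α, ∀ (K : Type) [Field K] [Ring.CompatibleRing K]
    (v : α → K), Φ.Realize v ↔ R K v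

/-- Functions defined by terms. -/
def TmA (α : Type) (f : ∀ (K : Type) [Field K], (α → K) → K) : Prop :=
  ∃ t : Language.ring.Term α, ∀ (K : Type) [Field K] [Ring.CompatibleRing K]
    (v : α → K), t.realize v = f K v

variable {α β : Type}

private theorem one_aux {α : Type} : TmA α (fun _ _ _ => 1) := by
  exact ⟨1, fun K _ _ v => by rw [Ring.realize_one]⟩

private theorem zero_aux {α : Type} : TmA α (fun _ _ _ => 0) := by
  exact ⟨0, fun K _ _ v => by rw [Ring.realize_zero]⟩

private def optMap {α : Type} : Option α → α ⊕ Unit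
  | some a => Sum.inl a
  | none => Sum.inr ()

theorem TmA.var (i : α) : TmA α (fun _ _ v => v i) := by
  exact ⟨Language.Term.var i, fun K _ _ v => by simp⟩

theorem TmA.add {f g : ∀ (K : Type) [Field K], (α → K) → K} (h : TmA α f) (h' : TmA α g) :
    TmA α (fun K _ v => f K v + g K v) := by
  obtain ⟨t, ht⟩ := h
  obtain ⟨t', ht'⟩ := h'
  exact ⟨t + t', fun K _ _ v => by rw [Ring.realize_add, ht, ht']⟩

theorem TmA.mul {f g : ∀ (K : Type) [Field K], (α → K) → K} (h : TmA α f) (h' : TmA α g) :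
    TmA α (fun K _ v => f K v * g K v) := by
  obtain ⟨t, ht⟩ := h
  obtain ⟨t', ht'⟩ := h'
  exact ⟨t * t', fun K _ _ v => by rw [Ring.realize_mul, ht, ht']⟩

theorem TmA.sub {f g : ∀ (K : Type) [Field K], (α → K) → K} (h : TmA α f) (h' : TmA α g) :
    TmA α (fun K _ v => f K v - g K v) := by
  obtain ⟨t, ht⟩ := h
  obtain ⟨t', ht'⟩ := h'
  exact ⟨t + -t', fun K _ _ v => by
    rw [Ring.realize_add, Ring.realize_neg, ht, ht']
    exact (sub_eq_add_neg _ _).symm⟩

theorem TmA.pow {f : ∀ (K : Type) [Field K], (α → K) → K} (h : TmA α f) (n : ℕ) :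
    TmA α (fun K _ v => f K v ^ n) := by
  induction n with
  | zero =>
    obtain ⟨t, ht⟩ := (one_aux : TmA α (fun _ _ _ => 1))
    exact ⟨t, fun K _ _ v => by
      rw [ht]
      exact (pow_zero _).symm⟩
  | succ n ih =>
    obtain ⟨t, ht⟩ := h
    obtain ⟨t', ht'⟩ := ih
    exact ⟨t' * t, fun K _ _ v => by
      rw [Ring.realize_mul, ht, ht']
      exact (pow_succ _ _).symm⟩

theorem TmA.zero : TmA α (fun _ _ _ => 0) := by
  exact ⟨0, fun K _ _ v => by rw [Ring.realize_zero]⟩

theorem TmA.one : TmA α (fun _ _ _ => 1) := by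
  exact ⟨1, fun K _ _ v => by rw [Ring.realize_one]⟩

/-- Substitution of terms for variables. -/
theorem TmA.comp {f : ∀ (K : Type) [Field K], (α → K) → K} (h : TmA α f)
    {s : α → ∀ (K : Type) [Field K], (β → K) → K} (hs : ∀ a, TmA β (s a)) :
    TmA β (fun K _ v => f K (fun a => s a K v)) := by
  obtain ⟨t, ht⟩ := h
  choose u hu using hs
  refine ⟨t.subst u, fun K _ _ v => ?_⟩
  rw [Language.Term.realize_subst, ht]
  congr 1
  funext a
  exact hu a K v

theorem FoA.comp {R : ∀ (K : Type) [Field K], (α → K) → Prop} (h : FoA α R)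
    {s : α → ∀ (K : Type) [Field K], (β → K) → K} (hs : ∀ a, TmA β (s a)) :
    FoA β (fun K _ v => R K (fun a => s a K v)) := by
  obtain ⟨Φ, hΦ⟩ := h
  choose u hu using hs
  refine ⟨Language.BoundedFormula.subst Φ u, fun K _ _ v => ?_⟩
  rw [Language.Formula.Realize, Language.BoundedFormula.realize_subst,
    ← Language.Formula.Realize, hΦ]
  have h1 : (fun a => (u a).realize v) = fun a => s a K v := by
    funext a
    exact hu a K v
  rw [h1]

theorem TmA.lift {f : ∀ (K : Type) [Field K], (α → K) → K} (h : TmA α f) :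
    TmA (Option α) (fun K _ w => f K (fun a => w (some a))) := by
  obtain ⟨t, ht⟩ := h
  refine ⟨t.relabel some, fun K _ _ w => ?_⟩
  rw [Language.Term.realize_relabel, ht]
  rfl

theorem FoA.eq {f g : ∀ (K : Type) [Field K], (α → K) → K} (h : TmA α f) (h' : TmA α g) :
    FoA α (fun K _ v => f K v = g K v) := by
  obtain ⟨t, ht⟩ := h
  obtain ⟨t', ht'⟩ := h'
  refine ⟨Language.Term.equal t t', fun K _ _ v => ?_⟩
  rw [Language.Formula.realize_equal, ht, ht']

theorem FoA.not {R : ∀ (K : Type) [Field K], (α → K) → Prop} (h : FoA α R) :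
    FoA α (fun K _ v => ¬ R K v) := by
  obtain ⟨Φ, hΦ⟩ := h
  refine ⟨Φ.not, fun K _ _ v => ?_⟩
  rw [Language.Formula.realize_not, hΦ]

theorem FoA.and {R S : ∀ (K : Type) [Field K], (α → K) → Prop} (h : FoA α R) (h' : FoA α S) :
    FoA α (fun K _ v => R K v ∧ S K v) := by
  obtain ⟨Φ, hΦ⟩ := h
  obtain ⟨Ψ, hΨ⟩ := h'
  refine ⟨Φ ⊓ Ψ, fun K _ _ v => ?_⟩
  rw [Language.Formula.realize_inf, hΦ, hΨ]

theorem FoA.or {R S : ∀ (K : Type) [Field K], (α → K) → Prop} (h : FoA α R) (h' : FoA α S) :
    FoA α (fun K _ v => R K v ∨ S K v) := by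
  obtain ⟨Φ, hΦ⟩ := h
  obtain ⟨Ψ, hΨ⟩ := h'
  refine ⟨Φ ⊔ Ψ, fun K _ _ v => ?_⟩
  rw [Language.Formula.realize_sup, hΦ, hΨ]

theorem FoA.imp {R S : ∀ (K : Type) [Field K], (α → K) → Prop} (h : FoA α R) (h' : FoA α S) :
    FoA α (fun K _ v => R K v → S K v) := by
  obtain ⟨Φ, hΦ⟩ := h
  obtain ⟨Ψ, hΨ⟩ := h'
  refine ⟨Φ.imp Ψ, fun K _ _ v => ?_⟩
  rw [Language.Formula.realize_imp, hΦ, hΨ]

/-- The new variable is `none`. (`Formula.iExs` with β = Unit after relabelling along
Option α -> α ⊕ Unit, or a bounded formula.) -/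
theorem FoA.ex {R : ∀ (K : Type) [Field K], (α → K) → K → Prop}
    (h : FoA (Option α) (fun K _ w => R K (fun a => w (some a)) (w none))) :
    FoA α (fun K _ v => ∃ x, R K v x) := by
  obtain ⟨Φ, hΦ⟩ := h
  refine ⟨Language.Formula.iExs Unit (Φ.relabel optMap), fun K _ _ v => ?_⟩
  rw [Language.Formula.realize_iExs]
  have key : ∀ i : Unit → K, ((Language.Formula.relabel optMap Φ).Realize (Sum.elim v i) ↔
      R K v (i ())) := by
    intro i
    rw [Language.Formula.realize_relabel, hΦ]
    rfl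
  constructor
  · rintro ⟨i, hi⟩
    exact ⟨i (), (key i).1 hi⟩
  · rintro ⟨x, hx⟩
    exact ⟨fun _ => x, (key (fun _ => x)).2 hx⟩

theorem FoA.all {R : ∀ (K : Type) [Field K], (α → K) → K → Prop}
    (h : FoA (Option α) (fun K _ w => R K (fun a => w (some a)) (w none))) :
    FoA α (fun K _ v => ∀ x, R K v x) := by
  obtain ⟨Φ, hΦ⟩ := h
  refine ⟨Language.Formula.iAlls Unit (Φ.relabel optMap), fun K _ _ v => ?_⟩
  rw [Language.Formula.realize_iAlls]
  have key : ∀ i : Unit → K, ((Language.Formula.relabel optMap Φ).Realize (Sum.elim v i) ↔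
      R K v (i ())) := by
    intro i
    rw [Language.Formula.realize_relabel, hΦ]
    rfl
  constructor
  · intro hi x
    exact (key (fun _ => x)).1 (hi (fun _ => x))
  · intro hx i
    exact (key i).2 (hx (i ()))

/-- Quantification over a tuple of m elements, extended by 0 to an infinite sequence
(`Formula.iAlls` with β = Fin m). The variables `Sum.inr j`, j >= m, are not used in the formula. -/
theorem FoA.all_tuple (m : ℕ) {R : ∀ (K : Type) [Field K], (α → K) → (ℕ → K) → Prop}
    (h : FoA (α ⊕ ℕ) (fun K _ w => R K (fun a => w (Sum.inl a)) (fun j => w (Sum.inr j))))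
    (hR : ∀ (K : Type) [Field K] (v : α → K) (a a' : ℕ → K), (∀ j < m, a j = a' j) →
      (R K v a ↔ R K v a')) :
    FoA α (fun K _ v => ∀ a : ℕ → K, R K v a) := by
  have h1 : FoA (α ⊕ Fin m) (fun K _ w => R K (fun a => w (Sum.inl a))
      (fun j => if hj : j < m then w (Sum.inr ⟨j, hj⟩) else 0)) := by
    have hs : ∀ a : α ⊕ ℕ, TmA (α ⊕ Fin m) (fun K _ w => Sum.elim (fun a => w (Sum.inl a))
        (fun j => if hj : j < m then w (Sum.inr ⟨j, hj⟩) else (0 : K)) a) := by
      intro a
      rcases a with a | j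
      · exact ⟨Language.Term.var (Sum.inl a), fun K _ _ v => by simp⟩
      · by_cases hj : j < m
        · refine ⟨Language.Term.var (Sum.inr ⟨j, hj⟩), fun K _ _ v => ?_⟩
          simp [hj]
        · obtain ⟨t, ht⟩ := (zero_aux : TmA (α ⊕ Fin m) (fun _ _ _ => 0))
          refine ⟨t, fun K _ _ v => ?_⟩
          rw [ht]
          simp [hj]
    exact FoA.comp h hs
  obtain ⟨Φ, hΦ⟩ := h1
  refine ⟨Language.Formula.iAlls (Fin m) Φ, fun K _ _ v => ?_⟩
  rw [Language.Formula.realize_iAlls]
  constructor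
  · intro hi a
    have h2 := (hΦ K _).1 (hi (fun j => a j))
    refine (hR K v _ a ?_).1 h2
    intro j hj
    simp [hj]
  · intro ha i
    exact (hΦ K _).2 (ha _)

/-- Isomorphic fields satisfy the same formulas (`Ring.languageEquivEquivRingEquiv` and
`StrongHomClass.realize_formula`, or transport the compatible ring structure). -/
theorem FoA.equiv_iff {R : ∀ (K : Type) [Field K], (α → K) → Prop} (h : FoA α R)
    {K L : Type} [Field K] [Field L] (e : K ≃+* L) (v : α → K) :
    R K v ↔ R L (fun a => e (v a)) := by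
  obtain ⟨Φ, hΦ⟩ := h
  let _ := Ring.compatibleRingOfRing K
  let _ := Ring.compatibleRingOfRing L
  let g : K ≃[Language.ring] L := Ring.languageEquivEquivRingEquiv.symm e
  rw [← hΦ K v, ← hΦ L, ← Language.StrongHomClass.realize_formula g Φ]
  rfl

end MP4369f4
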