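import Pool.Agent.Lib_MP_4369f4_m.FoBasic

/-! H22 I3: PolD is first-order. Only FoKit and FoBasic are used. -/

namespace MP4369f4

variable {α : Type}

theorem FoA.sq (m : ℕ) {t : ℕ → ∀ (K : Type) [Field K], (α → K) → K}
    {a g1 g2 j e : ∀ (K : Type) [Field K], (α → K) → K} (ht : ∀ i, TmA α (t i))
    (ha : TmA α a) (hg1 : TmA α g1) (hg2 : TmA α g2) (hj : TmA α j) (he : TmA α e) :
    FoA α (fun K _ v => Sq m (fun i => t i K v) (a K v) (g1 K v) (g2 K v) (j K v) (e K v)) := by
  unfold Sq
  exact (FoA.inK m ht he).and ((FoA.eq he TmA.zero).not.and ((FoA.nrm he hg2).and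
    (FoA.nrm ((((ht 0).sub ha).sub hj).mul he) hg1)))

private theorem fopol_pp (m : ℕ) {t : ℕ → ∀ (K : Type) [Field K], (α → K) → K}
    {a g1 g2 i y : ∀ (K : Type) [Field K], (α → K) → K} (ht : ∀ i, TmA α (t i))
    (ha : TmA α a) (hg1 : TmA α g1) (hg2 : TmA α g2) (hi : TmA α i) (hy : TmA α y) :
    FoA α (fun K _ v => ∃ j k, NatP (t 0 K v) j ∧ NatP (t 0 K v) k ∧ i K v = j + k + 1 ∧
      Sq m (fun n => t n K v) (a K v) (g1 K v) (g2 K v) j (y K v)) := by
  refine FoA.ex (R := fun K _ v j => ∃ k, NatP (t 0 K v) j ∧ NatP (t 0 K v) k ∧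
    i K v = j + k + 1 ∧ Sq m (fun n => t n K v) (a K v) (g1 K v) (g2 K v) j (y K v)) ?_
  refine FoA.ex (R := fun K _ w k => NatP (t 0 K (fun a => w (some a))) (w none) ∧
    NatP (t 0 K (fun a => w (some a))) k ∧ i K (fun a => w (some a)) = w none + k + 1 ∧
    Sq m (fun n => t n K (fun a => w (some a))) (a K (fun a => w (some a)))
      (g1 K (fun a => w (some a))) (g2 K (fun a => w (some a))) (w none)
      (y K (fun a => w (some a)))) ?_
  exact (FoA.natP (ht 0).lift.lift (TmA.var (some none))).and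
    ((FoA.natP (ht 0).lift.lift (TmA.var none)).and
      ((FoA.eq hi.lift.lift (((TmA.var (some none)).add (TmA.var none)).add TmA.one)).and
        (FoA.sq m (fun n => (ht n).lift.lift) ha.lift.lift hg1.lift.lift hg2.lift.lift
          (TmA.var (some none)) hy.lift.lift)))

private theorem fopol_rule (m : ℕ) {t : ℕ → ∀ (K : Type) [Field K], (α → K) → K}
    {c a g1 g2 i e : ∀ (K : Type) [Field K], (α → K) → K} (ht : ∀ i, TmA α (t i))
    (hc : TmA α c) (ha : TmA α a) (hg1 : TmA α g1) (hg2 : TmA α g2) (hi : TmA α i)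
    (he : TmA α e) :
    FoA α (fun K _ v => Rule m (fun n => t n K v) (c K v) (fun y => ∃ j k, NatP (t 0 K v) j ∧
      NatP (t 0 K v) k ∧ i K v = j + k + 1 ∧
      Sq (m + 1) (fun n => t n K v) (a K v) (g1 K v) (g2 K v) j y) (e K v)) := by
  unfold Rule
  refine FoA.or ?_ (FoA.or ?_ (FoA.or ?_ ?_))
  · refine FoA.ex (R := fun K _ v κ => InK m (fun n => t n K v) κ ∧ κ ≠ 0 ∧
      IsSquare (κ * e K v)) ?_
    exact (FoA.inK m (fun n => (ht n).lift) (TmA.var none)).and
      ((FoA.eq (TmA.var none) TmA.zero).not.and (FoA.isSquare ((TmA.var none).mul he.lift)))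
  · refine FoA.ex (R := fun K _ v y => ∃ y', (∃ j k, NatP (t 0 K v) j ∧
      NatP (t 0 K v) k ∧ i K v = j + k + 1 ∧
      Sq (m + 1) (fun n => t n K v) (a K v) (g1 K v) (g2 K v) j y) ∧ (∃ j k, NatP (t 0 K v) j ∧
      NatP (t 0 K v) k ∧ i K v = j + k + 1 ∧
      Sq (m + 1) (fun n => t n K v) (a K v) (g1 K v) (g2 K v) j y') ∧
      IsSquare (y * y' * e K v)) ?_
    refine FoA.ex (R := fun K _ w y' => (∃ j k, NatP (t 0 K (fun a => w (some a))) j ∧
      NatP (t 0 K (fun a => w (some a))) k ∧ i K (fun a => w (some a)) = j + k + 1 ∧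
      Sq (m + 1) (fun n => t n K (fun a => w (some a))) (a K (fun a => w (some a)))
        (g1 K (fun a => w (some a))) (g2 K (fun a => w (some a))) j (w none)) ∧
      (∃ j k, NatP (t 0 K (fun a => w (some a))) j ∧
      NatP (t 0 K (fun a => w (some a))) k ∧ i K (fun a => w (some a)) = j + k + 1 ∧
      Sq (m + 1) (fun n => t n K (fun a => w (some a))) (a K (fun a => w (some a)))
        (g1 K (fun a => w (some a))) (g2 K (fun a => w (some a))) j y') ∧
      IsSquare (w none * y' * e K (fun a => w (some a)))) ?_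
    exact (fopol_pp (m + 1) (fun n => (ht n).lift.lift) ha.lift.lift hg1.lift.lift hg2.lift.lift
      hi.lift.lift (TmA.var (some none))).and
      ((fopol_pp (m + 1) (fun n => (ht n).lift.lift) ha.lift.lift hg1.lift.lift hg2.lift.lift
        hi.lift.lift (TmA.var none)).and
        (FoA.isSquare (((TmA.var (some none)).mul (TmA.var none)).mul he.lift.lift)))
  · refine FoA.ex (R := fun K _ v b => Cst b ∧ b ≠ c K v ∧
      IsSquare ((t m K v - b) * e K v)) ?_
    exact (FoA.cst (TmA.var none)).and ((FoA.eq (TmA.var none) hc.lift).not.and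
      (FoA.isSquare (((ht m).lift.sub (TmA.var none)).mul he.lift)))
  · refine FoA.ex (R := fun K _ v l => ∃ y e', InK m (fun n => t n K v) l ∧ ¬ IsSquare l ∧
      (∃ j k, NatP (t 0 K v) j ∧ NatP (t 0 K v) k ∧ i K v = j + k + 1 ∧
      Sq (m + 1) (fun n => t n K v) (a K v) (g1 K v) (g2 K v) j y) ∧
      (∃ j k, NatP (t 0 K v) j ∧ NatP (t 0 K v) k ∧ i K v = j + k + 1 ∧
      Sq (m + 1) (fun n => t n K v) (a K v) (g1 K v) (g2 K v) j e') ∧
      Nrm (l * y) ((t m K v - c K v) * e') ∧ Nrm (e K v) y) ?_
    refine FoA.ex (R := fun K _ w y => ∃ e', InK m (fun n => t n K (fun a => w (some a)))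
      (w none) ∧ ¬ IsSquare (w none) ∧
      (∃ j k, NatP (t 0 K (fun a => w (some a))) j ∧ NatP (t 0 K (fun a => w (some a))) k ∧
      i K (fun a => w (some a)) = j + k + 1 ∧
      Sq (m + 1) (fun n => t n K (fun a => w (some a))) (a K (fun a => w (some a)))
        (g1 K (fun a => w (some a))) (g2 K (fun a => w (some a))) j y) ∧
      (∃ j k, NatP (t 0 K (fun a => w (some a))) j ∧ NatP (t 0 K (fun a => w (some a))) k ∧
      i K (fun a => w (some a)) = j + k + 1 ∧
      Sq (m + 1) (fun n => t n K (fun a => w (some a))) (a K (fun a => w (some a)))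
        (g1 K (fun a => w (some a))) (g2 K (fun a => w (some a))) j e') ∧
      Nrm (w none * y) ((t m K (fun a => w (some a)) - c K (fun a => w (some a))) * e') ∧
      Nrm (e K (fun a => w (some a))) y) ?_
    refine FoA.ex (R := fun K _ w e' => InK m (fun n => t n K (fun a => w (some (some a))))
      (w (some none)) ∧ ¬ IsSquare (w (some none)) ∧
      (∃ j k, NatP (t 0 K (fun a => w (some (some a)))) j ∧
      NatP (t 0 K (fun a => w (some (some a)))) k ∧
      i K (fun a => w (some (some a))) = j + k + 1 ∧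
      Sq (m + 1) (fun n => t n K (fun a => w (some (some a)))) (a K (fun a => w (some (some a))))
        (g1 K (fun a => w (some (some a)))) (g2 K (fun a => w (some (some a)))) j (w none)) ∧
      (∃ j k, NatP (t 0 K (fun a => w (some (some a)))) j ∧
      NatP (t 0 K (fun a => w (some (some a)))) k ∧
      i K (fun a => w (some (some a))) = j + k + 1 ∧
      Sq (m + 1) (fun n => t n K (fun a => w (some (some a)))) (a K (fun a => w (some (some a))))
        (g1 K (fun a => w (some (some a)))) (g2 K (fun a => w (some (some a)))) j e') ∧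
      Nrm (w (some none) * w none) ((t m K (fun a => w (some (some a))) -
        c K (fun a => w (some (some a)))) * e') ∧
      Nrm (e K (fun a => w (some (some a)))) (w none)) ?_
    exact (FoA.inK m (fun n => (ht n).lift.lift.lift) (TmA.var (some (some none)))).and
      ((FoA.isSquare (TmA.var (some (some none)))).not.and
      ((fopol_pp (m + 1) (fun n => (ht n).lift.lift.lift) ha.lift.lift.lift hg1.lift.lift.lift
        hg2.lift.lift.lift hi.lift.lift.lift (TmA.var (some none))).and
      ((fopol_pp (m + 1) (fun n => (ht n).lift.lift.lift) ha.lift.lift.lift hg1.lift.lift.lift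
        hg2.lift.lift.lift hi.lift.lift.lift (TmA.var none)).and
      ((FoA.nrm ((TmA.var (some (some none))).mul (TmA.var (some none)))
        (((ht m).lift.lift.lift.sub hc.lift.lift.lift).mul (TmA.var none))).and
      (FoA.nrm he.lift.lift.lift (TmA.var (some none)))))))

private def FoPolBody {K : Type} [Field K] (m : ℕ) (t : ℕ → K) (c g a g1 g2 N : K) : Prop :=
  Cst a ∧ NatP (t 0) N ∧ g1 ≠ 0 ∧ g2 ≠ 0 ∧ Sq (m + 1) t a g1 g2 N g ∧
    ∀ i, NatP (t 0) i → (∃ k, NatP (t 0) k ∧ N = i + k) →
      ∀ e, Sq (m + 1) t a g1 g2 i e →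
        Rule m t c (fun y => ∃ j k, NatP (t 0) j ∧ NatP (t 0) k ∧ i = j + k + 1 ∧
          Sq (m + 1) t a g1 g2 j y) e

private theorem fopol_body (m : ℕ) {t : ℕ → ∀ (K : Type) [Field K], (α → K) → K}
    {c g a g1 g2 N : ∀ (K : Type) [Field K], (α → K) → K} (ht : ∀ i, TmA α (t i))
    (hc : TmA α c) (hg : TmA α g) (ha : TmA α a) (hg1 : TmA α g1) (hg2 : TmA α g2)
    (hN : TmA α N) :
    FoA α (fun K _ v => FoPolBody m (fun n => t n K v) (c K v) (g K v) (a K v) (g1 K v)
      (g2 K v) (N K v)) := by
  unfold FoPolBody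
  refine (FoA.cst ha).and ((FoA.natP (ht 0) hN).and ((FoA.eq hg1 TmA.zero).not.and
    ((FoA.eq hg2 TmA.zero).not.and ((FoA.sq (m + 1) ht ha hg1 hg2 hN hg).and ?_))))
  refine FoA.all (R := fun K _ v i => NatP (t 0 K v) i → (∃ k, NatP (t 0 K v) k ∧
    N K v = i + k) → ∀ e, Sq (m + 1) (fun n => t n K v) (a K v) (g1 K v) (g2 K v) i e →
        Rule m (fun n => t n K v) (c K v) (fun y => ∃ j k, NatP (t 0 K v) j ∧
          NatP (t 0 K v) k ∧ i = j + k + 1 ∧
          Sq (m + 1) (fun n => t n K v) (a K v) (g1 K v) (g2 K v) j y) e) ?_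
  refine (FoA.natP (ht 0).lift (TmA.var none)).imp (FoA.imp ?_ ?_)
  · refine FoA.ex (R := fun K _ w k => NatP (t 0 K (fun a => w (some a))) k ∧
      N K (fun a => w (some a)) = w none + k) ?_
    exact (FoA.natP (ht 0).lift.lift (TmA.var none)).and
      (FoA.eq hN.lift.lift ((TmA.var (some none)).add (TmA.var none)))
  · refine FoA.all (R := fun K _ w e => Sq (m + 1) (fun n => t n K (fun a => w (some a)))
      (a K (fun a => w (some a))) (g1 K (fun a => w (some a))) (g2 K (fun a => w (some a)))
      (w none) e →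
        Rule m (fun n => t n K (fun a => w (some a))) (c K (fun a => w (some a)))
          (fun y => ∃ j k, NatP (t 0 K (fun a => w (some a))) j ∧
          NatP (t 0 K (fun a => w (some a))) k ∧ w none = j + k + 1 ∧
          Sq (m + 1) (fun n => t n K (fun a => w (some a))) (a K (fun a => w (some a)))
            (g1 K (fun a => w (some a))) (g2 K (fun a => w (some a))) j y) e) ?_
    exact (FoA.sq (m + 1) (fun n => (ht n).lift.lift) ha.lift.lift hg1.lift.lift hg2.lift.lift
      (TmA.var (some none)) (TmA.var none)).imp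
      (fopol_rule m (fun n => (ht n).lift.lift) hc.lift.lift ha.lift.lift hg1.lift.lift
        hg2.lift.lift (TmA.var (some none)) (TmA.var none))

theorem FoA.evD (m : ℕ) {t : ℕ → ∀ (K : Type) [Field K], (α → K) → K}
    {c g : ∀ (K : Type) [Field K], (α → K) → K} (ht : ∀ i, TmA α (t i)) (hc : TmA α c)
    (hg : TmA α g) : FoA α (fun K _ v => EvD m (fun i => t i K v) (c K v) (g K v)) := by
  refine FoA.ex (R := fun K _ v a => ∃ g1 g2 N,
    FoPolBody m (fun i => t i K v) (c K v) (g K v) a g1 g2 N) ?_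
  refine FoA.ex (R := fun K _ w g1 => ∃ g2 N, FoPolBody m (fun i => t i K (fun a => w (some a)))
    (c K (fun a => w (some a))) (g K (fun a => w (some a))) (w none) g1 g2 N) ?_
  refine FoA.ex (R := fun K _ w g2 => ∃ N,
    FoPolBody m (fun i => t i K (fun a => w (some (some a))))
    (c K (fun a => w (some (some a)))) (g K (fun a => w (some (some a)))) (w (some none))
    (w none) g2 N) ?_
  refine FoA.ex (R := fun K _ w N => FoPolBody m
    (fun i => t i K (fun a => w (some (some (some a)))))
    (c K (fun a => w (some (some (some a))))) (g K (fun a => w (some (some (some a)))))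
    (w (some (some none))) (w (some none)) (w none) N) ?_
  exact fopol_body m (fun n => (ht n).lift.lift.lift.lift) hc.lift.lift.lift.lift
    hg.lift.lift.lift.lift (TmA.var (some (some (some none)))) (TmA.var (some (some none)))
    (TmA.var (some none)) (TmA.var none)

theorem FoA.inO (m : ℕ) {t : ℕ → ∀ (K : Type) [Field K], (α → K) → K}
    {c u : ∀ (K : Type) [Field K], (α → K) → K} (ht : ∀ i, TmA α (t i)) (hc : TmA α c)
    (hu : TmA α u) : FoA α (fun K _ v => InO m (fun i => t i K v) (c K v) (u K v)) := by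
  unfold InO
  exact (FoA.inK (m + 1) ht hu).and (FoA.evD m ht hc
    (TmA.one.add (((ht m).sub hc).mul (hu.pow 2))))

theorem FoA.polD (m : ℕ) {t : ℕ → ∀ (K : Type) [Field K], (α → K) → K}
    {x : ∀ (K : Type) [Field K], (α → K) → K} (ht : ∀ i, TmA α (t i)) (hx : TmA α x) :
    FoA α (fun K _ v => PolD m (fun i => t i K v) (x K v)) := by
  induction m generalizing α with
  | zero => exact FoA.polyP (ht 0) hx
  | succ m ih =>
    refine FoA.and (R := fun K _ v => InK (m + 2) (fun i => t i K v) (x K v))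
      (FoA.inK (m + 2) ht hx) ?_
    refine FoA.all (R := fun K _ v c => Cst c → ∃ r u, PolD m (fun i => t i K v) r ∧
      InO (m + 1) (fun i => t i K v) c u ∧ x K v = r + (t (m + 1) K v - c) * u) ?_
    refine (FoA.cst (TmA.var none)).imp ?_
    refine FoA.ex (R := fun K _ w r => ∃ u, PolD m (fun i => t i K (fun a => w (some a))) r ∧
      InO (m + 1) (fun i => t i K (fun a => w (some a))) (w none) u ∧
      x K (fun a => w (some a)) = r + (t (m + 1) K (fun a => w (some a)) - w none) * u) ?_
    refine FoA.ex (R := fun K _ w u => PolD m (fun i => t i K (fun a => w (some (some a))))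
      (w none) ∧ InO (m + 1) (fun i => t i K (fun a => w (some (some a)))) (w (some none)) u ∧
      x K (fun a => w (some (some a))) = w none +
        (t (m + 1) K (fun a => w (some (some a))) - w (some none)) * u) ?_
    exact (ih (fun n => (ht n).lift.lift.lift) (TmA.var (some none))).and
      ((FoA.inO (m + 1) (fun n => (ht n).lift.lift.lift) (TmA.var (some (some none)))
        (TmA.var none)).and
      (FoA.eq hx.lift.lift.lift ((TmA.var (some none)).add
        (((ht (m + 1)).lift.lift.lift.sub (TmA.var (some (some none)))).mul (TmA.var none)))))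

end MP4369f4
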