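import Pool.Agent.Lib_MP_4369f4_m.Defs

/-! H22 H3: a level m field is the field of fractions of the polynomial ring. -/

namespace MP4369f4

open Polynomial

/-- The polynomial p(X_0, ..., X_(m-1), z). -/
noncomputable def spz (m : ℕ) (z : ℂ) (p : MvPolynomial (Fin (m + 1)) ℂ) :
    MvPolynomial (Fin m) ℂ :=
  MvPolynomial.aeval (Fin.snoc (α := fun _ => MvPolynomial (Fin m) ℂ)
    (fun i : Fin m => MvPolynomial.X i) (MvPolynomial.C z)) p

/-- `pev` as a ring homomorphism. -/
private noncomputable def fracA_hom {F : Type*} [Field F] (m : ℕ) (c : ℂ →+* F) (t : ℕ → F) :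
    MvPolynomial (Fin m) ℂ →+* F := MvPolynomial.eval₂Hom c (fun i : Fin m => t i)

private theorem fracA_hom_apply {F : Type*} [Field F] (m : ℕ) (c : ℂ →+* F) (t : ℕ → F)
    (p : MvPolynomial (Fin m) ℂ) : fracA_hom m c t p = pev m c t p := rfl

/-- p in m + 1 variables, seen in F[X]: the last variable becomes X. -/
theorem exists_polyF {m : ℕ} {F : Type} [Field F] {c : ℂ →+* F} {t : ℕ → F}
    {t' : ℕ → RatFunc F} (ht : ∀ i < m, t' i = RatFunc.C (t i)) (htm : t' m = RatFunc.X)
    (p : MvPolynomial (Fin (m + 1)) ℂ) :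
    ∃ P : F[X], pev (m + 1) ((RatFunc.C : F →+* RatFunc F).comp c) t' p =
        algebraMap F[X] (RatFunc F) P ∧
      ∀ z : ℂ, P.eval (c z) = pev m c t (spz m z p) := by
  set ev : MvPolynomial (Fin (m + 1)) ℂ →+* F[X] :=
    MvPolynomial.eval₂Hom ((Polynomial.C : F →+* F[X]).comp c)
      (Fin.snoc (α := fun _ => F[X]) (fun i : Fin m => Polynomial.C (t i)) Polynomial.X) with hev
  refine ⟨ev p, ?_, fun z => ?_⟩
  · have h : fracA_hom (m + 1) ((RatFunc.C : F →+* RatFunc F).comp c) t' =
        (algebraMap F[X] (RatFunc F)).comp ev := by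
      apply MvPolynomial.ringHom_ext
      · intro r
        simp [fracA_hom, hev]
      · intro i
        refine Fin.lastCases ?_ (fun j => ?_) i
        · simp [fracA_hom, hev, htm]
        · simp [fracA_hom, hev, ht j.1 j.2]
    rw [← fracA_hom_apply, h]
    rfl
  · have h : (Polynomial.evalRingHom (c z)).comp ev = (fracA_hom m c t).comp
        (MvPolynomial.aeval (Fin.snoc (α := fun _ => MvPolynomial (Fin m) ℂ)
          (fun i : Fin m => MvPolynomial.X i) (MvPolynomial.C z)) :
          MvPolynomial (Fin (m + 1)) ℂ →ₐ[ℂ] MvPolynomial (Fin m) ℂ).toRingHom := by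
      apply MvPolynomial.ringHom_ext
      · intro r
        simp [fracA_hom, hev]
      · intro i
        refine Fin.lastCases ?_ (fun j => ?_) i
        · simp [fracA_hom, hev]
        · simp [fracA_hom, hev]
    have h1 := RingHom.congr_fun h p
    exact h1

private theorem fracA_eval_spz {m : ℕ} (z : ℂ) (y : Fin m → ℂ)
    (p : MvPolynomial (Fin (m + 1)) ℂ) :
    MvPolynomial.eval y (spz m z p) =
      MvPolynomial.eval (Fin.snoc (α := fun _ => ℂ) y z) p := by
  have h : (MvPolynomial.eval y).comp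
        (MvPolynomial.aeval (Fin.snoc (α := fun _ => MvPolynomial (Fin m) ℂ)
          (fun i : Fin m => MvPolynomial.X i) (MvPolynomial.C z)) :
          MvPolynomial (Fin (m + 1)) ℂ →ₐ[ℂ] MvPolynomial (Fin m) ℂ).toRingHom =
      MvPolynomial.eval (Fin.snoc (α := fun _ => ℂ) y z) := by
    apply MvPolynomial.ringHom_ext
    · intro r
      simp
    · intro i
      refine Fin.lastCases ?_ (fun j => ?_) i
      · simp
      · simp
  exact RingHom.congr_fun h p

theorem Lv.pev_injective {m : ℕ} {F : Type} [Field F] {c : ℂ →+* F} {t : ℕ → F}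
    (h : Lv m F c t) : Function.Injective (pev m c t) := by
  induction h with
  | zero t =>
    change Function.Injective (fracA_hom 0 (RingHom.id ℂ) t)
    rw [injective_iff_map_eq_zero]
    intro p hp
    rw [MvPolynomial.eq_C_of_isEmpty p] at hp ⊢
    simp only [fracA_hom, MvPolynomial.coe_eval₂Hom, MvPolynomial.eval₂_C, RingHom.id_apply] at hp
    rw [hp, map_zero]
  | succ m F c t t' h ht htm ih =>
    change Function.Injective (fracA_hom (m + 1) ((RatFunc.C : F →+* RatFunc F).comp c) t')
    rw [injective_iff_map_eq_zero]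
    intro p hp
    obtain ⟨P, hP, hPe⟩ := exists_polyF (c := c) ht htm p
    rw [fracA_hom_apply, hP] at hp
    have hP0 : P = 0 := by
      have := (map_eq_zero_iff (algebraMap F[X] (RatFunc F))
        (IsFractionRing.injective F[X] (RatFunc F))).1 hp
      exact this
    have hz : ∀ z : ℂ, spz m z p = 0 := by
      intro z
      have h1 := hPe z
      rw [hP0, Polynomial.eval_zero] at h1
      apply ih
      rw [← h1]
      exact (map_zero (fracA_hom m c t)).symm
    apply MvPolynomial.funext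
    intro x
    rw [map_zero]
    have h2 := fracA_eval_spz (x (Fin.last m)) (fun i => x i.castSucc) p
    rw [hz, map_zero] at h2
    have h3 : (Fin.snoc (α := fun _ => ℂ) (fun i : Fin m => x i.castSucc) (x (Fin.last m))) = x :=
      Fin.snoc_init_self x
    rw [h3] at h2
    exact h2.symm

private theorem fracA_ne {m : ℕ} {F : Type} [Field F] {c : ℂ →+* F} {t : ℕ → F}
    (h : Lv m F c t) {q : MvPolynomial (Fin m) ℂ} (hq : q ≠ 0) : fracA_hom m c t q ≠ 0 := by
  intro h0
  apply hq
  apply h.pev_injective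
  change fracA_hom m c t q = fracA_hom m c t 0
  rw [h0, map_zero]

theorem Lv.exists_frac {m : ℕ} {F : Type} [Field F] {c : ℂ →+* F} {t : ℕ → F}
    (h : Lv m F c t) (x : F) :
    ∃ p q : MvPolynomial (Fin m) ℂ, q ≠ 0 ∧ x = pev m c t p / pev m c t q := by
  induction h with
  | zero t =>
    refine ⟨MvPolynomial.C x, 1, one_ne_zero, ?_⟩
    change x = fracA_hom 0 (RingHom.id ℂ) t _ / fracA_hom 0 (RingHom.id ℂ) t 1
    rw [map_one, div_one]
    simp [fracA_hom]
  | succ m F c t t' h ht htm ih =>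
    have hL : Lv (m + 1) (RatFunc F) ((RatFunc.C : F →+* RatFunc F).comp c) t' :=
      Lv.succ m F c t t' h ht htm
    set e := fracA_hom (m + 1) ((RatFunc.C : F →+* RatFunc F).comp c) t' with he
    change ∃ p q : MvPolynomial (Fin (m + 1)) ℂ, q ≠ 0 ∧ x = e p / e q
    have hne : ∀ q : MvPolynomial (Fin (m + 1)) ℂ, q ≠ 0 → e q ≠ 0 := fun q hq => fracA_ne hL hq
    -- constants
    have hC : ∀ y : F, ∃ p q : MvPolynomial (Fin (m + 1)) ℂ, q ≠ 0 ∧ RatFunc.C y = e p / e q := by
      intro y
      obtain ⟨p, q, hq, hy⟩ := ih y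
      have hr : ∀ s : MvPolynomial (Fin m) ℂ,
          e (MvPolynomial.rename Fin.castSucc s) = RatFunc.C (pev m c t s) := by
        intro s
        have h1 : e.comp (MvPolynomial.rename (R := ℂ) (Fin.castSucc (n := m))).toRingHom =
            (RatFunc.C : F →+* RatFunc F).comp (fracA_hom m c t) := by
          apply MvPolynomial.ringHom_ext
          · intro r
            simp [fracA_hom, he]
          · intro i
            simp [fracA_hom, he, ht i.1 i.2]
        exact RingHom.congr_fun h1 s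
      refine ⟨MvPolynomial.rename Fin.castSucc p, MvPolynomial.rename Fin.castSucc q, ?_, ?_⟩
      · intro h0
        apply hq
        apply MvPolynomial.rename_injective _ (Fin.castSucc_injective m)
        rw [h0, map_zero]
      · rw [hr, hr, ← map_div₀, ← hy]
    have hadd : ∀ a b : RatFunc F, (∃ p q : MvPolynomial (Fin (m + 1)) ℂ, q ≠ 0 ∧ a = e p / e q) →
        (∃ p q : MvPolynomial (Fin (m + 1)) ℂ, q ≠ 0 ∧ b = e p / e q) →
        ∃ p q : MvPolynomial (Fin (m + 1)) ℂ, q ≠ 0 ∧ a + b = e p / e q := by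
      rintro a b ⟨p, q, hq, rfl⟩ ⟨p', q', hq', rfl⟩
      refine ⟨p * q' + q * p', q * q', mul_ne_zero hq hq', ?_⟩
      rw [div_add_div _ _ (hne q hq) (hne q' hq'), map_add, map_mul, map_mul, map_mul]
    have hmul : ∀ a b : RatFunc F, (∃ p q : MvPolynomial (Fin (m + 1)) ℂ, q ≠ 0 ∧ a = e p / e q) →
        (∃ p q : MvPolynomial (Fin (m + 1)) ℂ, q ≠ 0 ∧ b = e p / e q) →
        ∃ p q : MvPolynomial (Fin (m + 1)) ℂ, q ≠ 0 ∧ a * b = e p / e q := by
      rintro a b ⟨p, q, hq, rfl⟩ ⟨p', q', hq', rfl⟩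
      refine ⟨p * p', q * q', mul_ne_zero hq hq', ?_⟩
      rw [div_mul_div_comm, map_mul, map_mul]
    have hinv : ∀ a : RatFunc F, (∃ p q : MvPolynomial (Fin (m + 1)) ℂ, q ≠ 0 ∧ a = e p / e q) →
        ∃ p q : MvPolynomial (Fin (m + 1)) ℂ, q ≠ 0 ∧ a⁻¹ = e p / e q := by
      rintro a ⟨p, q, hq, rfl⟩
      by_cases hp : p = 0
      · refine ⟨0, 1, one_ne_zero, ?_⟩
        simp [hp]
      · refine ⟨q, p, hp, ?_⟩
        rw [inv_div]
    have hXX : ∃ p q : MvPolynomial (Fin (m + 1)) ℂ, q ≠ 0 ∧ (RatFunc.X : RatFunc F) = e p / e q := by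
      refine ⟨MvPolynomial.X (Fin.last m), 1, one_ne_zero, ?_⟩
      rw [map_one, div_one]
      simp [fracA_hom, he, htm]
    have hX : ∀ n : ℕ, ∃ p q : MvPolynomial (Fin (m + 1)) ℂ, q ≠ 0 ∧
        (RatFunc.X : RatFunc F) ^ n = e p / e q := by
      intro n
      induction n with
      | zero =>
        refine ⟨1, 1, one_ne_zero, ?_⟩
        rw [map_one, div_one, pow_zero]
      | succ n ihn =>
        rw [pow_succ]
        exact hmul _ _ ihn hXX
    have hpoly : ∀ A : F[X], ∃ p q : MvPolynomial (Fin (m + 1)) ℂ, q ≠ 0 ∧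
        algebraMap F[X] (RatFunc F) A = e p / e q := by
      intro A
      induction A using Polynomial.induction_on' with
      | add A B hA hB =>
        rw [map_add]
        exact hadd _ _ hA hB
      | monomial n a =>
        rw [← Polynomial.C_mul_X_pow_eq_monomial, map_mul, map_pow, RatFunc.algebraMap_C,
          RatFunc.algebraMap_X]
        exact hmul _ _ (hC a) (hX n)
    rw [← RatFunc.num_div_denom x, div_eq_mul_inv]
    exact hmul _ _ (hpoly _) (hinv _ (hpoly _))

/-- Coprime representation: MvPolynomial (Fin m) ℂ is a unique factorisation domain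
(`IsLocalization.exists_reduced_fraction'`, `IsFractionRing.exists_reduced_fraction`, or divide by
the gcd). -/
theorem Lv.exists_frac_coprime {m : ℕ} {F : Type} [Field F] {c : ℂ →+* F} {t : ℕ → F}
    (h : Lv m F c t) (x : F) :
    ∃ p q : MvPolynomial (Fin m) ℂ, q ≠ 0 ∧ IsRelPrime p q ∧ x = pev m c t p / pev m c t q := by
  obtain ⟨p, q, hq, hx⟩ := h.exists_frac x
  obtain ⟨p', q', g, hrel, hp, hq'⟩ := UniqueFactorizationMonoid.exists_reduced_factors' p q hq
  have hg : g ≠ 0 := by
    rintro rfl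
    rw [zero_mul] at hq'
    exact hq hq'.symm
  have hq0 : q' ≠ 0 := by
    rintro rfl
    rw [mul_zero] at hq'
    exact hq hq'.symm
  refine ⟨p', q', hq0, hrel, ?_⟩
  rw [hx, ← hp, ← hq']
  change fracA_hom m c t (g * p') / fracA_hom m c t (g * q') =
    fracA_hom m c t p' / fracA_hom m c t q'
  rw [map_mul, map_mul, mul_div_mul_left _ _ (fracA_ne h hg)]

end MP4369f4
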