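import Pool.Agent.Lib_MP_4369f4_m.Defs

/-! H22 D1: completeness of the rules, linear case. -/

namespace MP4369f4

open Polynomial

variable {k F : Type} [Field k] [Field F] [CharZero k]

theorem Gen.ne_zero {c : ℂ →+* k} {ι : k →+* F} {x : F} (hx : ∀ z : ℂ, x ≠ ι (c z)) {f : F}
    (h : Gen c ι x f) : f ≠ 0 := by
  induction h with
  | const a ha => exact (map_ne_zero ι).2 ha
  | lin z hz => exact sub_ne_zero.2 (hx z)
  | mul f g _ _ hf hg => exact mul_ne_zero hf hg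
  | sq s hs => exact pow_ne_zero 2 hs
  | rule l y e g hl hg _ _ _ _ _ _ => exact hg

omit [CharZero k] in
private theorem gen_one (c : ℂ →+* k) (ι : k →+* F) (x : F) : Gen c ι x 1 := by
  have h := Gen.const (c := c) (ι := ι) (x := x) 1 one_ne_zero
  rwa [map_one] at h

/-- complex numbers outside a finite set -/
private theorem exists_notMem_finite {S : Set ℂ} (hS : S.Finite) : ∃ z : ℂ, z ∉ S := by
  by_contra hcon
  push Not at hcon
  have h1 : S = Set.univ := Set.eq_univ_of_forall hcon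
  rw [h1] at hS
  exact Set.infinite_univ hS

private theorem exists_sqrt (z : ℂ) : ∃ u : ℂ, u ^ 2 = z := by
  obtain ⟨u, hu⟩ := IsAlgClosed.exists_pow_nat_eq z (n := 2) (by norm_num)
  exact ⟨u, hu⟩

/-- D1, the linear case. Let u be a nonzero complex number and (constants written without c)
γ = u^2/4, μ = u/2, P = a + γ, Q = a γ, ν = (μ^2 - P)/2, l = ν^2 - Q = a (a - u^2)/4,
l3 = 2 P - μ^2 = 2 (a + u^2/8). By PN both l and l3 are nonsquares for all but finitely many u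
(u^2 outside a finite set; - u^2/8 outside a finite set).
T = x^2 - P x + ν^2 = (x + ν)^2 - x μ^2 = (x - P/2)^2 - l3 (μ/2)^2.
(1) T in Gen: rule with y = l3, e = 1, l = l3: Nrm (l3 * l3) x as l3^2 is a square; Nrm T l3 from
Nrm l3 T (`Nrm.symm`).
(2) g = l^2 - l T = - l (x - a)(x - γ) in Gen: rule with y = l T, e = 1, l: Nrm (l^2 T) x since
Nrm T x (from Nrm x T), and Nrm (l T) g, Nrm g (l T).
(3) x - γ in Gen by `lin`; multiply and divide by squares and constants. -/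
theorem gen_linear {c : ℂ →+* k} (hk : PN k c) (ι : k →+* F) (x : F)
    (hx : ∀ p : k[X], p ≠ 0 → p.eval₂ ι x ≠ 0) (a : k) (ha : ∀ z : ℂ, a ≠ c z) :
    Gen c ι x (x - ι a) := by
  have h2k : (2 : k) ≠ 0 := two_ne_zero
  have h2 : (2 : F) ≠ 0 := by
    have h := (map_ne_zero ι).2 h2k
    rwa [map_ofNat] at h
  have ha0 : a ≠ 0 := by
    have h := ha 0
    rwa [map_zero] at h
  -- the choice of u
  have hS1 := hk.2 a ha a ha0
  have hS2 := hk.2 a ha 2 h2k
  have hS3 : {z : ℂ | -z / 8 ∈ {z : ℂ | IsSquare ((2 : k) * (a - c z))}}.Finite := by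
    refine hS2.preimage ?_
    intro z _ w _ hzw
    simp only at hzw
    have h1 : -z / 8 * 8 = -w / 8 * 8 := by rw [hzw]
    have h3 : (8 : ℂ) ≠ 0 := by norm_num
    rw [div_mul_cancel₀ _ h3, div_mul_cancel₀ _ h3] at h1
    exact neg_injective h1
  obtain ⟨z, hz⟩ := exists_notMem_finite ((hS1.union hS3).union (Set.finite_singleton 0))
  have hz1 : ¬ IsSquare (a * (a - c z)) := fun h => hz (Or.inl (Or.inl h))
  have hz2 : ¬ IsSquare ((2 : k) * (a - c (-z / 8))) := fun h => hz (Or.inl (Or.inr h))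
  have hz0 : z ≠ 0 := fun h => hz (Or.inr h)
  obtain ⟨u, hu⟩ := exists_sqrt z
  -- notation in k
  have h4k : (4 : k) ≠ 0 := by norm_num
  have h8k : (8 : k) ≠ 0 := by norm_num
  have hcz : c z ≠ 0 := (map_ne_zero c).2 hz0
  set γ : k := c z / 4 with hγ
  have hγc : γ = c (z / 4) := by rw [map_div₀, map_ofNat]
  set m : k := c u / 2 with hm
  have hm2 : m ^ 2 = γ := by
    rw [hm, hγ, div_pow, ← map_pow, hu]
    norm_num
  set l : k := a ^ 2 / 4 - a * γ with hl
  set l3 : k := 2 * a + γ with hl3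
  have hlns : ¬ IsSquare l := by
    rintro ⟨r, hr⟩
    refine hz1 ⟨2 * r, ?_⟩
    have h1 : a * (a - c z) = 4 * l := by
      rw [hl, hγ]
      field_simp
    rw [h1, hr]
    ring
  have hl3ns : ¬ IsSquare l3 := by
    intro h
    refine hz2 ?_
    have h1 : (2 : k) * (a - c (-z / 8)) = l3 := by
      rw [hl3, hγ, map_div₀, map_neg, map_ofNat]
      field_simp
      ring
    rw [h1]
    exact h
  have hl0 : l ≠ 0 := fun h => hlns (by rw [h]; exact ⟨0, by ring⟩)
  have hl30 : l3 ≠ 0 := fun h => hl3ns (by rw [h]; exact ⟨0, by ring⟩)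
  have hιl : ι l ≠ 0 := (map_ne_zero ι).2 hl0
  have hιl3 : ι l3 ≠ 0 := (map_ne_zero ι).2 hl30
  -- nonvanishing
  have hx0 : x ≠ 0 := by
    have h := hx X X_ne_zero
    rwa [eval₂_X] at h
  have hxlin : ∀ b : k, x - ι b ≠ 0 := by
    intro b
    have h := hx (X - C b) (X_sub_C_ne_zero b)
    rwa [eval₂_sub, eval₂_X, eval₂_C] at h
  set T : F := x ^ 2 - (ι a + ι γ) * x + ι a ^ 2 / 4 with hT
  have h4 : (4 : F) ≠ 0 := by
    have h := (map_ne_zero ι).2 h4k
    rwa [map_ofNat] at h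
  have hT0 : T ≠ 0 := by
    have h1 : (X ^ 2 - C (a + γ) * X + C (a ^ 2 / 4) : k[X]) ≠ 0 := by
      intro h
      have h3 : (X ^ 2 - C (a + γ) * X + C (a ^ 2 / 4) : k[X]).coeff 2 = 1 := by
        simp
      rw [h, coeff_zero] at h3
      exact zero_ne_one h3
    have h := hx _ h1
    intro h3
    refine h ?_
    rw [eval₂_add, eval₂_sub, eval₂_mul, eval₂_pow, eval₂_X, eval₂_C, eval₂_C,
      map_add ι a γ, map_div₀ ι (a ^ 2) 4, map_pow ι a 2, map_ofNat ι 4]
    rw [hT] at h3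
    exact h3
  have hιl_eq : ι l = ι a ^ 2 / 4 - ι a * ι γ := by
    rw [hl, map_sub, map_div₀, map_pow, map_mul, map_ofNat]
  have hιl3_eq : ι l3 = 2 * ι a + ι γ := by
    rw [hl3, map_add, map_mul, map_ofNat]
  have hιm : ι m ^ 2 = ι γ := by rw [← map_pow, hm2]
  -- (1)
  have hN1 : Nrm (ι l3) T := by
    refine ⟨x - (ι a + ι γ) / 2, ι m / 2, ?_⟩
    rw [div_pow, hιm, hιl3_eq, hT]
    field_simp
    ring
  have hN2 : Nrm x T := by
    refine ⟨x - ι a / 2, ι m, ?_⟩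
    rw [hιm, hT]
    field_simp
    ring
  have hGT : Gen c ι x T := by
    refine Gen.rule l3 (ι l3) 1 T hl3ns hT0 (Gen.const l3 hl30) (gen_one c ι x) ?_ ?_
    · exact Nrm.of_isSquare_left h2 (mul_ne_zero hιl3 hιl3) ⟨ι l3, rfl⟩
    · exact hN1.symm h2 hιl3 hT0
  -- (2)
  set g : F := -(ι l) * (x - ι a) * (x - ι γ) with hg
  have hg0 : g ≠ 0 := mul_ne_zero (mul_ne_zero (neg_ne_zero.2 hιl) (hxlin a)) (hxlin γ)
  have hlT0 : ι l * T ≠ 0 := mul_ne_zero hιl hT0
  have hN3 : Nrm (ι l * T) g := by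
    refine ⟨ι l, 1, ?_⟩
    rw [hg, hT, hιl_eq]
    ring
  have hGg : Gen c ι x g := by
    refine Gen.rule l (ι l * T) 1 g hlns hg0 (Gen.mul _ _ (Gen.const l hl0) hGT) (gen_one c ι x)
      ?_ ?_
    · have h1 : ι l * (ι l * T) = T * (ι l) ^ 2 := by ring
      rw [h1, mul_one, Nrm.sq_mul_left_iff hιl]
      exact hN2.symm h2 hx0 hT0
    · exact hN3.symm h2 hlT0 hg0
  -- (3)
  have hz4 : z / 4 ≠ 0 := div_ne_zero hz0 (by norm_num)
  have hGγ : Gen c ι x (x - ι γ) := by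
    have h := Gen.lin (c := c) (ι := ι) (x := x) (z / 4) hz4
    rwa [← hγc] at h
  have hGc : Gen c ι x (ι (-l⁻¹)) := Gen.const _ (neg_ne_zero.2 (inv_ne_zero hl0))
  have hGs : Gen c ι x ((x - ι γ)⁻¹ ^ 2) := Gen.sq _ (inv_ne_zero (hxlin γ))
  have hfin : x - ι a = g * ι (-l⁻¹) * (x - ι γ) * (x - ι γ)⁻¹ ^ 2 := by
    have h1 := hxlin γ
    rw [hg, map_neg, map_inv₀]
    field_simp
  rw [hfin]
  exact Gen.mul _ _ (Gen.mul _ _ (Gen.mul _ _ hGg hGc) hGγ) hGs

/-- A nonsquare of the form s^2 - b, b not 0: for b nonconstant take s constant (PN, - 1 is a square);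
for b constant take s = z τ, τ nonconstant: s^2 - b = z^2 (τ^2 - b/z^2), and τ^2 is nonconstant. -/
theorem exists_sq_sub {c : ℂ →+* k} (hk : PN k c) (b : k) (hb : b ≠ 0) :
    ∃ s : k, ¬ IsSquare (s ^ 2 - b) := by
  by_cases hcb : ∀ z : ℂ, b ≠ c z
  · have hS := hk.2 b hcb (-1) (neg_ne_zero.2 one_ne_zero)
    obtain ⟨z, hz⟩ := exists_notMem_finite hS
    obtain ⟨u, hu⟩ := exists_sqrt z
    refine ⟨c u, ?_⟩
    intro h
    refine hz ?_
    have h1 : (-1 : k) * (b - c z) = c u ^ 2 - b := by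
      rw [← map_pow, hu]
      ring
    change IsSquare ((-1 : k) * (b - c z))
    rw [h1]
    exact h
  · push Not at hcb
    obtain ⟨β, rfl⟩ := hcb
    have hβ : β ≠ 0 := by
      rintro rfl
      exact hb (map_zero c)
    obtain ⟨τ, hτ⟩ := hk.1
    have hτ2 : ∀ w : ℂ, τ ^ 2 ≠ c w := by
      intro w hw
      obtain ⟨v, hv⟩ := exists_sqrt w
      rw [← hv, map_pow] at hw
      rcases sq_eq_sq_iff_eq_or_eq_neg.1 hw with h | h
      · exact hτ v h
      · rw [← map_neg] at h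
        exact hτ (-v) h
    have hS := hk.2 (τ ^ 2) hτ2 1 one_ne_zero
    obtain ⟨w, hw⟩ := exists_notMem_finite (hS.union (Set.finite_singleton 0))
    have hw1 : ¬ IsSquare ((1 : k) * (τ ^ 2 - c w)) := fun h => hw (Or.inl h)
    have hw0 : w ≠ 0 := fun h => hw (Or.inr h)
    obtain ⟨v, hv⟩ := exists_sqrt (β / w)
    have hv0 : v ≠ 0 := by
      rintro rfl
      have h1 : β / w ≠ 0 := div_ne_zero hβ hw0
      rw [← hv] at h1
      simp at h1
    have hcv : c v ≠ 0 := (map_ne_zero c).2 hv0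
    have hβw : β = v ^ 2 * w := by
      rw [hv]
      field_simp
    refine ⟨c v * τ, ?_⟩
    rintro ⟨r, hr⟩
    refine hw1 ⟨r / c v, ?_⟩
    have h1 : (c v * τ) ^ 2 - c β = (c v) ^ 2 * (τ ^ 2 - c w) := by
      rw [hβw, map_mul, map_pow]
      ring
    rw [h1] at hr
    field_simp
    rw [pow_two r, ← hr]
    ring

end MP4369f4
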