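import Pool.Agent.Lib_MP_4369f4_m.GenLin

/-! H22 D2: completeness of the rules. -/

namespace MP4369f4

open Polynomial

variable {k F : Type} [Field k] [Field F] [CharZero k]

omit [CharZero k] in
private theorem GenPoly_even (n : ℕ) (G : k[X]) (hG : G.Monic) (hd : G.natDegree = 2 * (n + 1))
    (s : k) : ((X ^ (n + 1) + C s) ^ 2 - G).natDegree < G.natDegree := by
  have hw : (X ^ (n + 1) + C s : k[X]).Monic := monic_X_pow_add_C s (Nat.succ_ne_zero n)
  have hw2 : ((X ^ (n + 1) + C s : k[X]) ^ 2).Monic := hw.pow 2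
  have hdw : ((X ^ (n + 1) + C s : k[X]) ^ 2).natDegree = 2 * (n + 1) := by
    rw [natDegree_pow, natDegree_X_pow_add_C]
  by_cases h0 : (X ^ (n + 1) + C s) ^ 2 - G = 0
  · rw [h0, natDegree_zero, hd]
    omega
  · have h1 : ((X ^ (n + 1) + C s : k[X]) ^ 2).degree = G.degree := by
      rw [degree_eq_natDegree hw2.ne_zero, degree_eq_natDegree hG.ne_zero, hdw, hd]
    have h2 := degree_sub_lt_left h1 hw2.ne_zero (by rw [hw2.leadingCoeff, hG.leadingCoeff])
    rw [h1] at h2
    exact natDegree_lt_natDegree h0 h2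

private theorem GenPoly_odd (n : ℕ) (G : k[X]) (hG : G.Monic) (hd : G.natDegree = 2 * n + 3) :
    ∃ a : k, ∀ s : k, ((X ^ (n + 2) + C a * X ^ (n + 1) + C s) ^ 2 - G * (X - 1)).natDegree <
      G.natDegree := by
  set b : k := G.coeff (2 * n + 2) with hb
  set R : k[X] := G - X ^ (2 * n + 3) - C b * X ^ (2 * n + 2) with hR
  have hRd : R.natDegree ≤ 2 * n + 1 := by
    rw [natDegree_le_iff_coeff_eq_zero]
    intro N hN
    rw [hR, coeff_sub, coeff_sub, coeff_X_pow, coeff_C_mul, coeff_X_pow]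
    rcases Nat.lt_trichotomy N (2 * n + 3) with h | h | h
    · have h1 : N = 2 * n + 2 := by omega
      rw [if_neg (by omega), if_pos h1, h1, hb]
      ring
    · have h1 : G.coeff N = 1 := by
        have := hG.coeff_natDegree
        rwa [hd, ← h] at this
      rw [if_pos h, if_neg (by omega), h1]
      ring
    · have h1 : G.coeff N = 0 := coeff_eq_zero_of_natDegree_lt (by omega)
      rw [if_neg (by omega), if_neg (by omega), h1]
      ring
  refine ⟨(b - 1) / 2, fun s => ?_⟩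
  set a : k := (b - 1) / 2 with ha
  have hab : b = 2 * a + 1 := by
    rw [ha]
    field_simp
    ring
  have hGR : G = X ^ (2 * n + 3) + C b * X ^ (2 * n + 2) + R := by
    rw [hR]
    ring
  have key : (X ^ (n + 2) + C a * X ^ (n + 1) + C s) ^ 2 - G * (X - 1) =
      C (a ^ 2 + b) * X ^ (2 * n + 2) + C (2 * s) * X ^ (n + 2) + C (2 * s * a) * X ^ (n + 1) +
        C (s ^ 2) - R * (X - 1) := by
    rw [hGR, hab]
    simp only [map_add, map_mul, map_pow, map_ofNat, map_one]
    ring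
  have hX1 : (X - 1 : k[X]).natDegree ≤ 1 := by
    have h1 := natDegree_X_sub_C_le (1 : k)
    rwa [C_1] at h1
  have : ((X ^ (n + 2) + C a * X ^ (n + 1) + C s) ^ 2 - G * (X - 1)).natDegree ≤ 2 * n + 2 := by
    rw [key]
    refine (natDegree_sub_le _ _).trans (max_le (natDegree_add_le_of_degree_le
      (natDegree_add_le_of_degree_le (natDegree_add_le_of_degree_le ?_ ?_) ?_) ?_) ?_)
    · exact natDegree_C_mul_X_pow_le _ _
    · exact (natDegree_C_mul_X_pow_le _ _).trans (by omega)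
    · exact (natDegree_C_mul_X_pow_le _ _).trans (by omega)
    · exact (natDegree_C (s ^ 2)).le.trans (Nat.zero_le _)
    · exact natDegree_mul_le.trans (by omega)
  omega

private theorem GenPoly_sq (G : k[X]) (hG : G.Monic) (hd : 2 ≤ G.natDegree) :
    ∃ q w : k[X], (q = 1 ∨ q = X - 1) ∧ w.eval 0 = 0 ∧
      ∀ s : k, ((w + C s) ^ 2 - G * q).natDegree < G.natDegree := by
  rcases Nat.even_or_odd' G.natDegree with ⟨m, hm | hm⟩
  · obtain ⟨n, rfl⟩ : ∃ n, m = n + 1 := ⟨m - 1, by omega⟩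
    refine ⟨1, X ^ (n + 1), Or.inl rfl, by simp, fun s => ?_⟩
    rw [mul_one]
    exact GenPoly_even n G hG hm s
  · obtain ⟨n, rfl⟩ : ∃ n, m = n + 1 := ⟨m - 1, by omega⟩
    obtain ⟨a, ha⟩ := GenPoly_odd n G hG (by omega)
    exact ⟨X - 1, X ^ (n + 2) + C a * X ^ (n + 1), Or.inr rfl, by simp, ha⟩

omit [CharZero k] in
private theorem GenPoly_one {c : ℂ →+* k} (ι : k →+* F) (x : F) : Gen c ι x 1 := by
  have h := Gen.const (c := c) (ι := ι) (x := x) (1 : k) one_ne_zero
  rwa [map_one] at h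

private theorem GenPoly_e (l : k) (hl : l ≠ 0) (y : k[X]) (hy : y.eval 0 = l) (d : ℕ) (hd : 2 ≤ d)
    (hyd : y.natDegree < d) :
    ∃ (u : k) (e : k[X]), e.eval 0 ≠ 0 ∧ e.natDegree < d ∧
      (C l + C u * X) ^ 2 - C l * y = X * e := by
  obtain ⟨u, hu⟩ : ∃ u : k, 2 * u ≠ y.coeff 1 := by
    by_cases h : y.coeff 1 = 0
    · exact ⟨1, by rw [h]; norm_num⟩
    · exact ⟨0, by rw [mul_zero]; exact fun h' => h h'.symm⟩
  set p : k[X] := (C l + C u * X) ^ 2 - C l * y with hp
  have hp0 : p.coeff 0 = 0 := by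
    rw [← hy, ← coeff_zero_eq_eval_zero] at hp
    rw [hp, coeff_zero_eq_eval_zero, coeff_zero_eq_eval_zero]
    simp
    ring
  have hpX : p = X * p.divX := by
    conv_lhs => rw [← divX_mul_X_add p, hp0]
    rw [C_0, add_zero, mul_comm]
  have hpd : p.natDegree ≤ d := by
    rw [hp]
    refine (natDegree_sub_le _ _).trans (max_le ?_ ?_)
    · refine natDegree_pow_le.trans ?_
      have h1 : (C l + C u * X).natDegree ≤ 1 := by
        refine natDegree_add_le_of_degree_le ?_ ?_
        · rw [natDegree_C]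
          exact Nat.zero_le _
        · exact (natDegree_C_mul_le _ _).trans natDegree_X_le
      omega
    · exact (natDegree_C_mul_le _ _).trans hyd.le
  refine ⟨u, p.divX, ?_, ?_, hpX⟩
  · rw [← coeff_zero_eq_eval_zero, coeff_divX, zero_add]
    have h1 : p.coeff 1 = l * (2 * u - y.coeff 1) := by
      have h2 : p = C (l ^ 2) + C (2 * l * u) * X + C (u ^ 2) * X ^ 2 - C l * y := by
        rw [hp]
        simp only [map_mul, map_pow, map_ofNat]
        ring
      rw [h2, coeff_sub, coeff_add, coeff_add, coeff_C_mul, coeff_C_mul, coeff_C_mul, coeff_X_one,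
        coeff_X_pow, coeff_C]
      norm_num
      ring
    rw [h1]
    exact mul_ne_zero hl (sub_ne_zero.2 hu)
  · rw [natDegree_divX_eq_natDegree_tsub_one]
    omega

private theorem GenPoly_monic {c : ℂ →+* k} (hk : PN k c) (ι : k →+* F) (x : F)
    (hx : ∀ p : k[X], p ≠ 0 → p.eval₂ ι x ≠ 0) (G : k[X]) (hG : G.eval 0 ≠ 0) (hm : G.Monic)
    (hd : 2 ≤ G.natDegree)
    (ih : ∀ H : k[X], H.natDegree < G.natDegree → H.eval 0 ≠ 0 → Gen c ι x (H.eval₂ ι x)) :
    Gen c ι x (G.eval₂ ι x) := by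
  obtain ⟨q, w, hq, hw0, hw⟩ := GenPoly_sq G hm hd
  have hq0 : q.eval 0 ≠ 0 := by
    rcases hq with rfl | rfl <;> simp
  have hqn : q ≠ 0 := by
    rintro rfl
    simp at hq0
  have hqx : q.eval₂ ι x ≠ 0 := hx q hqn
  have hqG : Gen c ι x (q.eval₂ ι x) := by
    rcases hq with rfl | rfl
    · rw [eval₂_one]
      exact GenPoly_one ι x
    · have h := Gen.lin (c := c) (ι := ι) (x := x) (1 : ℂ) one_ne_zero
      rw [eval₂_sub, eval₂_X, eval₂_one]
      rwa [map_one, map_one] at h
  obtain ⟨s, hs⟩ := exists_sq_sub hk (G.eval 0 * q.eval 0) (mul_ne_zero hG hq0)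
  set l : k := s ^ 2 - G.eval 0 * q.eval 0 with hl
  have hl0 : l ≠ 0 := by
    intro h
    rw [h] at hs
    exact hs ⟨0, by simp⟩
  set y : k[X] := (w + C s) ^ 2 - G * q with hy
  have hyl : y.eval 0 = l := by
    rw [hy, hl]
    simp [hw0]
  obtain ⟨u, e, he0, hed, he⟩ := GenPoly_e l hl0 y hyl G.natDegree hd (hw s)
  have hyG : Gen c ι x (y.eval₂ ι x) := ih y (hw s) (by rw [hyl]; exact hl0)
  have heG : Gen c ι x (e.eval₂ ι x) := ih e hed he0
  have hGn : G ≠ 0 := hm.ne_zero
  have hgne : (G * q).eval₂ ι x ≠ 0 := hx _ (mul_ne_zero hGn hqn)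
  have h1 : Nrm (ι l * y.eval₂ ι x) (x * e.eval₂ ι x) := by
    refine ⟨(C l + C u * X).eval₂ ι x, 1, ?_⟩
    have h2 := congrArg (Polynomial.eval₂RingHom ι x) he
    simp only [map_sub, map_mul, map_pow, coe_eval₂RingHom, eval₂_C, eval₂_X] at h2
    rw [one_pow, mul_one]
    exact h2
  have h2 : Nrm ((G * q).eval₂ ι x) (y.eval₂ ι x) := by
    refine ⟨(w + C s).eval₂ ι x, 1, ?_⟩
    rw [hy, one_pow, mul_one, eval₂_sub, eval₂_pow]
  have h3 : Gen c ι x ((G * q).eval₂ ι x) := Gen.rule l _ _ _ hs hgne hyG heG h1 h2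
  have h4 : G.eval₂ ι x = (G * q).eval₂ ι x * q.eval₂ ι x * (q.eval₂ ι x)⁻¹ ^ 2 := by
    rw [eval₂_mul]
    field_simp
  rw [h4]
  exact (h3.mul _ _ hqG).mul _ _ (Gen.sq _ (inv_ne_zero hqx))

/-- D2. Strong induction on the degree d of G; we may assume G monic. d = 0: constant. d = 1:
`lin` or `gen_linear`. d >= 2: if d is even let q = 1, w = X^(d/2) + s; if d is odd, d = 2 m' - 1, let
q = X - 1, w = X^m' + s' X^(m'-1) + s with s' chosen such that y = w^2 - G q has degree < d
(s' = (G_{d-1} - 1)/2); s with l := s^2 - G(0) q(0) = y(0) a nonsquare (`exists_sq_sub`).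
e = ((l + λ X)^2 - l y)/X with λ in {0, 1} such that e(0) is not 0 (e(0) = l (2 λ - y_1)),
deg e < d. By induction y, e in Gen, q in Gen by `lin`. Rule for g = G q:
Nrm (G q) y as y = w^2 - G q 1^2; l y = (l + λ x)^2 - x e gives Nrm (x e) (l y), `Nrm.symm`. Finally
G = G q * q * (q^(-1))^2. -/
theorem gen_poly {c : ℂ →+* k} (hk : PN k c) (ι : k →+* F) (x : F)
    (hx : ∀ p : k[X], p ≠ 0 → p.eval₂ ι x ≠ 0) (G : k[X]) (hG : G.eval 0 ≠ 0) :
    Gen c ι x (G.eval₂ ι x) := by
  induction hn : G.natDegree using Nat.strong_induction_on generalizing G with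
  | _ n ih =>
    have hG0 : G ≠ 0 := by
      rintro rfl
      simp at hG
    have hlc : G.leadingCoeff ≠ 0 := leadingCoeff_ne_zero.2 hG0
    rcases Nat.lt_or_ge n 2 with h2 | h2
    · have hG1 : G = C (G.coeff 1) * X + C (G.coeff 0) :=
        eq_X_add_C_of_natDegree_le_one (by omega)
      have hc0 : G.coeff 0 ≠ 0 := by
        rw [coeff_zero_eq_eval_zero]
        exact hG
      by_cases h1 : G.coeff 1 = 0
      · rw [hG1, h1, C_0, zero_mul, zero_add, eval₂_C]
        exact Gen.const _ hc0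
      · have h3 : G.eval₂ ι x = ι (G.coeff 1) * (x - ι (-(G.coeff 0) / G.coeff 1)) := by
          conv_lhs => rw [hG1]
          rw [eval₂_add, eval₂_mul, eval₂_C, eval₂_X, eval₂_C, mul_sub, ← map_mul,
            mul_div_cancel₀ _ h1, map_neg]
          ring
        rw [h3]
        refine (Gen.const _ h1).mul _ _ ?_
        by_cases h4 : ∃ z : ℂ, -(G.coeff 0) / G.coeff 1 = c z
        · obtain ⟨z, hz⟩ := h4
          rw [hz]
          refine Gen.lin z ?_
          rintro rfl
          rw [map_zero] at hz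
          exact div_ne_zero (neg_ne_zero.2 hc0) h1 hz
        · push Not at h4
          exact gen_linear hk ι x hx _ h4
    · have hH : (C G.leadingCoeff⁻¹ * G).Monic := by
        rw [mul_comm]
        exact monic_mul_leadingCoeff_inv hG0
      have hHd : (C G.leadingCoeff⁻¹ * G).natDegree = G.natDegree :=
        natDegree_C_mul (inv_ne_zero hlc)
      have hH0 : (C G.leadingCoeff⁻¹ * G).eval 0 ≠ 0 := by
        rw [eval_mul, eval_C]
        exact mul_ne_zero (inv_ne_zero hlc) hG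
      have h5 := GenPoly_monic hk ι x hx (C G.leadingCoeff⁻¹ * G) hH0 hH (by omega)
        (fun H hHn hHe => ih H.natDegree (by omega) H hHe rfl)
      have h6 : G.eval₂ ι x = ι G.leadingCoeff * (C G.leadingCoeff⁻¹ * G).eval₂ ι x := by
        rw [eval₂_mul, eval₂_C, ← mul_assoc, ← map_mul, mul_inv_cancel₀ hlc, map_one, one_mul]
      rw [h6]
      exact (Gen.const _ hlc).mul _ _ h5

/-- For F = k(X), x = X - z: substitute X + z. -/
theorem gen_of_evOrd {c : ℂ →+* k} (hk : PN k c) (z : ℂ) {g : RatFunc k} (hg : EvOrd (c z) g) :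
    Gen c (RatFunc.C : k →+* RatFunc k) (RatFunc.X - RatFunc.C (c z)) g := by
  obtain ⟨G, s, hG, hs, rfl⟩ := hg
  have hev : ∀ p : k[X], p.eval₂ (RatFunc.C : k →+* RatFunc k) (RatFunc.X - RatFunc.C (c z)) =
      algebraMap k[X] (RatFunc k) (p.comp (X - C (c z))) := by
    intro p
    have h1 : (RatFunc.X - RatFunc.C (c z) : RatFunc k) =
        algebraMap k[X] (RatFunc k) (X - C (c z)) := by
      rw [map_sub, RatFunc.algebraMap_X, RatFunc.algebraMap_C]
    have h2 : (RatFunc.C : k →+* RatFunc k) = (algebraMap k[X] (RatFunc k)).comp C := by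
      ext a
      rw [RingHom.comp_apply, RatFunc.algebraMap_C]
    rw [h1, h2, ← Polynomial.hom_eval₂]
    rfl
  refine Gen.mul _ _ ?_ (Gen.sq s hs)
  have h3 := gen_poly hk (RatFunc.C : k →+* RatFunc k) (RatFunc.X - RatFunc.C (c z)) ?_
    (G.comp (X + C (c z))) ?_
  · rw [hev, comp_assoc] at h3
    simpa using h3
  · intro p hp h
    rw [hev, map_eq_zero_iff _ (IsFractionRing.injective k[X] (RatFunc k))] at h
    have h4 := congrArg (fun r : k[X] => r.comp (X + C (c z))) h
    simp only [comp_assoc, zero_comp] at h4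
    apply hp
    simpa using h4
  · rw [eval_comp]
    simpa using hG

end MP4369f4
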