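import Pool.Agent.Lib_MP_4369f4_m.Lead

/-! H22 C2: the place X = θ of K(X), θ in an extension L of K. -/

namespace MP4369f4

open Polynomial

/-- Substitution X -> X + θ, with values in power series. -/
private noncomputable def place0Psi (L : Type) [Field L] (θ : L) : L[X] →+* PowerSeries L :=
  Polynomial.eval₂RingHom (PowerSeries.C : L →+* PowerSeries L)
    (PowerSeries.X + PowerSeries.C θ)

private theorem place0Psi_C {L : Type} [Field L] (θ a : L) :
    place0Psi L θ (C a) = PowerSeries.C a := by
  simp [place0Psi]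

private theorem place0Psi_X {L : Type} [Field L] (θ : L) :
    place0Psi L θ X = PowerSeries.X + PowerSeries.C θ := by
  simp [place0Psi]

private theorem place0Psi_sub {L : Type} [Field L] (θ : L) :
    place0Psi L θ (X - C θ) = PowerSeries.X := by
  rw [map_sub, place0Psi_X, place0Psi_C]; ring

private theorem place0Psi_const {L : Type} [Field L] (θ : L) (H : L[X]) :
    PowerSeries.constantCoeff (place0Psi L θ H) = H.eval θ := by
  have h : (PowerSeries.constantCoeff (R := L)).comp (place0Psi L θ) = Polynomial.evalRingHom θ := by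
    apply Polynomial.ringHom_ext
    · intro a
      simp [place0Psi_C]
    · simp [place0Psi_X]
  have := congrArg (fun f : L[X] →+* L => f H) h
  simpa using this

private theorem place0Psi_eq {L : Type} [Field L] (θ : L) (G : L[X]) (hG : G ≠ 0) :
    ∃ g : PowerSeries L, PowerSeries.constantCoeff g ≠ 0 ∧
      place0Psi L θ G = PowerSeries.X ^ (G.rootMultiplicity θ) * g := by
  obtain ⟨H, hH, hnd⟩ := Polynomial.exists_eq_pow_rootMultiplicity_mul_and_not_dvd G hG θ
  refine ⟨place0Psi L θ H, ?_, ?_⟩
  · rw [place0Psi_const]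
    intro h0
    exact hnd (Polynomial.dvd_iff_isRoot.mpr h0)
  · conv_lhs => rw [hH]
    rw [map_mul, map_pow, place0Psi_sub]

/-- K[X] -> L[X] -> (Taylor at θ) L[X] -> L[[tau]] -> L((tau)) is injective, so it extends to K(X)
(`RatFunc.liftRingHom` or `IsFractionRing.lift`). G.map = (X - θ)^n H with H(θ) not 0. -/
theorem exists_place {K L : Type} [Field K] [Field L] [Algebra K L] (θ : L) :
    ∃ j : RatFunc K →+* LaurentSeries L,
      (∀ a : K, j (RatFunc.C a) = HahnSeries.C (algebraMap K L a)) ∧
      ∀ G : K[X], G ≠ 0 → ∃ g : PowerSeries L, PowerSeries.constantCoeff g ≠ 0 ∧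
        j (algebraMap K[X] (RatFunc K) G) =
          tau L ^ ((G.map (algebraMap K L)).rootMultiplicity θ : ℤ) *
            HahnSeries.ofPowerSeries ℤ L g := by
  set φ : K[X] →+* LaurentSeries L := (HahnSeries.ofPowerSeries ℤ L).comp
    ((place0Psi L θ).comp (Polynomial.mapRingHom (algebraMap K L))) with hφ
  have hval : ∀ G : K[X], G ≠ 0 → ∃ g : PowerSeries L, PowerSeries.constantCoeff g ≠ 0 ∧
      φ G = tau L ^ ((G.map (algebraMap K L)).rootMultiplicity θ : ℤ) *
            HahnSeries.ofPowerSeries ℤ L g := by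
    intro G hG
    have hG' : G.map (algebraMap K L) ≠ 0 := by
      rw [Ne, Polynomial.map_eq_zero]; exact hG
    obtain ⟨g, hg, hge⟩ := place0Psi_eq θ (G.map (algebraMap K L)) hG'
    refine ⟨g, hg, ?_⟩
    have h1 : φ G = HahnSeries.ofPowerSeries ℤ L (place0Psi L θ (G.map (algebraMap K L))) := by
      simp [hφ]
    rw [h1, hge, map_mul, map_pow, zpow_natCast]
    rfl
  have htau : tau L ≠ 0 := by
    intro h0
    have h1 : (PowerSeries.X : PowerSeries L) = 0 := by
      apply HahnSeries.ofPowerSeries_injective (Γ := ℤ) (R := L)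
      rw [map_zero]; exact h0
    exact PowerSeries.X_ne_zero h1
  have hinj : Function.Injective φ := by
    rw [injective_iff_map_eq_zero]
    intro G hG0
    by_contra hG
    obtain ⟨g, hg, hge⟩ := hval G hG
    rw [hG0] at hge
    have h2 := hge.symm
    rcases mul_eq_zero.mp h2 with h3 | h3
    · exact (zpow_ne_zero _ htau) h3
    · have h4 : g = 0 := by
        apply HahnSeries.ofPowerSeries_injective (Γ := ℤ) (R := L)
        rw [map_zero]; exact h3
      rw [h4] at hg
      simp at hg
  refine ⟨IsFractionRing.lift (A := K[X]) (K := RatFunc K) hinj, ?_, ?_⟩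
  · intro a
    have h1 : (RatFunc.C a : RatFunc K) = algebraMap K[X] (RatFunc K) (C a) := by
      rw [RatFunc.algebraMap_C]
    rw [h1, IsFractionRing.lift_algebraMap]
    have h2 : φ (C a) = HahnSeries.ofPowerSeries ℤ L (PowerSeries.C (algebraMap K L a)) := by
      simp [hφ, place0Psi_C]
    rw [h2, HahnSeries.ofPowerSeries_C]
  · intro G hG
    rw [IsFractionRing.lift_algebraMap]
    exact hval G hG

end MP4369f4
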