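import Pool.Agent.Lib_MP_4369f4_m.QuadC

/-! H22 A2: systems of quadratic forms over k(X) (Tsen-Lang). -/

namespace MP4369f4

open Polynomial

/-- The coefficient of X^l in the form evaluated at polynomials. -/
private theorem QuadStep_coeff {k : Type} [Field k] {ι : Type} [Fintype ι] {D : ℕ}
    (B : ι → ι → k[X]) (y : ι × Fin (D + 1) → k) (l : ℕ) :
    (∑ a, ∑ b, B a b * (∑ s : Fin (D + 1), C (y (a, s)) * X ^ (s : ℕ)) *
      (∑ s : Fin (D + 1), C (y (b, s)) * X ^ (s : ℕ))).coeff l =
    ∑ p : ι × Fin (D + 1), ∑ q : ι × Fin (D + 1),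
      (B p.1 q.1 * X ^ ((p.2 : ℕ) + (q.2 : ℕ))).coeff l * y p * y q := by
  have h1 : (∑ a, ∑ b, B a b * (∑ s : Fin (D + 1), C (y (a, s)) * X ^ (s : ℕ)) *
      (∑ s : Fin (D + 1), C (y (b, s)) * X ^ (s : ℕ))) =
      ∑ p : ι × Fin (D + 1), ∑ q : ι × Fin (D + 1),
        C (y p * y q) * (B p.1 q.1 * X ^ ((p.2 : ℕ) + (q.2 : ℕ))) := by
    rw [Fintype.sum_prod_type]
    refine Finset.sum_congr rfl fun a _ => ?_
    have h2 : ∀ s : Fin (D + 1), ∑ q : ι × Fin (D + 1),
        C (y (a, s) * y q) * (B (a, s).1 q.1 * X ^ (((a, s).2 : ℕ) + (q.2 : ℕ))) =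
        ∑ b, ∑ s' : Fin (D + 1),
          C (y (a, s) * y (b, s')) * (B a b * X ^ ((s : ℕ) + (s' : ℕ))) := by
      intro s
      rw [Fintype.sum_prod_type]
    rw [Finset.sum_congr rfl fun s _ => h2 s, Finset.sum_comm]
    refine Finset.sum_congr rfl fun b _ => ?_
    rw [mul_assoc, Finset.sum_mul_sum, Finset.mul_sum]
    refine Finset.sum_congr rfl fun s _ => ?_
    rw [Finset.mul_sum]
    refine Finset.sum_congr rfl fun s' _ => ?_
    rw [C_mul, pow_add]
    ring
  rw [h1, finsetSum_coeff]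
  refine Finset.sum_congr rfl fun p _ => ?_
  rw [finsetSum_coeff]
  refine Finset.sum_congr rfl fun q _ => ?_
  rw [coeff_C_mul]
  ring

/-- The polynomial version of the argument. -/
private theorem QuadStep_poly {k : Type} [Field k] {mu : ℕ} (h : TL k mu)
    (ι κ : Type) [Fintype ι] [Fintype κ] (B : κ → ι → ι → k[X])
    (hc : 2 * mu * Fintype.card κ < Fintype.card ι) :
    ∃ w : ι → k[X], w ≠ 0 ∧ ∀ i : κ, ∑ a, ∑ b, B i a b * w a * w b = 0 := by
  classical
  obtain ⟨δ, hδ⟩ : ∃ δ : ℕ, ∀ i a b, (B i a b).natDegree ≤ δ := by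
    refine ⟨Finset.univ.sup fun p : κ × ι × ι => (B p.1 p.2.1 p.2.2).natDegree, fun i a b => ?_⟩
    exact Finset.le_sup (f := fun p : κ × ι × ι => (B p.1 p.2.1 p.2.2).natDegree)
      (Finset.mem_univ (i, a, b))
  set r := Fintype.card κ with hr
  set D := mu * r * (δ + 1) with hD
  obtain ⟨y, hy0, hy⟩ := h (ι × Fin (D + 1)) (κ × Fin (2 * D + δ + 1))
    (fun il p q => (B il.1 p.1 q.1 * X ^ ((p.2 : ℕ) + (q.2 : ℕ))).coeff (il.2 : ℕ)) (by
      rw [Fintype.card_prod, Fintype.card_prod, Fintype.card_fin, Fintype.card_fin, ← hr]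
      have h1 : (2 * mu * r + 1) * (D + 1) ≤ Fintype.card ι * (D + 1) :=
        Nat.mul_le_mul_right _ hc
      refine lt_of_lt_of_le ?_ h1
      have h2 : mu * (r * (2 * D + δ + 1)) = 2 * mu * r * D + mu * r * (δ + 1) := by ring
      have h3 : (2 * mu * r + 1) * (D + 1) = 2 * mu * r * D + D + 2 * mu * r + 1 := by ring
      rw [h2, h3, ← hD]
      omega)
  refine ⟨fun a => ∑ s : Fin (D + 1), C (y (a, s)) * X ^ (s : ℕ), ?_, fun i => ?_⟩
  · intro hw
    apply hy0
    funext p
    obtain ⟨a, s⟩ := p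
    have h1 := congrArg (fun P : k[X] => P.coeff (s : ℕ)) (congrFun hw a)
    simp only [finsetSum_coeff, coeff_C_mul, coeff_X_pow, Pi.zero_apply, coeff_zero] at h1
    rw [Finset.sum_eq_single s] at h1
    · simpa using h1
    · intro s' _ hs'
      have : (s : ℕ) ≠ (s' : ℕ) := fun e => hs' (Fin.ext e.symm)
      simp [this]
    · intro hs
      exact absurd (Finset.mem_univ s) hs
  · ext l
    rw [QuadStep_coeff, coeff_zero]
    by_cases hl : l < 2 * D + δ + 1
    · exact hy (i, ⟨l, hl⟩)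
    · refine Finset.sum_eq_zero fun p _ => Finset.sum_eq_zero fun q _ => ?_
      have h1 : (B i p.1 q.1 * X ^ ((p.2 : ℕ) + (q.2 : ℕ))).coeff l = 0 := by
        apply coeff_eq_zero_of_natDegree_lt
        have h2 := natDegree_mul_le (p := B i p.1 q.1)
          (q := (X : k[X]) ^ ((p.2 : ℕ) + (q.2 : ℕ)))
        have h3 := natDegree_X_pow_le (R := k) ((p.2 : ℕ) + (q.2 : ℕ))
        have h4 := hδ i p.1 q.1
        have h5 := p.2.2
        have h6 := q.2.2
        omega
      rw [h1]
      ring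

/-- Lang's argument. Given r = card κ forms in N = card ι > 2 mu r variables over k(X); multiply by
a common denominator: coefficients in k[X] of degree at most delta. Let D = mu * r * (delta + 1) and
substitute v_a = ∑_{s <= D} y_{a,s} X^s with new variables y_{a,s} (index type ι × Fin (D + 1)) over k;
the coefficient of X^l, l <= 2 D + delta, in the i-th form is a quadratic form over k in the y
(index type κ × Fin (2 D + delta + 1)). There are N (D + 1) variables and r (2 D + delta + 1)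
forms and mu r (2 D + delta + 1) < N (D + 1). -/
theorem TL.ratFunc {k : Type} [Field k] {mu : ℕ} (h : TL k mu) : TL (RatFunc k) (2 * mu) := by
  intro ι κ _ _ A hc
  classical
  obtain ⟨d, hd⟩ := IsLocalization.exist_integer_multiples_of_finite (nonZeroDivisors k[X])
    (fun p : κ × ι × ι => A p.1 p.2.1 p.2.2)
  have hd0 : algebraMap k[X] (RatFunc k) (d : k[X]) ≠ 0 := by
    intro h0
    have := (map_eq_zero_iff _ (IsFractionRing.injective k[X] (RatFunc k))).1 h0
    exact nonZeroDivisors.coe_ne_zero d this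
  have hB : ∀ p : κ × ι × ι, ∃ B : k[X], algebraMap k[X] (RatFunc k) B =
      algebraMap k[X] (RatFunc k) (d : k[X]) * A p.1 p.2.1 p.2.2 := by
    intro p
    obtain ⟨B, hB⟩ := hd p
    refine ⟨B, ?_⟩
    rw [hB, Algebra.smul_def]
  choose B hB using hB
  obtain ⟨w, hw0, hw⟩ := QuadStep_poly h ι κ (fun i a b => B (i, a, b)) hc
  refine ⟨fun a => algebraMap k[X] (RatFunc k) (w a), ?_, fun i => ?_⟩
  · intro h0
    apply hw0
    funext a
    have h1 := congrFun h0 a
    exact (map_eq_zero_iff _ (IsFractionRing.injective k[X] (RatFunc k))).1 h1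
  · have h1 := congrArg (algebraMap k[X] (RatFunc k)) (hw i)
    rw [map_sum, map_zero] at h1
    have h2 : algebraMap k[X] (RatFunc k) (d : k[X]) *
        (∑ a, ∑ b, A i a b * algebraMap k[X] (RatFunc k) (w a) *
          algebraMap k[X] (RatFunc k) (w b)) = 0 := by
      rw [← h1, Finset.mul_sum]
      refine Finset.sum_congr rfl fun a _ => ?_
      rw [Finset.mul_sum, map_sum]
      refine Finset.sum_congr rfl fun b _ => ?_
      rw [map_mul, map_mul, hB (i, a, b)]
      ring
    exact (mul_eq_zero.1 h2).resolve_left hd0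

/-- Induction. -/
theorem Lv.tl {m : ℕ} {F : Type} [Field F] {c : ℂ →+* F} {t : ℕ → F} (h : Lv m F c t) :
    TL F (2 ^ m) := by
  induction h with
  | zero t => simpa using tl_complex
  | succ m F c t t' _ _ _ ih =>
    rw [pow_succ, mul_comm]
    exact ih.ratFunc

end MP4369f4
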