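import Pool.Agent.Lib_MP_4369f4_m.RepBasic

/-! H22 B1: Pfister forms as diagonal forms. -/

namespace MP4369f4

/-- The Pfister form as a diagonal form of dimension 2 ^ m with nonzero coefficients. -/
private theorem RepDiag_exists {k : Type} [Field k] (m : ℕ) (d : ℕ → k) (hd : ∀ j < m, d j ≠ 0) :
    ∃ (ι : Type) (_ : Fintype ι) (_ : DecidableEq ι) (c : ι → k),
      Fintype.card ι = 2 ^ m ∧ (∀ i, c i ≠ 0) ∧
      (∀ x, Rep m d x ↔ ∃ v : ι → k, x = ∑ i, c i * v i ^ 2) ∧
      (¬ Aniso m d → ∃ v : ι → k, v ≠ 0 ∧ ∑ i, c i * v i ^ 2 = 0) := by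
  induction m with
  | zero =>
    refine ⟨Unit, inferInstance, inferInstance, fun _ => 1, by simp, fun _ => one_ne_zero,
      fun x => ?_, fun h => absurd trivial h⟩
    constructor
    · rintro ⟨u, rfl⟩
      exact ⟨fun _ => u, by simp⟩
    · rintro ⟨v, rfl⟩
      exact ⟨v (), by simp⟩
  | succ m ih =>
    obtain ⟨ι, hF, hD, c, hcard, hc, hrep, han⟩ := ih fun j hj => hd j (by omega)
    have hsum : ∀ v : ι ⊕ ι → k,
        ∑ i, Sum.elim c (fun i => -(d m * c i)) i * v i ^ 2 =
          ∑ i, c i * v (Sum.inl i) ^ 2 - d m * ∑ i, c i * v (Sum.inr i) ^ 2 := by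
      intro v
      rw [Fintype.sum_sum_type, Finset.mul_sum, sub_eq_add_neg, ← Finset.sum_neg_distrib]
      congr 1
      refine Finset.sum_congr rfl fun i _ => ?_
      simp only [Sum.elim_inr]
      ring
    refine ⟨ι ⊕ ι, inferInstance, inferInstance, Sum.elim c (fun i => -(d m * c i)), ?_, ?_, ?_, ?_⟩
    · rw [Fintype.card_sum, hcard, pow_succ]
      ring
    · rintro (i | i)
      · exact hc i
      · exact neg_ne_zero.2 (mul_ne_zero (hd m (by omega)) (hc i))
    · intro x
      constructor
      · rintro ⟨v, w, hv, hw, rfl⟩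
        obtain ⟨a, rfl⟩ := (hrep v).1 hv
        obtain ⟨b, rfl⟩ := (hrep w).1 hw
        exact ⟨Sum.elim a b, by rw [hsum]; rfl⟩
      · rintro ⟨v, rfl⟩
        refine ⟨_, _, (hrep _).2 ⟨fun i => v (Sum.inl i), rfl⟩,
          (hrep _).2 ⟨fun i => v (Sum.inr i), rfl⟩, hsum v⟩
    · intro h
      by_cases hA : Aniso m d
      · have h1 : ¬ ∀ v w, Rep m d v → Rep m d w → v = d m * w → w = 0 := fun h2 => h ⟨hA, h2⟩
        push Not at h1
        obtain ⟨v, w, hv, hw, hvw, hw0⟩ := h1
        obtain ⟨a, ha⟩ := (hrep v).1 hv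
        obtain ⟨b, hb⟩ := (hrep w).1 hw
        refine ⟨Sum.elim a b, fun h0 => hw0 ?_, ?_⟩
        · rw [hb]
          refine Finset.sum_eq_zero fun i _ => ?_
          have h2 : b i = 0 := by
            have h3 := congrFun h0 (Sum.inr i)
            simpa using h3
          rw [h2]
          ring
        · rw [hsum]
          simp only [Sum.elim_inl, Sum.elim_inr]
          rw [← ha, ← hb, hvw, sub_self]
      · obtain ⟨v, hv, hv0⟩ := han hA
        refine ⟨Sum.elim v 0, fun h0 => hv ?_, ?_⟩
        · funext i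
          have h3 := congrFun h0 (Sum.inl i)
          simpa using h3
        · rw [hsum]
          simp only [Sum.elim_inl, Sum.elim_inr, Pi.zero_apply]
          rw [hv0]
          simp

/-- A diagonal form with nonzero coefficients and a nontrivial zero takes all values. -/
private theorem RepDiag_univ {k ι : Type} [Field k] [Fintype ι] [DecidableEq ι]
    (h2 : (2 : k) ≠ 0) (c : ι → k) (hc : ∀ i, c i ≠ 0) (v : ι → k) (hv : v ≠ 0)
    (h0 : ∑ i, c i * v i ^ 2 = 0) (x : k) : ∃ u : ι → k, x = ∑ i, c i * u i ^ 2 := by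
  obtain ⟨j, hj⟩ := Function.ne_iff.1 hv
  have hj' : v j ≠ 0 := hj
  refine ⟨fun i => (x - c j) / (2 * c j * v j) * v i + if i = j then 1 else 0, ?_⟩
  have h3 : ∀ l : k, ∑ i, c i * (l * v i + if i = j then 1 else 0) ^ 2 =
      c j + 2 * l * c j * v j := by
    intro l
    have h4 : ∀ i, c i * (l * v i + if i = j then 1 else 0) ^ 2 =
        l ^ 2 * (c i * v i ^ 2) + if i = j then c j + 2 * l * c j * v j else 0 := by
      intro i
      split_ifs with hi
      · subst hi
        ring
      · ring
    rw [Finset.sum_congr rfl fun i _ => h4 i, Finset.sum_add_distrib, ← Finset.mul_sum, h0,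
      Finset.sum_ite_eq' Finset.univ j, if_pos (Finset.mem_univ j)]
    ring
  rw [h3]
  have h5 := hc j
  field_simp
  ring

/-- Suggested route. Index type of dimension 2^m by recursion on m (PI 0 = Unit,
PI (m+1) = PI m ⊕ PI m, or Finset (Fin m), or Fin m -> Bool) and weights w (w = 1 for m = 0,
(w, - d_m w) for m + 1), all nonzero; Rep m d x iff x = ∑ w_i v_i^2 for some v. The quadratic form
∑ w_i v_i^2 - x z^2 has 2^m + 1 variables, so a nontrivial zero (TL with card κ = 1). If z is not 0
divide by it. If z = 0 then the nondegenerate form ∑ w_i v_i^2 is isotropic, so it takes all values: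
if ∑ w_i v_i^2 = 0 with v_j not 0 then the value at λ v + e_j is w_j + 2 λ w_j v_j, for all λ. -/
theorem rep_of_TL {k : Type} [Field k] (h2 : (2 : k) ≠ 0) {m : ℕ} (hTL : TL k (2 ^ m))
    (d : ℕ → k) (hd : ∀ j < m, d j ≠ 0) (x : k) : Rep m d x := by
  obtain ⟨ι, hF, hD, c, hcard, hc, hrep, -⟩ := RepDiag_exists m d hd
  rw [hrep]
  obtain ⟨v, hv, h0⟩ := hTL (Option ι) Unit
    (fun _ a b => if b = a then Option.elim a (-x) c else 0)
    (by rw [Fintype.card_option, hcard, Fintype.card_unit]; omega)
  have h1 := h0 ()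
  have h3 : ∀ a : Option ι, ∑ b, (if b = a then Option.elim a (-x) c else 0) * v a * v b =
      Option.elim a (-x) c * v a ^ 2 := by
    intro a
    rw [Finset.sum_eq_single a]
    · rw [if_pos rfl]
      ring
    · intro b _ hb
      rw [if_neg hb]
      ring
    · intro h
      exact absurd (Finset.mem_univ a) h
  rw [Finset.sum_congr rfl fun a _ => h3 a, Fintype.sum_option] at h1
  simp only [Option.elim_none, Option.elim_some] at h1
  by_cases hz : v none = 0
  · rw [hz] at h1
    refine RepDiag_univ h2 c hc (fun i => v (some i)) (fun h => hv ?_) ?_ x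
    · funext a
      cases a with
      | none => exact hz
      | some i => exact congrFun h i
    · linear_combination h1
  · refine ⟨fun i => v (some i) / v none, ?_⟩
    have h4 : ∑ i, c i * (v (some i) / v none) ^ 2 =
        (∑ i, c i * v (some i) ^ 2) / v none ^ 2 := by
      rw [Finset.sum_div]
      refine Finset.sum_congr rfl fun i _ => ?_
      rw [div_pow, mul_div_assoc]
    rw [h4, eq_div_iff (pow_ne_zero 2 hz)]
    linear_combination -h1

/-- An isotropic Pfister form takes all values. Not `Aniso m d` gives (induction on m) a nontrivial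
zero of the diagonal form of level m; then as above. -/
theorem rep_of_not_aniso {k : Type} [Field k] (h2 : (2 : k) ≠ 0) {m : ℕ} (d : ℕ → k)
    (hd : ∀ j < m, d j ≠ 0) (h : ¬ Aniso m d) (x : k) : Rep m d x := by
  obtain ⟨ι, hF, hD, c, -, hc, hrep, han⟩ := RepDiag_exists m d hd
  rw [hrep]
  obtain ⟨v, hv, h0⟩ := han h
  exact RepDiag_univ h2 c hc v hv h0 x

end MP4369f4
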