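import Pool.Agent.Lib_MP_4369f4_m.Towers
import Pool.Agent.Lib_MP_4369f4_m.RepDiag
import Pool.Agent.Lib_MP_4369f4_m.QuadStep
import Pool.Agent.Lib_MP_4369f4_m.Place0
import Pool.Agent.Lib_MP_4369f4_m.AnisoEx

/-! H22 C5: K_m is definable in K_n. -/

namespace MP4369f4

open Polynomial

/-- Descent. If the form is isotropic over K: `rep_of_not_aniso`. If not: `exists_place` for θ = 0 in
K, the image of C x (x not 0) in K((tau)) is a constant, `rep_laurent` and `tau_zpow_eq`. -/
theorem rep_of_rep_C {K : Type} [Field K] (h2 : (2 : K) ≠ 0) {m : ℕ} (d : ℕ → K)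
    (hd : ∀ j < m, d j ≠ 0) (x : K)
    (h : Rep m (fun j => (RatFunc.C (d j) : RatFunc K)) (RatFunc.C x)) : Rep m d x := by
  by_cases ha : Aniso m d
  · by_cases hx : x = 0
    · rw [hx]
      exact Rep.zero m d
    · obtain ⟨j, hj, -⟩ := exists_place (K := K) (L := K) 0
      have h1 := h.map j
      have h3 : Rep m (fun i => (HahnSeries.C (d i) : LaurentSeries K)) (HahnSeries.C x) := by
        rw [hj] at h1
        refine h1.congr fun i _ => ?_
        rw [hj]
        rfl
      have hx0 : (HahnSeries.C x : LaurentSeries K) ≠ 0 :=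
        (map_ne_zero (HahnSeries.C : K →+* LaurentSeries K)).2 hx
      obtain ⟨n, g, hg, hr, hgn⟩ := rep_laurent ha h3 hx0
      have h4 : tau K ^ (0 : ℤ) * HahnSeries.ofPowerSeries ℤ K (PowerSeries.C x) =
          tau K ^ (2 * n) * HahnSeries.ofPowerSeries ℤ K g := by
        rw [← hgn, zpow_zero, one_mul, HahnSeries.ofPowerSeries_C]
      have h5 := (tau_zpow_eq (by rwa [PowerSeries.constantCoeff_C]) hg h4).2
      rw [PowerSeries.constantCoeff_C] at h5
      rw [h5]
      exact hr
  · exact rep_of_not_aniso h2 d hd ha x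

private theorem InKSem_X_sub_C_ne_zero {F : Type} [Field F] (a : F) :
    (RatFunc.X : RatFunc F) - RatFunc.C a ≠ 0 := by
  intro h
  have h1 : algebraMap F[X] (RatFunc F) (X - Polynomial.C a) = 0 := by
    rw [map_sub, RatFunc.algebraMap_X, RatFunc.algebraMap_C, h]
  have h2 := (map_eq_zero_iff _ (IsFractionRing.injective F[X] (RatFunc F))).mp h1
  exact X_sub_C_ne_zero a h2

theorem Lv.t_sub_ne_zero {m : ℕ} {F : Type} [Field F] {c : ℂ →+* F} {t : ℕ → F}
    (h : Lv m F c t) {j : ℕ} (hj : j < m) (z : ℂ) : t j - c z ≠ 0 := by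
  induction h with
  | zero t => omega
  | succ m F c t t' h ht ht' ih =>
    have e : ((RatFunc.C : F →+* RatFunc F).comp c) z = RatFunc.C (c z) := rfl
    rw [e]
    rcases Nat.lt_succ_iff_lt_or_eq.1 hj with h1 | h1
    · rw [ht j h1, ← map_sub]
      exact (_root_.map_ne_zero (RatFunc.C : F →+* RatFunc F)).2 (ih h1)
    · rw [h1, ht']
      exact InKSem_X_sub_C_ne_zero _

/-- As `Tower.exists_not_nrm` of DIC. Induction on the tower. Base: impossible. Step, x = C x0:
induction hypothesis and `rep_of_rep_C`. Step, x not a constant: A = num, B = denom; `pencil` gives a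
complex b such that G = (A - b B) B is not c U^2, `exists_odd_root` gives L, θ with odd multiplicity
of G at θ; `Lv.exists_aniso` for L gives a; if x - b = G (1/B)^2 were a value of the form then the image
under `exists_place` would have even order by `rep_laurent`, but its order is odd (`tau_zpow_eq`). -/
theorem Lv.exists_not_rep {m : ℕ} {F : Type} [Field F] {c : ℂ →+* F} {t : ℕ → F}
    (h : Lv m F c t) {K : Type} [Field K] {φ : F →+* K} (hT : Tw F K φ) (x : K)
    (hx : ∀ y, x ≠ φ y) :
    ∃ (a : ℕ → ℂ) (b : ℂ), ¬ Rep m (fun j => φ (t j - c (a j))) (x - φ (c b)) := by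
  classical
  induction hT with
  | base => exact absurd rfl (hx x)
  | step K φ hT ih =>
    have hF : CharZero F := h.charZero
    have : CharZero K := by
      have := charZero_of_injective_ringHom (φ.comp c).injective
      infer_instance
    have h2 : (2 : K) ≠ 0 := two_ne_zero
    by_cases hxC : ∃ x0 : K, x = RatFunc.C x0
    · obtain ⟨x0, rfl⟩ := hxC
      have hx0 : ∀ y, x0 ≠ φ y := by
        intro y hy
        exact hx y (by rw [hy]; rfl)
      obtain ⟨a, b, hab⟩ := ih x0 hx0
      refine ⟨a, b, fun h3 => hab ?_⟩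
      have h1 : (RatFunc.C x0 : RatFunc K) - ((RatFunc.C : K →+* RatFunc K).comp φ) (c b) =
          RatFunc.C (x0 - φ (c b)) := by
        rw [map_sub]; rfl
      rw [h1] at h3
      exact rep_of_rep_C h2 (fun j => φ (t j - c (a j)))
        (fun j hj => (map_ne_zero φ).2 (h.t_sub_ne_zero hj _)) _ h3
    · have hB0 : x.denom ≠ 0 := RatFunc.denom_ne_zero x
      have hnc : ¬ (x.num.natDegree = 0 ∧ x.denom.natDegree = 0) := by
        rintro ⟨hA, hB⟩
        apply hxC
        have hB1 : x.denom = 1 := (Polynomial.Monic.natDegree_eq_zero (RatFunc.monic_denom x)).1 hB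
        refine ⟨x.num.coeff 0, ?_⟩
        conv_lhs => rw [← RatFunc.num_div_denom x]
        rw [hB1, map_one, div_one]
        conv_lhs => rw [Polynomial.eq_C_of_natDegree_eq_zero hA]
        exact RatFunc.algebraMap_C _
      have hinj : Function.Injective (fun i : ℕ => φ (c (i : ℂ))) := by
        intro i j hij
        have h3 := φ.injective hij
        have h4 := c.injective h3
        exact_mod_cast h4
      obtain ⟨b', hb'S, hb'⟩ := pencil (RatFunc.isCoprime_num_denom x) hnc
        ((Finset.range 5).image (fun i : ℕ => φ (c (i : ℂ)))) (by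
          rw [Finset.card_image_of_injective _ hinj, Finset.card_range])
      obtain ⟨i, _, hi⟩ := Finset.mem_image.1 hb'S
      have hP0 : x.num - C b' * x.denom ≠ 0 := by
        intro h
        exact hb' ⟨0, 0, by rw [h, map_zero, zero_mul]⟩
      have hcop : IsCoprime (x.num - C b' * x.denom) x.denom := by
        have h3 := (RatFunc.isCoprime_num_denom x)
        rw [sub_eq_add_neg, ← neg_mul, ← mul_comm x.denom]
        exact h3.add_mul_left_left _
      have hGn : ¬ ∃ (c : K) (U : K[X]), (x.num - C b' * x.denom) * x.denom = C c * U ^ 2 := by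
        rintro ⟨c, U, hcU⟩
        have hc0 : c ≠ 0 := by
          rintro rfl
          rw [map_zero, zero_mul] at hcU
          exact mul_ne_zero hP0 hB0 hcU
        have hu : IsUnit (C c⁻¹ : K[X]) := Polynomial.isUnit_C.2 (isUnit_iff_ne_zero.2 (inv_ne_zero hc0))
        have h3 : (C c⁻¹ * (x.num - C b' * x.denom)) * x.denom = U ^ 2 := by
          rw [mul_assoc, hcU, ← mul_assoc, ← C_mul, inv_mul_cancel₀ hc0, C_1, one_mul]
        have h4 : IsCoprime (C c⁻¹ * (x.num - C b' * x.denom)) x.denom :=
          (isCoprime_mul_unit_left_left hu _ _).2 hcop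
        obtain ⟨d, hd⟩ := exists_associated_pow_of_mul_eq_pow' h4 h3
        obtain ⟨u, hu'⟩ := hd
        obtain ⟨e, he, heu⟩ := Polynomial.isUnit_iff.1 u.isUnit
        refine hb' ⟨c * e, d, ?_⟩
        rw [← heu] at hu'
        have h5 : C c * (C c⁻¹ * (x.num - C b' * x.denom)) = x.num - C b' * x.denom := by
          rw [← mul_assoc, ← C_mul, mul_inv_cancel₀ hc0, C_1, one_mul]
        rw [← h5, ← hu', C_mul]
        ring
      have hG0 : (x.num - C b' * x.denom) * x.denom ≠ 0 := mul_ne_zero hP0 hB0
      obtain ⟨L, _, _, _, θ, hθ⟩ := exists_odd_root _ hG0 hGn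
      obtain ⟨a, ha⟩ := h.exists_aniso hT L
      refine ⟨a, i, fun h3 => ?_⟩
      have hd' : algebraMap K[X] (RatFunc K) x.denom ≠ 0 := RatFunc.algebraMap_ne_zero hB0
      have h6 : (x - ((RatFunc.C : K →+* RatFunc K).comp φ) (c (i : ℂ))) *
          (algebraMap K[X] (RatFunc K) x.denom) ^ 2 =
          algebraMap K[X] (RatFunc K) ((x.num - C b' * x.denom) * x.denom) := by
        have h7 : ((RatFunc.C : K →+* RatFunc K).comp φ) (c (i : ℂ)) = RatFunc.C b' := by
          rw [← hi]; rfl
        have h8 : x * algebraMap K[X] (RatFunc K) x.denom = algebraMap K[X] (RatFunc K) x.num := by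
          conv_lhs => rw [← RatFunc.num_div_denom x]
          field_simp
          rw [RatFunc.num_div_denom x]
        rw [h7, map_mul, map_sub, map_mul, RatFunc.algebraMap_C, ← h8]
        ring
      have h9 := h3.mul_sq (algebraMap K[X] (RatFunc K) x.denom)
      rw [h6] at h9
      obtain ⟨j, hj, hjG⟩ := exists_place (K := K) θ
      have h10 : Rep m (fun l => (HahnSeries.C (algebraMap K L (φ (t l - c (a l)))) : LaurentSeries L))
          (j (algebraMap K[X] (RatFunc K) ((x.num - C b' * x.denom) * x.denom))) := by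
        refine (h9.map j).congr fun l _ => ?_
        exact hj _
      have h11 : j (algebraMap K[X] (RatFunc K) ((x.num - C b' * x.denom) * x.denom)) ≠ 0 :=
        (map_ne_zero j).2 (RatFunc.algebraMap_ne_zero hG0)
      obtain ⟨n, g, hg, _, hgn⟩ := rep_laurent ha h10 h11
      obtain ⟨g0, hg0, hgn0⟩ := hjG _ hG0
      rw [hgn0] at hgn
      have h12 := (tau_zpow_eq hg0 hg hgn).1
      obtain ⟨r, hr⟩ := hθ
      omega

/-- `Lv.cst_iff`, `Lv.exists_not_rep`; for x in F: `Lv.tl`, `rep_of_TL`, `Rep.map`. -/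
theorem Lv.inK_iff {m : ℕ} {F : Type} [Field F] {c : ℂ →+* F} {t : ℕ → F}
    (h : Lv (m + 1) F c t) {K : Type} [Field K] {φ : F →+* K} (hT : Tw F K φ) {tK : ℕ → K}
    (ht : ∀ i < m + 1, tK i = φ (t i)) (x : K) : InK (m + 1) tK x ↔ ∃ y, x = φ y := by
  constructor
  · intro hK
    by_contra hx
    push Not at hx
    obtain ⟨a, b, hab⟩ := h.exists_not_rep hT x hx
    apply hab
    have h1 := hK (fun j => φ (c (a j))) (fun j => (h.cst_iff hT _).2 ⟨a j, rfl⟩) (φ (c b))
      ((h.cst_iff hT _).2 ⟨b, rfl⟩)
    refine h1.congr fun j hj => ?_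
    show tK j - φ (c (a j)) = φ (t j - c (a j))
    rw [ht j hj, map_sub]
  · rintro ⟨y, rfl⟩ a ha b hb
    choose z hz using fun j => (h.cst_iff hT (a j)).1 (ha j)
    obtain ⟨w, rfl⟩ := (h.cst_iff hT b).1 hb
    have hF : CharZero F := h.charZero
    have h2 : (2 : F) ≠ 0 := two_ne_zero
    have h1 := rep_of_TL h2 h.tl (fun j => t j - c (z j))
      (fun j hj => h.t_sub_ne_zero hj _) (y - c w)
    have h3 := h1.map φ
    rw [map_sub] at h3
    refine h3.congr fun j hj => ?_
    show φ (t j - c (z j)) = tK j - a j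
    rw [ht j hj, hz j, map_sub]

end MP4369f4
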