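import Pool.Agent.Lib_MP_4369f4_m.RepBasic

/-! H22 C1: Pfister forms over Laurent series (Springer). -/

namespace MP4369f4

open PowerSeries

/-- The uniformizer. -/
noncomputable def tau (L : Type) [Field L] : LaurentSeries L :=
  HahnSeries.ofPowerSeries ℤ L (PowerSeries.X : L⟦X⟧)

private theorem lead_tau_ne_zero (L : Type) [Field L] : tau L ≠ 0 := by
  intro h
  have h1 : (PowerSeries.X : L⟦X⟧) = 0 := by
    apply HahnSeries.ofPowerSeries_injective (Γ := ℤ) (R := L)
    rw [map_zero]
    exact h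
  exact PowerSeries.X_ne_zero h1

private theorem lead_form {L : Type} [Field L] (f : LaurentSeries L) (hf : f ≠ 0) :
    ∃ (n : ℤ) (g : L⟦X⟧), constantCoeff g ≠ 0 ∧
      f = tau L ^ n * HahnSeries.ofPowerSeries ℤ L g := by
  refine ⟨f.order, f.powerSeriesPart, ?_, ?_⟩
  · rw [← PowerSeries.coeff_zero_eq_constantCoeff_apply, LaurentSeries.powerSeriesPart_coeff]
    rw [Nat.cast_zero, add_zero]
    exact HahnSeries.coeff_order_eq_zero.not.2 hf
  · have h1 := LaurentSeries.single_order_mul_powerSeriesPart f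
    have h2 : tau L ^ f.order = (HahnSeries.single f.order 1 : LaurentSeries L) := by
      rw [tau, HahnSeries.ofPowerSeries_X]
      exact (RatFunc.single_zpow f.order).symm
    rw [h2]
    exact h1.symm

/-- The order is well defined, one half. -/
private theorem lead_le {L : Type} [Field L] {n n' : ℤ} {g g' : L⟦X⟧} (hg : constantCoeff g ≠ 0)
    (hle : n ≤ n') (h : tau L ^ n * HahnSeries.ofPowerSeries ℤ L g =
      tau L ^ n' * HahnSeries.ofPowerSeries ℤ L g') :
    n = n' ∧ constantCoeff g = constantCoeff g' := by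
  obtain ⟨k, rfl⟩ := Int.le.dest hle
  have ht := lead_tau_ne_zero L
  have h1 : HahnSeries.ofPowerSeries ℤ L g =
      HahnSeries.ofPowerSeries ℤ L ((PowerSeries.X : L⟦X⟧) ^ k * g') := by
    apply mul_left_cancel₀ (zpow_ne_zero n ht)
    rw [h, zpow_add₀ ht, zpow_natCast, map_mul, map_pow]
    rw [mul_assoc]
    rfl
  have h2 := HahnSeries.ofPowerSeries_injective h1
  rcases Nat.eq_zero_or_pos k with hk | hk
  · subst hk
    refine ⟨by simp, ?_⟩
    rw [h2]; simp
  · exfalso
    apply hg
    rw [h2, map_mul, map_pow, PowerSeries.constantCoeff_X, zero_pow (by omega), zero_mul]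

/-- If the form is anisotropic over L then every nonzero value over L((tau)) is tau^(2 n) g with
g(0) a nonzero value over L. Induction on m. m = 0: u = tau^n g. m + 1: f = v - d w; write v, w as
tau^(2 n) g, tau^(2 n') g'; if n = n' the constant term is g(0) - d g'(0), not 0 by
anisotropy; if n < n' it is g(0); if n > n' it is - d g'(0), and d is not 0 (`Aniso.ne_zero`). -/
theorem rep_laurent {L : Type} [Field L] {m : ℕ} {d : ℕ → L} (ha : Aniso m d)
    {f : LaurentSeries L} (hf : Rep m (fun j => (HahnSeries.C (d j) : LaurentSeries L)) f)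
    (hf0 : f ≠ 0) : ∃ (n : ℤ) (g : L⟦X⟧), constantCoeff g ≠ 0 ∧ Rep m d (constantCoeff g) ∧
      f = tau L ^ (2 * n) * HahnSeries.ofPowerSeries ℤ L g := by
  have ht := lead_tau_ne_zero L
  induction m generalizing f with
  | zero =>
    obtain ⟨u, rfl⟩ := hf
    have hu : u ≠ 0 := fun h => hf0 (by rw [h]; ring)
    obtain ⟨n, g, hg, h1⟩ := lead_form u hu
    refine ⟨n, g ^ 2, ?_, ⟨constantCoeff g, by rw [map_pow]⟩, ?_⟩
    · rw [map_pow]; exact pow_ne_zero 2 hg
    · rw [h1, mul_pow, map_pow, ← zpow_natCast, ← zpow_mul]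
      congr 2
      push_cast; ring
  | succ m ih =>
    have hdm : d m ≠ 0 := ha.ne_zero (Nat.lt_succ_self m)
    obtain ⟨v, w, hv, hw, rfl⟩ := hf
    by_cases hw0 : w = 0
    · subst hw0
      have hv0 : v ≠ 0 := fun h => hf0 (by rw [h]; ring)
      obtain ⟨n, g, hg, hr, h1⟩ := ih ha.1 hv hv0
      exact ⟨n, g, hg, ⟨_, 0, hr, Rep.zero _ _, by ring⟩, by rw [← h1]; ring⟩
    obtain ⟨n', g', hg', hr', h1'⟩ := ih ha.1 hw hw0
    by_cases hv0 : v = 0
    · subst hv0
      refine ⟨n', - (PowerSeries.C (d m) * g'), ?_, ⟨0, constantCoeff g', Rep.zero _ _, hr', ?_⟩, ?_⟩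
      · rw [map_neg, map_mul, PowerSeries.constantCoeff_C]
        exact neg_ne_zero.2 (mul_ne_zero hdm hg')
      · rw [map_neg, map_mul, PowerSeries.constantCoeff_C]; ring
      · rw [h1', map_neg, map_mul, HahnSeries.ofPowerSeries_C]; ring
    obtain ⟨n, g, hg, hr, h1⟩ := ih ha.1 hv hv0
    rcases lt_trichotomy n n' with hlt | heq | hgt
    · obtain ⟨k, hk⟩ := Int.le.dest hlt.le
      have hk0 : k ≠ 0 := by rintro rfl; simp at hk; omega
      subst hk
      have hc : constantCoeff (g - PowerSeries.C (d m) * (PowerSeries.X ^ (2 * k) * g')) =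
          constantCoeff g := by
        rw [map_sub, map_mul, map_mul, map_pow, PowerSeries.constantCoeff_X,
          zero_pow (by omega)]
        ring
      refine ⟨n, g - PowerSeries.C (d m) * (PowerSeries.X ^ (2 * k) * g'), ?_, ?_, ?_⟩
      · rw [hc]; exact hg
      · rw [hc]; exact ⟨_, 0, hr, Rep.zero _ _, by ring⟩
      · rw [h1, h1', map_sub, map_mul, map_mul, map_pow, HahnSeries.ofPowerSeries_C]
        have h3 : tau L ^ (2 * (n + (k : ℤ))) = tau L ^ (2 * n) *
            (HahnSeries.ofPowerSeries ℤ L (PowerSeries.X : L⟦X⟧)) ^ (2 * k) := by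
          rw [mul_add, zpow_add₀ ht,
            show (2 * (k : ℤ)) = ((2 * k : ℕ) : ℤ) by rw [Nat.cast_mul, Nat.cast_ofNat], zpow_natCast]
          rfl
        rw [h3]; ring
    · subst heq
      have hc : constantCoeff (g - PowerSeries.C (d m) * g') =
          constantCoeff g - d m * constantCoeff g' := by
        rw [map_sub, map_mul, PowerSeries.constantCoeff_C]
      refine ⟨n, g - PowerSeries.C (d m) * g', ?_, ?_, ?_⟩
      · rw [hc]
        intro h0
        exact hg' (ha.2 _ _ hr hr' (sub_eq_zero.1 h0))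
      · rw [hc]; exact ⟨_, _, hr, hr', rfl⟩
      · rw [h1, h1', map_sub, map_mul, HahnSeries.ofPowerSeries_C]; ring
    · obtain ⟨k, hk⟩ := Int.le.dest hgt.le
      have hk0 : k ≠ 0 := by rintro rfl; simp at hk; omega
      subst hk
      have hc : constantCoeff (PowerSeries.X ^ (2 * k) * g - PowerSeries.C (d m) * g') =
          0 - d m * constantCoeff g' := by
        rw [map_sub, map_mul, map_mul, map_pow, PowerSeries.constantCoeff_X,
          zero_pow (by omega), PowerSeries.constantCoeff_C]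
        ring
      refine ⟨n', PowerSeries.X ^ (2 * k) * g - PowerSeries.C (d m) * g', ?_, ?_, ?_⟩
      · rw [hc]
        have := mul_ne_zero hdm hg'
        intro h0
        apply this
        linear_combination -h0
      · rw [hc]; exact ⟨0, _, Rep.zero _ _, hr', rfl⟩
      · rw [h1, h1', map_sub, map_mul, map_mul, map_pow, HahnSeries.ofPowerSeries_C]
        have h3 : tau L ^ (2 * (n' + (k : ℤ))) = tau L ^ (2 * n') *
            (HahnSeries.ofPowerSeries ℤ L (PowerSeries.X : L⟦X⟧)) ^ (2 * k) := by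
          rw [mul_add, zpow_add₀ ht,
            show (2 * (k : ℤ)) = ((2 * k : ℕ) : ℤ) by rw [Nat.cast_mul, Nat.cast_ofNat], zpow_natCast]
          rfl
        rw [h3]; ring

/-- The order is well defined. -/
theorem tau_zpow_eq {L : Type} [Field L] {n n' : ℤ} {g g' : L⟦X⟧} (hg : constantCoeff g ≠ 0)
    (hg' : constantCoeff g' ≠ 0) (h : tau L ^ n * HahnSeries.ofPowerSeries ℤ L g =
      tau L ^ n' * HahnSeries.ofPowerSeries ℤ L g') :
    n = n' ∧ constantCoeff g = constantCoeff g' := by
  rcases le_total n n' with hle | hle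
  · exact lead_le hg hle h
  · obtain ⟨h1, h2⟩ := lead_le hg' hle h.symm
    exact ⟨h1.symm, h2.symm⟩

theorem aniso_laurent {L : Type} [Field L] {m : ℕ} {d : ℕ → L} (ha : Aniso m d) :
    Aniso m (fun j => (HahnSeries.C (d j) : LaurentSeries L)) := by
  induction m with
  | zero => trivial
  | succ m ih =>
    have hdm : d m ≠ 0 := ha.ne_zero (Nat.lt_succ_self m)
    refine ⟨ih ha.1, fun v w hv hw hvw => ?_⟩
    by_contra hw0
    have hC : (HahnSeries.C (d m) : LaurentSeries L) ≠ 0 := by
      intro h0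
      apply hdm
      exact HahnSeries.C_injective (by rw [h0, map_zero])
    have hv0 : v ≠ 0 := by
      rw [hvw]
      exact mul_ne_zero hC hw0
    obtain ⟨n, g, hg, hr, h1⟩ := rep_laurent ha.1 hv hv0
    obtain ⟨n', g', hg', hr', h1'⟩ := rep_laurent ha.1 hw hw0
    have h2 : tau L ^ (2 * n) * HahnSeries.ofPowerSeries ℤ L g =
        tau L ^ (2 * n') * HahnSeries.ofPowerSeries ℤ L (PowerSeries.C (d m) * g') := by
      rw [← h1, hvw, map_mul, HahnSeries.ofPowerSeries_C]
      simp only
      rw [h1']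
      ring
    have hcc : constantCoeff (PowerSeries.C (d m) * g') = d m * constantCoeff g' := by
      rw [map_mul, PowerSeries.constantCoeff_C]
    obtain ⟨-, h3⟩ := tau_zpow_eq hg (by rw [hcc]; exact mul_ne_zero hdm hg') h2
    rw [hcc] at h3
    exact hg' (ha.2 _ _ hr hr' h3)

/-- v = tau w with v, w values of the form of level m, w not 0: the orders have different parity. -/
theorem aniso_laurent_succ {L : Type} [Field L] {m : ℕ} {d : ℕ → L} (ha : Aniso m d)
    (d' : ℕ → LaurentSeries L) (hd : ∀ j < m, d' j = HahnSeries.C (d j)) (hm : d' m = tau L) :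
    Aniso (m + 1) d' := by
  have ht := lead_tau_ne_zero L
  refine ⟨(aniso_laurent ha).congr (fun j hj => (hd j hj).symm), fun v w hv hw hvw => ?_⟩
  by_contra hw0
  have hv0 : v ≠ 0 := by
    rw [hvw, hm]
    exact mul_ne_zero ht hw0
  obtain ⟨n, g, hg, hr, h1⟩ := rep_laurent ha (hv.congr hd) hv0
  obtain ⟨n', g', hg', hr', h1'⟩ := rep_laurent ha (hw.congr hd) hw0
  have h2 : tau L ^ (2 * n) * HahnSeries.ofPowerSeries ℤ L g =
      tau L ^ (2 * n' + 1) * HahnSeries.ofPowerSeries ℤ L g' := by
    rw [← h1, hvw, hm, h1', zpow_add₀ ht, zpow_one]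
    ring
  obtain ⟨h3, -⟩ := tau_zpow_eq hg hg' h2
  omega

end MP4369f4
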