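import Pool.Agent.Lib_MP_4369f4_m.Defs

/-! H22 J1: ℂ(t_1,...,t_n) as a tower over ℂ(t_i : i in the image of ι). -/

namespace MP4369f4

open Polynomial

/-- `equiv_option` of TRA with one more conclusion (same proof, `hnone` there). -/
theorem equiv_option' (σ : Type) :
    ∃ e : KF (Option σ) ≃+* RatFunc (KF σ), e (xv none) = RatFunc.X ∧
      (∀ i : σ, e (xv (some i)) = RatFunc.C (xv i)) ∧
      (∀ c : ℂ, e (cc (Option σ) c) = RatFunc.C (cc σ c)) := by
  let ψ : MvPolynomial (Option σ) ℂ →+* RatFunc (KF σ) :=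
    ((algebraMap (KF σ)[X] (RatFunc (KF σ))).comp
      (Polynomial.mapRingHom (algebraMap (MvPolynomial σ ℂ) (KF σ)))).comp
      (MvPolynomial.optionEquivLeft ℂ σ).toRingEquiv.toRingHom
  have hψ : ∀ p, ψ p = algebraMap (KF σ)[X] (RatFunc (KF σ))
      (Polynomial.map (algebraMap (MvPolynomial σ ℂ) (KF σ))
        (MvPolynomial.optionEquivLeft ℂ σ p)) := fun p => rfl
  have hinj : Function.Injective ψ := by
    intro p q hpq
    rw [hψ, hψ] at hpq
    have h1 := IsFractionRing.injective (KF σ)[X] (RatFunc (KF σ)) hpq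
    have h2 := Polynomial.map_injective _
      (IsFractionRing.injective (MvPolynomial σ ℂ) (KF σ)) h1
    exact (MvPolynomial.optionEquivLeft ℂ σ).injective h2
  let f : KF (Option σ) →+* RatFunc (KF σ) := IsFractionRing.lift hinj
  have hf : ∀ p, f (algebraMap _ _ p) = ψ p := fun p => IsFractionRing.lift_algebraMap hinj p
  have hsome : ∀ i : σ, f (xv (some i)) = RatFunc.C (xv i) := by
    intro i
    unfold xv
    rw [hf, hψ, MvPolynomial.optionEquivLeft_X_some, Polynomial.map_C, RatFunc.algebraMap_C]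
  have hcc : ∀ c : ℂ, f (cc (Option σ) c) = RatFunc.C (cc σ c) := by
    intro c
    unfold cc
    rw [hf, hψ, MvPolynomial.optionEquivLeft_C, Polynomial.map_C, RatFunc.algebraMap_C]
  have hnone : f (xv none) = RatFunc.X := by
    unfold xv
    rw [hf, hψ, MvPolynomial.optionEquivLeft_X_none, Polynomial.map_X, RatFunc.algebraMap_X]
  have hA : ∀ a : MvPolynomial σ ℂ, f (algebraMap (MvPolynomial (Option σ) ℂ) _
      (MvPolynomial.rename some a)) = RatFunc.C (algebraMap (MvPolynomial σ ℂ) (KF σ) a) := by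
    intro a
    have : MvPolynomial.optionEquivLeft ℂ σ (MvPolynomial.rename some a) = Polynomial.C a := by
      induction a using MvPolynomial.induction_on with
      | C c => rw [MvPolynomial.rename_C, MvPolynomial.optionEquivLeft_C]
      | add p q hp hq => rw [map_add, map_add, hp, hq, map_add]
      | mul_X p i hp =>
        rw [map_mul, map_mul, hp, MvPolynomial.rename_X, MvPolynomial.optionEquivLeft_X_some,
          map_mul]
    rw [hf, hψ, this, Polynomial.map_C, RatFunc.algebraMap_C]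
  have hsurj : Function.Surjective f := by
    apply surj_of_gens f
    · intro a
      obtain ⟨p, q, _, rfl⟩ := IsFractionRing.div_surjective (MvPolynomial σ ℂ) a
      refine ⟨algebraMap (MvPolynomial (Option σ) ℂ) _ (MvPolynomial.rename some p) /
        algebraMap (MvPolynomial (Option σ) ℂ) _ (MvPolynomial.rename some q), ?_⟩
      rw [map_div₀, hA, hA, map_div₀]
    · exact ⟨_, hnone⟩
  exact ⟨RingEquiv.ofBijective f ⟨f.injective, hsurj⟩, hnone, hsome, hcc⟩

/-- `equiv_ratFunc` with one more conclusion -/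
private theorem Transfer_ratFunc {K L : Type} [Field K] [Field L] (e : K ≃+* L) :
    ∃ E : RatFunc K ≃+* RatFunc L, E RatFunc.X = RatFunc.X ∧
      ∀ a : K, E (RatFunc.C a) = RatFunc.C (e a) := by
  refine ⟨IsFractionRing.ringEquivOfRingEquiv (Polynomial.mapEquiv e), ?_, ?_⟩
  · rw [← RatFunc.algebraMap_X, IsFractionRing.ringEquivOfRingEquiv_algebraMap,
      ← RatFunc.algebraMap_X]
    simp
  · intro a
    rw [← RatFunc.algebraMap_C, IsFractionRing.ringEquivOfRingEquiv_algebraMap,
      ← RatFunc.algebraMap_C]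
    simp

/-- one more variable, the last one -/
private theorem Transfer_last {k : ℕ} {F : Type} [Field F] (e : KF (Fin k) ≃+* F) :
    ∃ e' : KF (Fin (k + 1)) ≃+* RatFunc F, e' (xv (Fin.last k)) = RatFunc.X ∧
      (∀ j : Fin k, e' (xv j.castSucc) = RatFunc.C (e (xv j))) ∧
      (∀ z : ℂ, e' (cc _ z) = RatFunc.C (e (cc _ z))) := by
  obtain ⟨e1, h11, h12⟩ := equiv_rename (finSuccEquivLast (n := k))
  obtain ⟨e2, h20, h21, h22⟩ := equiv_option' (Fin k)
  obtain ⟨e3, h30, h31⟩ := Transfer_ratFunc e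
  refine ⟨(e1.trans e2).trans e3, ?_, ?_, ?_⟩
  · rw [RingEquiv.trans_apply, RingEquiv.trans_apply, h11, finSuccEquivLast_last, h20, h30]
  · intro j
    rw [RingEquiv.trans_apply, RingEquiv.trans_apply, h11, finSuccEquivLast_castSucc, h21, h31]
  · intro z
    rw [RingEquiv.trans_apply, RingEquiv.trans_apply, h12, h22, h31]

/-- The field of rational functions in the first m variables. Induction on m (m = 0: polynomials in no
variables; step: Fin (m + 1) ≃ Option (Fin m) with the last element going to none). -/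
theorem exists_lv (m : ℕ) :
    ∃ (F : Type) (_ : Field F) (c : ℂ →+* F) (t : ℕ → F) (_ : Lv m F c t)
      (e : KF (Fin m) ≃+* F),
      (∀ j : Fin m, e (xv j) = t j) ∧ ∀ z : ℂ, e (cc _ z) = c z := by
  induction m with
  | zero =>
    refine ⟨ℂ, inferInstance, RingHom.id ℂ, fun _ => 0, Lv.zero _,
      IsFractionRing.ringEquivOfRingEquiv (MvPolynomial.isEmptyAlgEquiv ℂ (Fin 0)).toRingEquiv,
      fun j => j.elim0, ?_⟩
    intro z
    unfold cc
    rw [IsFractionRing.ringEquivOfRingEquiv_algebraMap]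
    exact (MvPolynomial.isEmptyAlgEquiv ℂ (Fin 0)).commutes z
  | succ m ih =>
    obtain ⟨F, _, c, t, hL, e, he1, he2⟩ := ih
    obtain ⟨e', h0, h1, h2⟩ := Transfer_last e
    refine ⟨RatFunc F, inferInstance, (RatFunc.C : F →+* RatFunc F).comp c,
      fun i => if i < m then RatFunc.C (t i) else RatFunc.X,
      Lv.succ m F c t _ hL (fun i hi => if_pos hi) (if_neg (lt_irrefl m)), e', ?_, ?_⟩
    · intro j
      refine Fin.lastCases ?_ (fun i => ?_) j
      · rw [h0]
        simp
      · rw [h1, he1]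
        simp
    · intro z
      rw [h2, he2]
      rfl

/-- more variables, after the first m -/
private theorem Transfer_tw (m k : ℕ) {F : Type} [Field F] (e0 : KF (Fin m) ≃+* F) :
    ∃ (K : Type) (_ : Field K) (φ : F →+* K) (_ : Tw F K φ) (e : KF (Fin (m + k)) ≃+* K),
      (∀ j : Fin m, e (xv (Fin.castAdd k j)) = φ (e0 (xv j))) ∧
        ∀ z : ℂ, e (cc _ z) = φ (e0 (cc _ z)) := by
  induction k with
  | zero =>
    exact ⟨F, inferInstance, RingHom.id F, Tw.base, e0, fun j => rfl, fun z => rfl⟩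
  | succ k ih =>
    obtain ⟨K, _, φ, hT, e, he1, he2⟩ := ih
    obtain ⟨e', _, h1, h2⟩ := Transfer_last e
    refine ⟨RatFunc K, inferInstance, (RatFunc.C : K →+* RatFunc K).comp φ, Tw.step K φ hT, e',
      ?_, ?_⟩
    · intro j
      have h3 := h1 (Fin.castAdd k j)
      rw [he1] at h3
      exact h3
    · intro z
      have h3 := h2 z
      rw [he2] at h3
      exact h3

/-- a permutation which moves ι to the inclusion of the first m elements -/
private theorem Transfer_perm (m n : ℕ) (hmn : m ≤ n) (ι : Fin m → Fin n)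
    (hι : Function.Injective ι) : ∃ π : Fin n ≃ Fin n, ∀ j : Fin m, π (ι j) = Fin.castLE hmn j := by
  have hκ : Function.Injective (Fin.castLE hmn) := Fin.castLE_injective hmn
  let E : {x // x ∈ Set.range ι} ≃ {x // x ∈ Set.range (Fin.castLE hmn)} :=
    (Equiv.ofInjective ι hι).symm.trans (Equiv.ofInjective (Fin.castLE hmn) hκ)
  classical
  refine ⟨Equiv.extendSubtype E, fun j => ?_⟩
  have hj : ι j ∈ Set.range ι := ⟨j, rfl⟩
  have h1 := Equiv.extendSubtype_apply_of_mem E (ι j) hj
  refine h1.trans ?_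
  have h2 : (Equiv.ofInjective ι hι).symm ⟨ι j, hj⟩ = j := by
    rw [Equiv.symm_apply_eq]
    rfl
  show ((Equiv.ofInjective (Fin.castLE hmn) hκ) ((Equiv.ofInjective ι hι).symm ⟨ι j, hj⟩) : Fin n) = _
  rw [h2]
  rfl

/-- Induction on n - m; rename the variables such that ι is the inclusion of the first m. -/
theorem exists_lv_tw (m n : ℕ) (hmn : m < n) (ι : Fin m → Fin n) (hι : Function.Injective ι) :
    ∃ (F : Type) (_ : Field F) (c : ℂ →+* F) (t : ℕ → F) (_ : Lv m F c t)
      (K : Type) (_ : Field K) (φ : F →+* K) (_ : Tw F K φ) (e : KF (Fin n) ≃+* RatFunc K),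
      (∀ j : Fin m, e (xv (ι j)) = RatFunc.C (φ (t j))) ∧
        ∀ z : ℂ, e (cc _ z) = RatFunc.C (φ (c z)) := by
  obtain ⟨F, _, c, t, hL, e0, h01, h02⟩ := exists_lv m
  obtain ⟨k, rfl⟩ : ∃ k, n = m + k + 1 := ⟨n - m - 1, by omega⟩
  obtain ⟨K, _, φ, hT, e, he1, he2⟩ := Transfer_tw m k e0
  obtain ⟨π, hπ⟩ := Transfer_perm m (m + k + 1) (by omega) ι hι
  obtain ⟨e1, h11, h12⟩ := equiv_rename π
  obtain ⟨e2, _, h21, h22⟩ := Transfer_last e
  refine ⟨F, inferInstance, c, t, hL, K, inferInstance, φ, hT, e1.trans e2, ?_, ?_⟩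
  · intro j
    rw [RingEquiv.trans_apply, h11, hπ]
    have h1 : Fin.castLE (by omega) j = (Fin.castAdd k j).castSucc := rfl
    rw [h1, h21, he1, h01]
  · intro z
    rw [RingEquiv.trans_apply, h12, h22, he2, h02]

end MP4369f4
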