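import Pool.Agent.Lib_MP_4369f4_m.PolDSem
import Pool.Agent.Lib_MP_4369f4_m.FoPol
import Pool.Agent.Lib_MP_4369f4_m.Transfer

/-! H22 Z: assembly. -/

namespace MP4369f4

open FirstOrder

/-- the sequence of terms -/
private def Main_t (m : ℕ) (i : ℕ) (K : Type) [Field K] (v : Fin (m + 2) → K) : K :=
  if h : i < m + 1 then v ⟨i + 1, by omega⟩ else v 0

private theorem Main_tm (m : ℕ) (i : ℕ) : TmA (Fin (m + 2)) (Main_t m i) := by
  by_cases h : i < m + 1
  · have h1 : Main_t m i = fun (K : Type) [Field K] (v : Fin (m + 2) → K) => v ⟨i + 1, by omega⟩ := by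
      funext K _ v
      unfold Main_t
      rw [dif_pos h]
    rw [h1]
    exact TmA.var _
  · have h1 : Main_t m i = fun (K : Type) [Field K] (v : Fin (m + 2) → K) => v 0 := by
      funext K _ v
      unfold Main_t
      rw [dif_neg h]
    rw [h1]
    exact TmA.var _

/-- For every m there is one formula which defines, in ℂ(t_1,...,t_n) for every n > m + 1, the ring of
polynomials in any m + 1 of the variables, with these variables as parameters. Put
τ i = v ⟨i + 1⟩ for i < m + 1, τ i = v 0 otherwise; `FoA.polD`, `FoA.equiv_iff`, `exists_lv_tw`,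
`polD_iff`. -/
theorem main_m (m : ℕ) : ∃ Φ : Language.ring.Formula (Fin (m + 2)), ∀ n : ℕ, m + 1 < n →
    ∀ ι : Fin (m + 1) → Fin n, Function.Injective ι →
    ∀ x : FractionRing (MvPolynomial (Fin n) ℂ),
    letI := Ring.compatibleRingOfRing (FractionRing (MvPolynomial (Fin n) ℂ))
    (Φ.Realize (Fin.cons (α := fun _ => FractionRing (MvPolynomial (Fin n) ℂ)) x
        (fun j => algebraMap (MvPolynomial (Fin n) ℂ) (FractionRing (MvPolynomial (Fin n) ℂ))
          (MvPolynomial.X (ι j)))) ↔
      ∃ p : MvPolynomial (Fin (m + 1)) ℂ, x = algebraMap (MvPolynomial (Fin n) ℂ)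
        (FractionRing (MvPolynomial (Fin n) ℂ)) (MvPolynomial.rename ι p)) := by
  have hFo := FoA.polD (α := Fin (m + 2)) m (t := Main_t m) (x := fun K _ v => v 0)
    (fun i => Main_tm m i) (TmA.var 0)
  obtain ⟨Φ, hΦ⟩ := id hFo
  refine ⟨Φ, ?_⟩
  intro n hn ι hι x
  letI := Ring.compatibleRingOfRing (FractionRing (MvPolynomial (Fin n) ℂ))
  obtain ⟨F, _, c, t, hL, K, _, φ, hT, e, he1, he2⟩ := exists_lv_tw (m + 1) n hn ι hι
  have h1 := hΦ (FractionRing (MvPolynomial (Fin n) ℂ))
    (Fin.cons (α := fun _ => FractionRing (MvPolynomial (Fin n) ℂ)) x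
        (fun j => algebraMap (MvPolynomial (Fin n) ℂ) (FractionRing (MvPolynomial (Fin n) ℂ))
          (MvPolynomial.X (ι j))))
  have h2 := FoA.equiv_iff hFo e (Fin.cons (α := fun _ => FractionRing (MvPolynomial (Fin n) ℂ)) x
        (fun j => algebraMap (MvPolynomial (Fin n) ℂ) (FractionRing (MvPolynomial (Fin n) ℂ))
          (MvPolynomial.X (ι j))))
  refine h1.trans (h2.trans ?_)
  have h3 := polD_iff m hL hT
    (tK := fun i => Main_t m i (RatFunc K) (fun a => e ((Fin.cons
        (α := fun _ => FractionRing (MvPolynomial (Fin n) ℂ)) x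
        (fun j => algebraMap (MvPolynomial (Fin n) ℂ) (FractionRing (MvPolynomial (Fin n) ℂ))
          (MvPolynomial.X (ι j))) : Fin (m + 2) → FractionRing (MvPolynomial (Fin n) ℂ)) a)))
    (by
      intro i hi
      have h4 := he1 ⟨i, hi⟩
      unfold Main_t
      rw [dif_pos hi]
      exact h4) (e x)
  have h4 : ∀ p : MvPolynomial (Fin (m + 1)) ℂ,
      e (algebraMap (MvPolynomial (Fin n) ℂ) (FractionRing (MvPolynomial (Fin n) ℂ))
        (MvPolynomial.rename ι p)) = RatFunc.C (φ (pev (m + 1) c t p)) := by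
    intro p
    have h5 : ((e : KF (Fin n) →+* RatFunc K).comp
        (algebraMap (MvPolynomial (Fin n) ℂ) (KF (Fin n)))).comp
        ((MvPolynomial.rename ι : MvPolynomial (Fin (m + 1)) ℂ →ₐ[ℂ] MvPolynomial (Fin n) ℂ) :
          MvPolynomial (Fin (m + 1)) ℂ →+* MvPolynomial (Fin n) ℂ) =
        ((RatFunc.C : K →+* RatFunc K).comp φ).comp
          (MvPolynomial.eval₂Hom c (fun i : Fin (m + 1) => t i)) := by
      apply MvPolynomial.ringHom_ext
      · intro z
        have h6 := he2 z
        unfold cc at h6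
        simpa using h6
      · intro i
        have h6 := he1 i
        unfold xv at h6
        simpa using h6
    exact congrArg (fun f => f p) h5
  refine h3.trans ?_
  apply exists_congr
  intro p
  rw [← h4 p, e.injective.eq_iff]

end MP4369f4
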