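import Pool.Agent.Lib_MP_4369f4_m.FracA

/-! H22 H4: polynomials are recognised by their values at t_m = z. -/

namespace MP4369f4

open Polynomial

/-- Nullstellensatz: if p, q are relatively prime and every zero of q is a zero of p then q is a unit
(`MvPolynomial.vanishingIdeal_zeroLocus_eq_radical`: q divides a power of p). -/
theorem isUnit_of_zeros {m : ℕ} {p q : MvPolynomial (Fin m) ℂ} (hpq : IsRelPrime p q)
    (h : ∀ v : Fin m → ℂ, MvPolynomial.eval v q = 0 → MvPolynomial.eval v p = 0) :
    IsUnit q := by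
  have h1 : p ∈ MvPolynomial.vanishingIdeal ℂ
      (MvPolynomial.zeroLocus ℂ (Ideal.span {q} : Ideal (MvPolynomial (Fin m) ℂ))) := by
    rw [MvPolynomial.mem_vanishingIdeal_iff]
    intro x hx
    rw [MvPolynomial.mem_zeroLocus_iff] at hx
    have h2 := hx q (Ideal.subset_span rfl)
    have e : ∀ g : MvPolynomial (Fin m) ℂ, MvPolynomial.aeval x g = MvPolynomial.eval x g :=
      fun g => by rw [← MvPolynomial.coe_aeval_eq_eval]; rfl
    rw [e] at h2 ⊢
    exact h x h2
  rw [MvPolynomial.vanishingIdeal_zeroLocus_eq_radical, Ideal.mem_radical_iff] at h1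
  obtain ⟨n, hn⟩ := h1
  rw [Ideal.mem_span_singleton] at hn
  exact (IsRelPrime.pow_left (m := n) hpq) hn dvd_rfl

/-- `pev` as a ring homomorphism. -/
private noncomputable def polySem_hom {F : Type*} [Field F] (m : ℕ) (c : ℂ →+* F) (t : ℕ → F) :
    MvPolynomial (Fin m) ℂ →+* F := MvPolynomial.eval₂Hom c (fun i : Fin m => t i)

private theorem polySem_eval_spz {m : ℕ} (z : ℂ) (y : Fin m → ℂ)
    (p : MvPolynomial (Fin (m + 1)) ℂ) :
    MvPolynomial.eval y (spz m z p) =
      MvPolynomial.eval (Fin.snoc (α := fun _ => ℂ) y z) p := by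
  have h : (MvPolynomial.eval y).comp
        (MvPolynomial.aeval (Fin.snoc (α := fun _ => MvPolynomial (Fin m) ℂ)
          (fun i : Fin m => MvPolynomial.X i) (MvPolynomial.C z)) :
          MvPolynomial (Fin (m + 1)) ℂ →ₐ[ℂ] MvPolynomial (Fin m) ℂ).toRingHom =
      MvPolynomial.eval (Fin.snoc (α := fun _ => ℂ) y z) := by
    apply MvPolynomial.ringHom_ext
    · intro r
      simp
    · intro i
      refine Fin.lastCases ?_ (fun j => ?_) i
      · simp
      · simp
  exact RingHom.congr_fun h p

/-- <-: f = algebraMap P (`exists_polyF`), r = spz z p, P - P(z) = (X - z) P1.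
->: f = p/q with p, q relatively prime in m + 1 variables (`Lv.exists_frac_coprime`). Let
(v, z) be a zero of q, P, Q in F[X] the polynomials of p, q (`exists_polyF`). From
f = r + (X - z) P1/Q1, Q1(z) not 0: P Q1 = Q (r Q1 + (X - z) P1), so P(z) = r Q(z),
i.e. spz z p = r * spz z q (`Lv.pev_injective` for F), evaluate at v: p(v, z) = r(v) q(v, z) = 0. So q is
a unit by `isUnit_of_zeros`. -/
theorem Lv.pol_iff {m : ℕ} {F : Type} [Field F] {c : ℂ →+* F} {t : ℕ → F}
    (h : Lv m F c t) {t' : ℕ → RatFunc F} (ht : ∀ i < m, t' i = RatFunc.C (t i))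
    (htm : t' m = RatFunc.X) (f : RatFunc F) :
    (∀ z : ℂ, ∃ (r : MvPolynomial (Fin m) ℂ) (P Q : F[X]), Q.eval (c z) ≠ 0 ∧
      f = RatFunc.C (pev m c t r) + (RatFunc.X - RatFunc.C (c z)) *
        (algebraMap F[X] (RatFunc F) P / algebraMap F[X] (RatFunc F) Q)) ↔
      ∃ p : MvPolynomial (Fin (m + 1)) ℂ,
        f = pev (m + 1) ((RatFunc.C : F →+* RatFunc F).comp c) t' p := by
  have hL : Lv (m + 1) (RatFunc F) ((RatFunc.C : F →+* RatFunc F).comp c) t' :=
    Lv.succ m F c t t' h ht htm
  have hinj : Function.Injective (algebraMap F[X] (RatFunc F)) :=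
    IsFractionRing.injective F[X] (RatFunc F)
  constructor
  · intro hf
    obtain ⟨p, q, hq, hpq, hx⟩ := hL.exists_frac_coprime f
    have hu : IsUnit q := by
      refine isUnit_of_zeros hpq fun v hv => ?_
      set z : ℂ := v (Fin.last m) with hz
      set y : Fin m → ℂ := fun i => v i.castSucc with hy
      have hv' : (Fin.snoc (α := fun _ => ℂ) y z) = v := Fin.snoc_init_self v
      obtain ⟨r, P1, Q1, hQ1, hf1⟩ := hf z
      obtain ⟨P, hP, hPe⟩ := exists_polyF (c := c) ht htm p
      obtain ⟨Q, hQ, hQe⟩ := exists_polyF (c := c) ht htm q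
      have hQ0 : Q ≠ 0 := by
        intro h0
        apply hq
        apply hL.pev_injective
        rw [hQ, h0, map_zero]
        exact (map_zero (polySem_hom (m + 1) ((RatFunc.C : F →+* RatFunc F).comp c) t')).symm
      have hQ1' : Q1 ≠ 0 := by
        rintro rfl
        exact hQ1 (Polynomial.eval_zero)
      have hQa : algebraMap F[X] (RatFunc F) Q ≠ 0 := by
        rw [Ne, map_eq_zero_iff _ hinj]; exact hQ0
      have hQ1a : algebraMap F[X] (RatFunc F) Q1 ≠ 0 := by
        rw [Ne, map_eq_zero_iff _ hinj]; exact hQ1'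
      have key : P * Q1 = Q * (Polynomial.C (pev m c t r) * Q1 +
          (Polynomial.X - Polynomial.C (c z)) * P1) := by
        apply hinj
        rw [hx, hP, hQ] at hf1
        simp only [map_mul, map_add, map_sub, RatFunc.algebraMap_C, RatFunc.algebraMap_X]
        field_simp at hf1
        linear_combination hf1
      have h1 := congrArg (Polynomial.eval (c z)) key
      simp only [Polynomial.eval_mul, Polynomial.eval_add, Polynomial.eval_sub,
        Polynomial.eval_C, Polynomial.eval_X, sub_self, zero_mul, add_zero] at h1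
      have h2 : P.eval (c z) = Q.eval (c z) * pev m c t r := by
        apply mul_right_cancel₀ hQ1
        rw [h1, mul_assoc]
      rw [hPe, hQe] at h2
      have h3 : spz m z p = spz m z q * r := by
        apply h.pev_injective
        rw [h2]
        exact (map_mul (polySem_hom m c t) _ _).symm
      have h4 := congrArg (MvPolynomial.eval y) h3
      rw [map_mul, polySem_eval_spz, polySem_eval_spz, hv', hv, zero_mul] at h4
      exact h4
    obtain ⟨q', hq'⟩ := hu.exists_right_inv
    refine ⟨p * q', ?_⟩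
    rw [hx]
    have h5 : pev (m + 1) ((RatFunc.C : F →+* RatFunc F).comp c) t' (p * q') =
        pev (m + 1) ((RatFunc.C : F →+* RatFunc F).comp c) t' p *
          pev (m + 1) ((RatFunc.C : F →+* RatFunc F).comp c) t' q' :=
      map_mul (polySem_hom (m + 1) ((RatFunc.C : F →+* RatFunc F).comp c) t') _ _
    have h6 : pev (m + 1) ((RatFunc.C : F →+* RatFunc F).comp c) t' q *
          pev (m + 1) ((RatFunc.C : F →+* RatFunc F).comp c) t' q' = 1 := by
      have h7 := map_mul (polySem_hom (m + 1) ((RatFunc.C : F →+* RatFunc F).comp c) t') q q'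
      rw [hq', map_one] at h7
      exact h7.symm
    rw [h5, div_eq_mul_inv, eq_inv_of_mul_eq_one_right h6]
  · rintro ⟨p, rfl⟩ z
    obtain ⟨P, hP, hPe⟩ := exists_polyF (c := c) ht htm p
    obtain ⟨P1, hP1⟩ := Polynomial.X_sub_C_dvd_sub_C_eval (p := P) (a := c z)
    refine ⟨spz m z p, P1, 1, ?_, ?_⟩
    · rw [Polynomial.eval_one]; exact one_ne_zero
    · rw [hP, ← hPe, map_one, div_one, ← RatFunc.algebraMap_C, ← RatFunc.algebraMap_C,
        ← RatFunc.algebraMap_X, ← map_sub, ← map_mul, ← hP1, ← map_add]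
      congr 1
      ring

end MP4369f4
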