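import Pool.Agent.Lib_MP_4369f4_m.EvSem
import Pool.Agent.Lib_MP_4369f4_m.PolySem

/-! H22 H5: meaning of PolD. -/

namespace MP4369f4

open Polynomial

private theorem polDSem_pev_hom {F : Type*} [Field F] (m : ℕ) (c : ℂ →+* F) (t : ℕ → F)
    (p : MvPolynomial (Fin m) ℂ) :
    pev m c t p = MvPolynomial.eval₂Hom c (fun i : Fin m => t i) p := rfl

private theorem polDSem_zero {F : Type*} [Field F] (c : ℂ →+* F) (t : ℕ → F) (y : F) :
    (∃ p : ℂ[X], y = p.eval₂ c (t 0)) ↔ ∃ p : MvPolynomial (Fin (0 + 1)) ℂ, y = pev (0 + 1) c t p := by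
  constructor
  · rintro ⟨p, rfl⟩
    refine ⟨p.eval₂ MvPolynomial.C (MvPolynomial.X 0), ?_⟩
    rw [polDSem_pev_hom, Polynomial.hom_eval₂]
    congr 1
    · ext z
      simp
    · simp
  · rintro ⟨p, rfl⟩
    refine ⟨MvPolynomial.eval₂Hom Polynomial.C (fun _ => Polynomial.X) p, ?_⟩
    rw [polDSem_pev_hom]
    have h : MvPolynomial.eval₂Hom c (fun i : Fin (0 + 1) => t i) =
        (Polynomial.eval₂RingHom c (t 0)).comp
          (MvPolynomial.eval₂Hom (Polynomial.C : ℂ →+* ℂ[X])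
            (fun _ : Fin (0 + 1) => (Polynomial.X : ℂ[X]))) := by
      apply MvPolynomial.ringHom_ext
      · intro z
        simp
      · intro i
        have hi : i = 0 := Fin.ext (by have := i.isLt; simp)
        subst hi
        simp
    rw [h]
    rfl

/-- Induction on m. m = 0: `Lv.polyP_iff`. m + 1: F = RatFunc F0, `Amb`; `Amb.inK_iff'`,
`Amb.cst_iff`, `Amb.inO_iff`, the induction hypothesis for F0 and the tower K over F0
(`Tw.trans`, the image of PolD m in RatFunc K), and `Lv.pol_iff`. -/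
theorem polD_iff (m : ℕ) {F K : Type} [Field F] [Field K] {c : ℂ →+* F} {t : ℕ → F}
    {φ : F →+* K} (h : Lv (m + 1) F c t) (hT : Tw F K φ) {tK : ℕ → RatFunc K}
    (ht : ∀ i < m + 1, tK i = RatFunc.C (φ (t i))) (x : RatFunc K) :
    PolD m tK x ↔ ∃ p : MvPolynomial (Fin (m + 1)) ℂ,
      x = RatFunc.C (φ (pev (m + 1) c t p)) := by
  induction m generalizing F K x with
  | zero =>
    have h1 : PolD 0 tK x ↔ PolyP (RatFunc.C (φ (t 0))) x := by
      rw [← ht 0 (by omega)]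
      rfl
    rw [h1, h.polyP_iff hT x]
    constructor
    · rintro ⟨p, rfl⟩
      obtain ⟨q, hq⟩ := (polDSem_zero c t _).1 ⟨p, rfl⟩
      exact ⟨q, by rw [hq]⟩
    · rintro ⟨p, rfl⟩
      obtain ⟨q, hq⟩ := (polDSem_zero c t _).2 ⟨p, rfl⟩
      exact ⟨q, by rw [hq]⟩
  | succ m ih =>
    cases h with
    | succ _ F0 c0 t0 t h0 ht0 htm =>
      have A : Amb m F0 K c0 t0 φ tK := by
        refine ⟨h0, hT, ?_, ?_⟩
        · intro i hi
          rw [ht i (by omega), ht0 i hi]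
        · rw [ht (m + 1) (by omega), htm]
      have hT0 : Tw F0 K (φ.comp (((RatFunc.C : F0 →+* RatFunc F0)).comp (RingHom.id F0))) :=
        (Tw.step F0 (RingHom.id F0) Tw.base).trans hT
      have ih' : ∀ r : RatFunc K, PolD m tK r ↔ ∃ p : MvPolynomial (Fin (m + 1)) ℂ,
          r = RatFunc.C (φ (RatFunc.C (pev (m + 1) c0 t0 p))) := by
        intro r
        exact ih h0 hT0 (fun i hi => A.ht i hi) r
      have hdef : PolD (m + 1) tK x ↔ (InK (m + 2) tK x ∧
          ∀ c, Cst c → ∃ r u, PolD m tK r ∧ InO (m + 1) tK c u ∧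
            x = r + (tK (m + 1) - c) * u) := Iff.rfl
      rw [hdef]
      constructor
      · rintro ⟨hx, hc⟩
        obtain ⟨f, rfl⟩ := (A.inK_iff' x).1 hx
        have hf : ∃ p : MvPolynomial (Fin (m + 1 + 1)) ℂ,
            f = pev (m + 1 + 1) ((RatFunc.C : F0 →+* RatFunc F0).comp c0) t p := by
          refine (h0.pol_iff ht0 htm f).1 ?_
          intro z
          obtain ⟨r, u, hr, hu, he⟩ := hc _ ((A.cst_iff _).2 ⟨z, rfl⟩)
          obtain ⟨p, rfl⟩ := (ih' r).1 hr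
          obtain ⟨P, Q, hQ, rfl⟩ := (A.inO_iff z u).1 hu
          refine ⟨p, P, Q, hQ, ?_⟩
          apply φ.injective
          apply RatFunc.C.injective
          rw [he, A.htm]
          simp only [map_add, map_mul, map_sub]
        obtain ⟨p, hp⟩ := hf
        exact ⟨p, by rw [hp]⟩
      · rintro ⟨p, rfl⟩
        refine ⟨(A.inK_iff' _).2 ⟨_, rfl⟩, ?_⟩
        intro c hc
        obtain ⟨z, rfl⟩ := (A.cst_iff c).1 hc
        obtain ⟨r, P, Q, hQ, he⟩ := (h0.pol_iff ht0 htm _).2 ⟨p, rfl⟩ z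
        refine ⟨RatFunc.C (φ (RatFunc.C (pev (m + 1) c0 t0 r))),
          RatFunc.C (φ (algebraMap F0[X] (RatFunc F0) P / algebraMap F0[X] (RatFunc F0) Q)),
          (ih' _).2 ⟨r, rfl⟩, (A.inO_iff z _).2 ⟨P, Q, hQ, rfl⟩, ?_⟩
        rw [he, A.htm]
        simp only [map_add, map_mul, map_sub]

end MP4369f4
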