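import Pool.Agent.Lib_MP_4369f4_m.Defs

/-! H22 A1: systems of quadratic forms over the complex numbers. -/

namespace MP4369f4

section QuadCAux

open MvPolynomial

variable {ι : Type}

private noncomputable def quadCKill [DecidableEq ι] (S : Finset ι) :
    MvPolynomial ι ℂ →ₐ[ℂ] MvPolynomial ι ℂ :=
  MvPolynomial.aeval (fun a => if a ∈ S then 0 else X a)

private lemma quadC_eval_kill [DecidableEq ι] (S : Finset ι) (p : MvPolynomial ι ℂ) :
    eval (0 : ι → ℂ) (quadCKill S p) = eval (0 : ι → ℂ) p := by
  have h : (eval (0 : ι → ℂ)).comp (quadCKill S : MvPolynomial ι ℂ →+* MvPolynomial ι ℂ)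
      = eval (0 : ι → ℂ) := by
    refine MvPolynomial.ringHom_ext ?_ ?_
    · intro r
      simp [quadCKill]
    · intro a
      by_cases ha : a ∈ S <;> simp [quadCKill, ha]
  exact RingHom.congr_fun h p

private lemma quadC_height [DecidableEq ι] (S : Finset ι) :
    ((S.card : ℕ) : ℕ∞) ≤ (RingHom.ker (quadCKill S)).height := by
  classical
  induction S using Finset.induction_on with
  | empty => simp
  | insert a S ha ih =>
    have h1 : (RingHom.ker (quadCKill S)).IsPrime := RingHom.ker_isPrime _
    have h2 : (RingHom.ker (quadCKill (insert a S))).IsPrime := RingHom.ker_isPrime _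
    have hcomp : ∀ p, quadCKill (insert a S) p = quadCKill {a} (quadCKill S p) := by
      intro p
      have h : (quadCKill (insert a S)) = (quadCKill {a}).comp (quadCKill S) := by
        refine MvPolynomial.algHom_ext ?_
        intro b
        by_cases hb : b ∈ S
        · simp [quadCKill, hb]
        · by_cases hba : b = a
          · subst hba
            simp [quadCKill, hb]
          · simp [quadCKill, hb, hba]
      rw [h]; rfl
    have hle : RingHom.ker (quadCKill S) ≤ RingHom.ker (quadCKill (insert a S)) := by
      intro p hp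
      rw [RingHom.mem_ker] at hp ⊢
      rw [hcomp, hp, map_zero]
    have hlt : RingHom.ker (quadCKill S) < RingHom.ker (quadCKill (insert a S)) := by
      refine lt_of_le_of_ne hle ?_
      intro heq
      have hX : (X a : MvPolynomial ι ℂ) ∈ RingHom.ker (quadCKill (insert a S)) := by
        rw [RingHom.mem_ker]
        simp [quadCKill]
      rw [← heq, RingHom.mem_ker] at hX
      simp [quadCKill, ha] at hX
    have h3 := Ideal.height_add_one_le_of_lt_of_isPrime hlt
    rw [Finset.card_insert_of_notMem ha]
    push_cast
    exact (by gcongr : ((S.card : ℕ∞) + 1) ≤ (RingHom.ker (quadCKill S)).height + 1).trans h3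

end QuadCAux

/-- r quadratic forms in more than r variables over ℂ have a common nontrivial zero. Suppose not.
Let N = card ι, I the ideal of ℂ[X_i : i in ι] spanned by the r polynomials
Q_i = ∑_{a,b} A i a b X_a X_b. The zero locus of I is {0}, so by the Nullstellensatz
(`MvPolynomial.vanishingIdeal_zeroLocus_eq_radical`) the radical of I is the maximal ideal
M = (X_a : a in ι), which is therefore a minimal prime over I, so by Krull's height theorem
(`Ideal.height_le_spanRank_toENat_of_mem_minimalPrimes` / `Ideal.height_le_spanFinrank`) the height of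
M is at most r < N. But M has height at least N: chain of the primes (X_a : a in S_j),
S_0 < S_1 < ... (or the Krull dimension of polynomial rings,
`MvPolynomial.ringKrullDim_of_isNoetherianRing`, and all maximal ideals have the same height). -/
theorem tl_complex : TL ℂ 1 := by
  classical
  intro ι κ _ _ A hcard
  by_contra hno
  push Not at hno
  rw [one_mul] at hcard
  let Q : κ → MvPolynomial ι ℂ := fun i =>
    ∑ a, ∑ b, MvPolynomial.C (A i a b) * MvPolynomial.X a * MvPolynomial.X b
  have hQ : ∀ i (v : ι → ℂ), MvPolynomial.aeval v (Q i) = ∑ a, ∑ b, A i a b * v a * v b := by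
    intro i v
    simp [Q, map_sum]
  let I : Ideal (MvPolynomial ι ℂ) := Ideal.span (Set.range Q)
  have hcard0 : 0 < Fintype.card ι := lt_of_le_of_lt (Nat.zero_le _) hcard
  have hzero : MvPolynomial.zeroLocus ℂ I = {0} := by
    ext v
    constructor
    · intro hv
      by_contra hv0
      obtain ⟨i, hi⟩ := hno v hv0
      apply hi
      rw [← hQ]
      exact (MvPolynomial.mem_zeroLocus_iff.1 hv) _ (Ideal.subset_span ⟨i, rfl⟩)
    · intro hv
      rw [Set.mem_singleton_iff] at hv
      subst hv
      change (0 : ι → ℂ) ∈ MvPolynomial.zeroLocus ℂ (Ideal.span (Set.range Q))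
      rw [MvPolynomial.zeroLocus_span]
      rintro _ ⟨i, rfl⟩
      rw [hQ]
      simp
  have hrad : I.radical = MvPolynomial.vanishingIdeal ℂ {(0 : ι → ℂ)} := by
    rw [← MvPolynomial.vanishingIdeal_zeroLocus_eq_radical (K := ℂ) I, hzero]
  have hprime : (MvPolynomial.vanishingIdeal ℂ {(0 : ι → ℂ)}).IsPrime := by
    have : (MvPolynomial.vanishingIdeal ℂ {(0 : ι → ℂ)}).IsMaximal := inferInstance
    exact this.isPrime
  have hmin : MvPolynomial.vanishingIdeal ℂ {(0 : ι → ℂ)} ∈ I.minimalPrimes := by
    refine ⟨⟨hprime, ?_⟩, ?_⟩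
    · rw [← hrad]; exact Ideal.le_radical
    · rintro q ⟨hq, hIq⟩ _
      rw [← hrad]
      exact hq.radical_le_iff.2 hIq
  have h1 := Ideal.height_le_card_of_mem_minimalPrimes_span (Set.finite_range Q) hmin
  have h2 : ((Set.range Q).ncard : ℕ∞) ≤ (Fintype.card κ : ℕ∞) := by
    have : (Set.range Q).ncard ≤ Fintype.card κ := by
      rw [← Set.image_univ, ← Nat.card_eq_fintype_card, ← Set.ncard_univ]
      exact Set.ncard_image_le Set.finite_univ
    exact_mod_cast this
  have h3 := quadC_height (Finset.univ : Finset ι)
  have h4 : RingHom.ker (quadCKill (Finset.univ : Finset ι)) ≤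
      MvPolynomial.vanishingIdeal ℂ {(0 : ι → ℂ)} := by
    intro p hp
    rw [MvPolynomial.mem_vanishingIdeal_singleton_iff]
    rw [RingHom.mem_ker] at hp
    have h5 := quadC_eval_kill (Finset.univ : Finset ι) p
    rw [hp, map_zero] at h5
    rw [MvPolynomial.aeval_eq_eval]
    exact h5.symm
  have h6 := h3.trans ((Ideal.height_mono h4).trans (h1.trans h2))
  rw [Finset.card_univ] at h6
  have h7 : Fintype.card ι ≤ Fintype.card κ := by exact_mod_cast h6
  omega

end MP4369f4
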