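import Pool.Agent.Lib_MP_4369f4_m.Defs

/-! Basic facts on `Rep` and `Aniso` (done). -/

namespace MP4369f4

open Polynomial

theorem Rep.congr {K : Type*} [Field K] {m : ℕ} {d d' : ℕ → K} (h : ∀ j < m, d j = d' j) {x : K}
    (hx : Rep m d x) : Rep m d' x := by
  induction m generalizing x with
  | zero => exact hx
  | succ m ih =>
    obtain ⟨v, w, hv, hw, rfl⟩ := hx
    refine ⟨v, w, ih (fun j hj => h j (by omega)) hv, ih (fun j hj => h j (by omega)) hw, ?_⟩
    rw [h m (by omega)]

theorem Rep.zero {K : Type*} [Field K] (m : ℕ) (d : ℕ → K) : Rep m d 0 := by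
  induction m with
  | zero => exact ⟨0, by ring⟩
  | succ m ih => exact ⟨0, 0, ih, ih, by ring⟩

theorem Rep.one {K : Type*} [Field K] (m : ℕ) (d : ℕ → K) : Rep m d 1 := by
  induction m with
  | zero => exact ⟨1, by ring⟩
  | succ m ih => exact ⟨1, 0, ih, Rep.zero m d, by ring⟩

theorem Rep.mul_sq {K : Type*} [Field K] {m : ℕ} {d : ℕ → K} {x : K} (hx : Rep m d x) (s : K) :
    Rep m d (x * s ^ 2) := by
  induction m generalizing x with
  | zero =>
    obtain ⟨u, rfl⟩ := hx
    exact ⟨u * s, by ring⟩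
  | succ m ih =>
    obtain ⟨v, w, hv, hw, rfl⟩ := hx
    exact ⟨v * s ^ 2, w * s ^ 2, ih hv, ih hw, by ring⟩

theorem Rep.map {K L : Type*} [Field K] [Field L] (f : K →+* L) {m : ℕ} {d : ℕ → K} {x : K}
    (hx : Rep m d x) : Rep m (fun j => f (d j)) (f x) := by
  induction m generalizing x with
  | zero =>
    obtain ⟨u, rfl⟩ := hx
    exact ⟨f u, by rw [map_pow]⟩
  | succ m ih =>
    obtain ⟨v, w, hv, hw, rfl⟩ := hx
    exact ⟨f v, f w, ih hv, ih hw, by rw [map_sub, map_mul]⟩

theorem Aniso.congr {K : Type*} [Field K] {m : ℕ} {d d' : ℕ → K} (h : ∀ j < m, d j = d' j)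
    (hd : Aniso m d) : Aniso m d' := by
  induction m with
  | zero => trivial
  | succ m ih =>
    refine ⟨ih (fun j hj => h j (by omega)) hd.1, fun v w hv hw hvw => ?_⟩
    have h' : ∀ j < m, d' j = d j := fun j hj => (h j (by omega)).symm
    exact hd.2 v w (hv.congr h') (hw.congr h') (by rw [hvw, h m (by omega)])

theorem Aniso.of_map {K L : Type*} [Field K] [Field L] (f : K →+* L) {m : ℕ} {d : ℕ → K}
    (h : Aniso m (fun j => f (d j))) : Aniso m d := by
  induction m with
  | zero => trivial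
  | succ m ih =>
    refine ⟨ih h.1, fun v w hv hw hvw => ?_⟩
    have h1 := h.2 (f v) (f w) (hv.map f) (hw.map f) (by rw [hvw, map_mul])
    exact (map_eq_zero f).1 h1

theorem Aniso.ne_zero {K : Type*} [Field K] {m : ℕ} {d : ℕ → K} (h : Aniso m d) {j : ℕ}
    (hj : j < m) : d j ≠ 0 := by
  induction m with
  | zero => omega
  | succ m ih =>
    rcases Nat.lt_succ_iff_lt_or_eq.1 hj with h1 | h1
    · exact ih h.1 h1
    · subst h1
      intro h0
      have h2 := h.2 0 1 (Rep.zero _ _) (Rep.one _ _) (by rw [h0]; ring)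
      exact one_ne_zero h2

end MP4369f4
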