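import Pool.Agent.Lib_MP_4369f4_m.Defs

/-! H22 T2: reordering the variables of a tower. -/

namespace MP4369f4

open Polynomial

/-- k[X][Y] in k(X)(Y). -/
private noncomputable def incSwap (k : Type) [Field k] : k[X][X] →+* RatFunc (RatFunc k) :=
  (algebraMap (RatFunc k)[X] (RatFunc (RatFunc k))).comp
    (Polynomial.mapRingHom (algebraMap k[X] (RatFunc k)))

private theorem incSwap_C (k : Type) [Field k] (p : k[X]) :
    incSwap k (Polynomial.C p) = RatFunc.C (algebraMap k[X] (RatFunc k) p) := by
  simp [incSwap]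

private theorem incSwap_X (k : Type) [Field k] :
    incSwap k Polynomial.X = (RatFunc.X : RatFunc (RatFunc k)) := by
  simp [incSwap]

private theorem incSwap_inj (k : Type) [Field k] : Function.Injective (incSwap k) := by
  intro p q hpq
  have h1 := IsFractionRing.injective (RatFunc k)[X] (RatFunc (RatFunc k)) hpq
  exact Polynomial.map_injective _ (IsFractionRing.injective k[X] (RatFunc k)) h1

/-- k(X)(Y) is the fraction field of k[X][Y]. -/
private theorem exists_fracSwap (k : Type) [Field k] :
    ∃ e : FractionRing k[X][X] ≃+* RatFunc (RatFunc k),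
      ∀ p : k[X][X], e (algebraMap k[X][X] (FractionRing k[X][X]) p) = incSwap k p := by
  let f : FractionRing k[X][X] →+* RatFunc (RatFunc k) := IsFractionRing.lift (incSwap_inj k)
  have hf : ∀ p, f (algebraMap _ _ p) = incSwap k p := fun p =>
    IsFractionRing.lift_algebraMap (incSwap_inj k) p
  have hsurj : Function.Surjective f := by
    apply surj_of_gens f
    · intro a
      induction a using RatFunc.induction_on with
      | f p q hq =>
        refine ⟨algebraMap k[X][X] _ (Polynomial.C p) / algebraMap k[X][X] _ (Polynomial.C q), ?_⟩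
        rw [map_div₀, hf, hf, incSwap_C, incSwap_C, map_div₀]
    · exact ⟨algebraMap k[X][X] _ Polynomial.X, by rw [hf, incSwap_X]⟩
  exact ⟨RingEquiv.ofBijective f ⟨f.injective, hsurj⟩, hf⟩

/-- The automorphism of k(X)(Y) exchanging X and Y. `Polynomial.Bivariate.swap` on k[X][Y]; k(X)(Y)
is a fraction field of k[X][Y] (or: the homomorphism k[X][Y] -> k(X)(Y) given by swap followed by the
inclusion is injective, extend it first to (k(X))[Y], then to k(X)(Y); `surj_of_gens` of TRA gives
surjectivity). -/
theorem exists_swap (k : Type) [Field k] : ∃ σ : RatFunc (RatFunc k) ≃+* RatFunc (RatFunc k),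
    (∀ a : k, σ (RatFunc.C (RatFunc.C a : RatFunc k)) = RatFunc.C (RatFunc.C a : RatFunc k)) ∧
      σ (RatFunc.C (RatFunc.X : RatFunc k)) = RatFunc.X ∧
      σ RatFunc.X = RatFunc.C (RatFunc.X : RatFunc k) := by
  obtain ⟨e, he⟩ := exists_fracSwap k
  let g : FractionRing k[X][X] ≃+* FractionRing k[X][X] :=
    IsFractionRing.ringEquivOfRingEquiv (Polynomial.Bivariate.swap (R := k)).toRingEquiv
  have hg : ∀ p : k[X][X], g (algebraMap _ _ p) =
      algebraMap _ _ (Polynomial.Bivariate.swap (R := k) p) := fun p =>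
    IsFractionRing.ringEquivOfRingEquiv_algebraMap _ _
  have key : ∀ p q : k[X][X], Polynomial.Bivariate.swap (R := k) p = q →
      (e.symm.trans (g.trans e)) (incSwap k p) = incSwap k q := by
    intro p q hpq
    rw [RingEquiv.trans_apply, RingEquiv.trans_apply, ← he p, RingEquiv.symm_apply_apply, hg, hpq,
      he q]
  have hCX : incSwap k (Polynomial.C Polynomial.X) = RatFunc.C (RatFunc.X : RatFunc k) := by
    rw [incSwap_C, RatFunc.algebraMap_X]
  refine ⟨e.symm.trans (g.trans e), ?_, ?_, ?_⟩
  · intro a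
    have h := key (Polynomial.C (Polynomial.C a)) (Polynomial.C (Polynomial.C a))
      (Polynomial.Bivariate.swap_C_C a)
    rwa [incSwap_C, RatFunc.algebraMap_C] at h
  · have h := key (Polynomial.C Polynomial.X) Polynomial.X Polynomial.Bivariate.swap_X
    rwa [hCX, incSwap_X] at h
  · have h := key Polynomial.X (Polynomial.C Polynomial.X) Polynomial.Bivariate.swap_Y
    rwa [hCX, incSwap_X] at h

/-- Reordering: a tower over F0(X) is K0(X) with K0 a tower over F0. Induction on the tower; step:
`equiv_ratFunc` of TRA and `exists_swap`. -/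
theorem Tw.reorder {F0 K : Type} [Field F0] [Field K] {φ : RatFunc F0 →+* K}
    (hT : Tw (RatFunc F0) K φ) :
    ∃ (K0 : Type) (_ : Field K0) (φ0 : F0 →+* K0) (_ : Tw F0 K0 φ0) (e : K ≃+* RatFunc K0),
      (∀ y : F0, e (φ (RatFunc.C y)) = RatFunc.C (φ0 y)) ∧ e (φ RatFunc.X) = RatFunc.X := by
  induction hT with
  | base =>
    exact ⟨F0, inferInstance, RingHom.id F0, Tw.base, RingEquiv.refl _, fun y => rfl, rfl⟩
  | step K φ hT ih =>
    obtain ⟨K0, _, φ0, hT0, e, he1, he2⟩ := ih
    obtain ⟨E, hE⟩ := equiv_ratFunc e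
    obtain ⟨σ, hσ1, hσ2, _⟩ := exists_swap K0
    refine ⟨RatFunc K0, inferInstance, (RatFunc.C : K0 →+* RatFunc K0).comp φ0,
      Tw.step K0 φ0 hT0, E.trans σ, ?_, ?_⟩
    · intro y
      rw [RingEquiv.trans_apply, RingHom.comp_apply, hE, he1, hσ1, RingHom.comp_apply]
    · rw [RingEquiv.trans_apply, RingHom.comp_apply, hE, he2, hσ2]

end MP4369f4
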