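import Pool.Agent.Lib_MP_4369f4_m.Defs

/-! H22 T1: towers. -/

namespace MP4369f4

open Polynomial

theorem Tw.trans {A B C : Type} [Field A] [Field B] [Field C] {f : A →+* B} {g : B →+* C}
    (h : Tw A B f) (h' : Tw B C g) : Tw A C (g.comp f) := by
  induction h' with
  | base => exact h
  | step K φ hT ih => exact Tw.step K (φ.comp f) ih

/-- `isSquare_of_isSquare_C`. -/
theorem Tw.isSquare_of {F K : Type} [Field F] [Field K] {φ : F →+* K} (hT : Tw F K φ) {h : F}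
    (hs : IsSquare (φ h)) : IsSquare h := by
  induction hT with
  | base => exact hs
  | step K φ hT ih => exact ih (isSquare_of_isSquare_C hs)

/-- `nrm_of_nrm_C`. -/
theorem Tw.nrm_of {F K : Type} [Field F] [Field K] {φ : F →+* K} (hT : Tw F K φ)
    (h2 : (2 : F) ≠ 0) {f g : F} (hf : f ≠ 0) (hg : g ≠ 0) (h : Nrm (φ f) (φ g)) : Nrm f g := by
  induction hT with
  | base => exact h
  | step K φ hT ih =>
    have h2K : (2 : K) ≠ 0 := by
      intro h0
      apply h2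
      apply φ.injective
      rw [map_zero, ← h0]
      exact map_ofNat φ 2
    exact ih (nrm_of_nrm_C h2K ((map_ne_zero φ).2 hf) ((map_ne_zero φ).2 hg) h)

theorem Lv.charZero {m : ℕ} {F : Type} [Field F] {c : ℂ →+* F} {t : ℕ → F} (_h : Lv m F c t) :
    CharZero F := charZero_of_injective_ringHom c.injective

private theorem Towers_aux {m' : ℕ} {F : Type} [Field F] {c : ℂ →+* F} {t : ℕ → F}
    (h : Lv m' F c t) : ∀ m : ℕ, m' = m + 1 → ∃ χ : RatFunc ℂ →+* F, Tower F χ ∧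
      χ RatFunc.X = t 0 ∧ ∀ z : ℂ, χ (RatFunc.C z) = c z := by
  induction h with
  | zero t => intro m hm; omega
  | succ k F c t t' h hC hX ih =>
    intro m hm
    cases k with
    | zero =>
      cases h with
      | zero t => exact ⟨RingHom.id _, Tower.base, hX.symm, fun z => rfl⟩
    | succ k =>
      obtain ⟨χ, hχ, h1, h2⟩ := ih k rfl
      refine ⟨(RatFunc.C : F →+* RatFunc F).comp χ, Tower.step F χ hχ, ?_, ?_⟩
      · rw [RingHom.comp_apply, h1, hC 0 (Nat.succ_pos k)]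
      · intro z
        rw [RingHom.comp_apply, h2, RingHom.comp_apply]

/-- A level m + 1 field is a tower over C(t_0). -/
theorem Lv.exists_tower {m : ℕ} {F : Type} [Field F] {c : ℂ →+* F} {t : ℕ → F}
    (h : Lv (m + 1) F c t) : ∃ χ : RatFunc ℂ →+* F, Tower F χ ∧ χ RatFunc.X = t 0 ∧
      ∀ z : ℂ, χ (RatFunc.C z) = c z :=
  Towers_aux h m rfl

theorem Tower.tw {F K : Type} [Field F] [Field K] {χ : RatFunc ℂ →+* F} {φ : F →+* K}
    (h : Tower F χ) (hT : Tw F K φ) : Tower K (φ.comp χ) := by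
  induction hT with
  | base => exact h
  | step K φ hT ih => exact Tower.step K (φ.comp χ) ih

/-- `Tower.const_iff`. -/
theorem Lv.cst_iff {m : ℕ} {F K : Type} [Field F] [Field K] {c : ℂ →+* F} {t : ℕ → F}
    {φ : F →+* K} (h : Lv (m + 1) F c t) (hT : Tw F K φ) (x : K) :
    Cst x ↔ ∃ z : ℂ, x = φ (c z) := by
  obtain ⟨χ, hχ, -, h2⟩ := h.exists_tower
  have h3 := (hχ.tw hT).const_iff x
  simp only [RingHom.comp_apply, h2] at h3
  exact h3

/-- `Tower.natP_iff`. -/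
theorem Lv.natP_iff {m : ℕ} {F K : Type} [Field F] [Field K] {c : ℂ →+* F} {t : ℕ → F}
    {φ : F →+* K} (h : Lv (m + 1) F c t) (hT : Tw F K φ) (x : RatFunc K) :
    NatP (RatFunc.C (φ (t 0))) x ↔ ∃ j : ℕ, x = (j : RatFunc K) := by
  obtain ⟨χ, hχ, h1, -⟩ := h.exists_tower
  have h3 := (hχ.tw hT).natP_iff x
  rw [RingHom.comp_apply, h1] at h3
  exact h3

private theorem Towers_eval {F : Type} [Field F] {c : ℂ →+* F} {χ : RatFunc ℂ →+* F} {t0 : F}
    (h1 : χ RatFunc.X = t0) (h2 : ∀ z : ℂ, χ (RatFunc.C z) = c z) (p : ℂ[X]) :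
    χ (algebraMap ℂ[X] (RatFunc ℂ) p) = p.eval₂ c t0 := by
  have h3 : χ.comp (algebraMap ℂ[X] (RatFunc ℂ)) = Polynomial.eval₂RingHom c t0 := by
    apply Polynomial.ringHom_ext
    · intro a
      rw [RingHom.comp_apply, RatFunc.algebraMap_C, h2, Polynomial.coe_eval₂RingHom,
        Polynomial.eval₂_C]
    · rw [RingHom.comp_apply, RatFunc.algebraMap_X, h1, Polynomial.coe_eval₂RingHom,
        Polynomial.eval₂_X]
  rw [← Polynomial.coe_eval₂RingHom, ← h3, RingHom.comp_apply]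

/-- `Tower.polyP_iff`. -/
theorem Lv.polyP_iff {m : ℕ} {F K : Type} [Field F] [Field K] {c : ℂ →+* F} {t : ℕ → F}
    {φ : F →+* K} (h : Lv (m + 1) F c t) (hT : Tw F K φ) (x : RatFunc K) :
    PolyP (RatFunc.C (φ (t 0))) x ↔ ∃ p : ℂ[X], x = RatFunc.C (φ (p.eval₂ c (t 0))) := by
  obtain ⟨χ, hχ, h1, h2⟩ := h.exists_tower
  have h3 := (hχ.tw hT).polyP_iff x
  simp only [RingHom.comp_apply, h1, Towers_eval h1 h2] at h3
  exact h3

/-- `Tower.prod_lin_not_isSquare`. -/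
theorem Lv.prod_not_isSquare {m : ℕ} {F : Type} [Field F] {c : ℂ →+* F} {t : ℕ → F}
    (h : Lv (m + 1) F c t) {B : Finset ℂ} (hB : B.Nonempty) :
    ¬ IsSquare (∏ b ∈ B, (t 0 - c b)) := by
  obtain ⟨χ, hχ, h1, h2⟩ := h.exists_tower
  have h3 := hχ.prod_lin_not_isSquare hB
  have h4 : ∀ b : ℂ, χ (lin b) = t 0 - c b := by
    intro b
    unfold lin
    rw [map_sub, h1, h2]
  simp only [h4] at h3
  exact h3

end MP4369f4
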